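import Pool.Agent.H32.AO.D0

/-!
# MP_ede373, orbits of algebraic points, row A6: relations from roots and near relations

`rel_of_root`: `G i = rename (fun _ ↦ j0)` of the one-variable `r i` (as `∑ C (coeff) * X j0 ^ l`, i.e.
`Polynomial.aeval (MvPolynomial.X j0) (r i)`): `totalDegree ≤ natDegree`, `nrm ≤ CZ.nr` (triangle inequality),
`aeval P (G i) = Polynomial.aeval (P j0) (r i)`. `n = M`, the leading value is `c` with `‖c‖ ≥ 1 ≥ exp (-X)`, the relation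
is exact.

`rootRel_rat`: `w = p / q` is the root of `q w - p`: `M = 1`, `r 1 = C q`, `r 0 = C (-p)`, `nr (C a) = |a| ≤ exp X`.

`rel_near`: `alg_rel` (row `CZ.Xc`, `CZ.alg_rel`) for the tuple `Q = Fin.append P0 winf` gives `n, G` with
`G_n(Q) ≠ 0` and `∑ G_j(Q) y^j = 0`. Let `N ≥ totalDegree (G j)`, `Bn ≥ nrm (G j)` for `j ≤ n`, `B ≥ 1` with
`‖Q i‖ + 1 ≤ B`, `‖y‖ ≤ B`, `g = ‖G_n(Q)‖`. For `w` with `‖w j - winf j‖ ≤ exp (-(2 L0)) ≤ 1` and
`Q' = Fin.append P0 w`: `‖Q' i - Q i‖ ≤ exp (-(2 L0))` (`Fin.addCases`), so by `CZ.aeval_sub_le`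
`‖G_j(Q') - G_j(Q)‖ ≤ D exp (-(2 L0))`, `D = Bn (N B^N)`, and
`‖∑ G_j(Q') y^j‖ ≤ (n+1) D B^n exp (-(2 L0)) ≤ exp (-L0)` if `exp L0 ≥ (n+1) D B^n` (true for `L0 ≥ X ≥ X0`),
`‖G_n(Q')‖ ≥ g - D exp (-(2 L0)) ≥ g / 2 ≥ exp (-X)` for `X ≥ X0`. Also `n, N ≤ X` and `nrm (G j) ≤ Bn ≤ exp X`.
-/

set_option autoImplicit false

namespace AO

open CZ
open H32.T3 (nrm)

/-- the polynomial in one of the variables -/
noncomputable def A6_mv {k : ℕ} (j0 : Fin k) (P : Polynomial ℤ) : MvPolynomial (Fin k) ℤ :=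
  ∑ i ∈ Finset.range (P.natDegree + 1), MvPolynomial.C (P.coeff i) * MvPolynomial.X j0 ^ i

theorem A6_mv_deg {k : ℕ} (j0 : Fin k) (P : Polynomial ℤ) : (A6_mv j0 P).totalDegree ≤ P.natDegree := by
  refine MvPolynomial.totalDegree_finsetSum_le fun i hi ↦ ?_
  refine (MvPolynomial.totalDegree_mul _ _).trans ?_
  rw [MvPolynomial.totalDegree_C, zero_add]
  refine (MvPolynomial.totalDegree_pow _ _).trans ?_
  rw [MvPolynomial.totalDegree_X, mul_one]
  exact Nat.lt_succ_iff.mp (Finset.mem_range.mp hi)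

theorem A6_mv_nrm {k : ℕ} (j0 : Fin k) (P : Polynomial ℤ) : nrm (A6_mv j0 P) ≤ nr P := by
  refine (H32.T3.nrm_sum_le _ _).trans ?_
  have h0 : nr P = ∑ i ∈ Finset.range (P.natDegree + 1), |((P.coeff i : ℤ) : ℝ)| := by
    unfold nr
    exact Polynomial.sum_over_range P (fun _ => by simp)
  rw [h0]
  refine Finset.sum_le_sum fun i _ ↦ (H32.T3.nrm_mul_le _ _).trans ?_
  rw [H32.T3.nrm_C]
  have h1 := H32.T3.nrm_pow_le (MvPolynomial.X j0 : MvPolynomial (Fin k) ℤ) i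
  rw [H32.T3.nrm_X, one_pow] at h1
  exact (mul_le_mul_of_nonneg_left h1 (abs_nonneg _)).trans (mul_one _).le

theorem A6_mv_aeval {k : ℕ} (j0 : Fin k) (P : Polynomial ℤ) (x : Fin k → ℂ) :
    MvPolynomial.aeval x (A6_mv j0 P) = Polynomial.aeval (x j0) P := by
  rw [Polynomial.aeval_eq_sum_range]
  unfold A6_mv
  rw [map_sum]
  refine Finset.sum_congr rfl fun i _ => ?_
  rw [map_mul, map_pow, MvPolynomial.aeval_C, MvPolynomial.aeval_X, zsmul_eq_mul, algebraMap_int_eq,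
    eq_intCast]

theorem rel_of_root {k : ℕ} {X L0 : ℝ} {P : Fin k → ℂ} {j0 : Fin k} {w : ℂ} (hX : 0 ≤ X)
    (h : RootRel X (P j0) w) : Rel X L0 P w := by
  obtain ⟨M, r, c, hM, hMX, hc, hrM, hd, hn, hs⟩ := h
  refine ⟨M, fun i => A6_mv j0 (r i), hM, hMX, fun j _ => ?_, fun j _ => ?_, ?_, ?_⟩
  · have h1 : ((A6_mv j0 (r j)).totalDegree : ℝ) ≤ ((r j).natDegree : ℝ) := by
      exact_mod_cast A6_mv_deg j0 (r j)
    exact h1.trans (hd j)
  · exact (A6_mv_nrm j0 (r j)).trans (hn j)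
  · rw [A6_mv_aeval, hrM, Polynomial.aeval_C, algebraMap_int_eq, eq_intCast, Complex.norm_intCast]
    have h1 : Real.exp (-X) ≤ 1 := by
      rw [Real.exp_le_one_iff]
      linarith
    have h2 : (1 : ℝ) ≤ |(c : ℝ)| := by
      exact_mod_cast Int.one_le_abs hc
    exact h1.trans h2
  · have h1 : ∑ j ∈ Finset.range (M + 1), MvPolynomial.aeval P (A6_mv j0 (r j)) * w ^ j = 0 := by
      rw [← hs]
      exact Finset.sum_congr rfl fun j _ => by rw [A6_mv_aeval]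
    rw [h1, norm_zero]
    exact (Real.exp_pos _).le

theorem A6_nr_C (c : ℤ) : nr (Polynomial.C c) = |(c : ℝ)| := by
  unfold nr
  rw [Polynomial.sum_C_index]
  simp

theorem rootRel_rat {X : ℝ} (J : ℂ) (p : ℤ) (q : ℕ) (hq : 0 < q) (hX : 1 ≤ X)
    (hqX : (q : ℝ) ≤ Real.exp X) (hpX : |(p : ℝ)| ≤ Real.exp X) :
    RootRel X J ((p : ℂ) / q) := by
  have hq0 : (q : ℂ) ≠ 0 := by
    exact_mod_cast hq.ne'
  refine ⟨1, fun i => if i = 0 then Polynomial.C (-p) else Polynomial.C (q : ℤ), (q : ℤ), one_pos,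
    by rw [Nat.cast_one]; exact hX, by exact_mod_cast hq.ne', if_neg one_ne_zero, fun i => ?_, fun i => ?_, ?_⟩
  · dsimp only
    split_ifs
    · rw [Polynomial.natDegree_C, Nat.cast_zero]
      linarith
    · rw [Polynomial.natDegree_C, Nat.cast_zero]
      linarith
  · dsimp only
    split_ifs
    · rw [A6_nr_C, Int.cast_neg, abs_neg]
      exact hpX
    · rw [A6_nr_C, Int.cast_natCast, abs_of_nonneg (Nat.cast_nonneg q)]
      exact hqX
  · rw [Finset.sum_range_succ, Finset.sum_range_one]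
    dsimp only
    rw [if_pos rfl, if_neg one_ne_zero, Polynomial.aeval_C,
      Polynomial.aeval_C, pow_zero, pow_one, mul_one, algebraMap_int_eq, eq_intCast, eq_intCast,
      Int.cast_neg, Int.cast_natCast, mul_div_cancel₀ _ hq0, neg_add_cancel]

theorem rel_near {k r : ℕ} (P0 : Fin k → ℂ) (winf : Fin r → ℂ) (y : ℂ)
    (h : IsAlgebraic (IntermediateField.adjoin ℚ
      (Set.range (Fin.append P0 winf : Fin (k + r) → ℂ))) y) :
    ∃ X0 : ℝ, 1 ≤ X0 ∧ ∀ (X L0 : ℝ) (w : Fin r → ℂ), X0 ≤ X → X ≤ L0 →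
      (∀ j, ‖w j - winf j‖ ≤ Real.exp (-(2 * L0))) →
      Rel X L0 (Fin.append P0 w : Fin (k + r) → ℂ) y := by
  classical
  obtain ⟨n, G, hn, hGn, hs⟩ := CZ.alg_rel _ y h
  obtain ⟨Q, hQ⟩ : ∃ Q : Fin (k + r) → ℂ, Q = Fin.append P0 winf := ⟨_, rfl⟩
  rw [← hQ] at hGn hs
  obtain ⟨N, hN⟩ : ∃ N : ℕ, ∀ j ≤ n, (G j).totalDegree ≤ N :=
    ⟨∑ j ∈ Finset.range (n + 1), (G j).totalDegree, fun j hj =>
      Finset.single_le_sum (f := fun j => (G j).totalDegree) (fun _ _ => Nat.zero_le _)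
        (Finset.mem_range.2 (Nat.lt_succ_of_le hj))⟩
  obtain ⟨Bn, hBn0, hBn⟩ : ∃ Bn : ℝ, 0 ≤ Bn ∧ ∀ j ≤ n, nrm (G j) ≤ Bn :=
    ⟨∑ j ∈ Finset.range (n + 1), nrm (G j), Finset.sum_nonneg fun _ _ => H32.T3.nrm_nonneg _,
      fun j hj => Finset.single_le_sum (f := fun j => nrm (G j)) (fun _ _ => H32.T3.nrm_nonneg _)
        (Finset.mem_range.2 (Nat.lt_succ_of_le hj))⟩
  obtain ⟨B, hB1, hBQ, hBy⟩ : ∃ B : ℝ, 1 ≤ B ∧ (∀ i, ‖Q i‖ + 1 ≤ B) ∧ ‖y‖ ≤ B := by
    have h0 : 0 ≤ ∑ i, ‖Q i‖ := Finset.sum_nonneg fun _ _ => norm_nonneg _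
    have h2 := norm_nonneg y
    refine ⟨1 + ‖y‖ + ∑ i, ‖Q i‖, by linarith, fun i => ?_, by linarith⟩
    have h3 : ‖Q i‖ ≤ ∑ i, ‖Q i‖ :=
      Finset.single_le_sum (f := fun i => ‖Q i‖) (fun _ _ => norm_nonneg _) (Finset.mem_univ i)
    linarith
  obtain ⟨g, hg⟩ : ∃ g : ℝ, g = ‖MvPolynomial.aeval Q (G n)‖ := ⟨_, rfl⟩
  have hg0 : 0 < g := by
    rw [hg]
    exact norm_pos_iff.2 hGn
  have hB0 : 0 < B := by linarith
  obtain ⟨D, hD⟩ : ∃ D : ℝ, D = Bn * (N * B ^ N) := ⟨_, rfl⟩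
  have hD0 : 0 ≤ D := by
    rw [hD]
    positivity
  obtain ⟨E, hE⟩ : ∃ E : ℝ, E = (n + 1) * D * B ^ n := ⟨_, rfl⟩
  have hE0 : 0 ≤ E := by
    rw [hE]
    positivity
  have hg2 : 0 < 2 / g := by positivity
  have hDg : 0 ≤ 2 * D / g := by positivity
  have hn0 : (0 : ℝ) ≤ n := Nat.cast_nonneg _
  have hN0 : (0 : ℝ) ≤ N := Nat.cast_nonneg _
  refine ⟨1 + n + N + Bn + E + 2 / g + 2 * D / g, by linarith, ?_⟩
  intro X L0 w hX hL hw
  have hX1 : 1 ≤ X := by linarith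
  have hXE : X ≤ Real.exp X := by linarith [Real.add_one_le_exp X]
  have hLE : L0 ≤ Real.exp L0 := by linarith [Real.add_one_le_exp L0]
  obtain ⟨δ, hδ⟩ : ∃ δ : ℝ, δ = Real.exp (-(2 * L0)) := ⟨_, rfl⟩
  have hδ0 : 0 ≤ δ := by
    rw [hδ]
    exact (Real.exp_pos _).le
  have hδ1 : δ ≤ 1 := by
    rw [hδ, Real.exp_le_one_iff]
    linarith
  have hδX : δ ≤ Real.exp (-X) := by
    rw [hδ]
    apply Real.exp_le_exp.2
    linarith
  obtain ⟨Q', hQ'⟩ : ∃ Q' : Fin (k + r) → ℂ, Q' = Fin.append P0 w := ⟨_, rfl⟩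
  rw [← hδ] at hw
  have hQd : ∀ i, ‖Q' i - Q i‖ ≤ δ := by
    rw [hQ, hQ']
    refine Fin.addCases (fun i => ?_) (fun i => ?_)
    · rw [Fin.append_left, Fin.append_left, sub_self, norm_zero]
      exact hδ0
    · rw [Fin.append_right, Fin.append_right]
      exact hw i
  have hQn : ∀ i, ‖Q i‖ ≤ B := fun i => by linarith [hBQ i]
  have hQn' : ∀ i, ‖Q' i‖ ≤ B := fun i => by
    have e : Q' i = (Q' i - Q i) + Q i := by ring
    have h1 := norm_add_le (Q' i - Q i) (Q i)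
    rw [← e] at h1
    linarith [hBQ i, hQd i]
  have hdiff : ∀ j ≤ n, ‖MvPolynomial.aeval Q' (G j) - MvPolynomial.aeval Q (G j)‖ ≤ D * δ := by
    intro j hj
    refine (CZ.aeval_sub_le (G j) N (hN j hj) Q Q' B δ hB1 hQn hQn' hQd hδ0).trans ?_
    have h1 : nrm (G j) * (N * B ^ N * δ) ≤ Bn * (N * B ^ N * δ) :=
      mul_le_mul_of_nonneg_right (hBn j hj) (by positivity)
    refine h1.trans (le_of_eq ?_)
    rw [hD]
    ring
  rw [← hQ']
  have hexpX : Real.exp (-X) ≤ 1 / X := by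
    rw [Real.exp_neg, ← one_div]
    exact one_div_le_one_div_of_le (by linarith) hXE
  refine ⟨n, G, hn, by linarith, fun j hj => ?_, fun j hj => ?_, ?_, ?_⟩
  · have h1 : ((G j).totalDegree : ℝ) ≤ N := by exact_mod_cast hN j hj
    linarith
  · have h1 := hBn j hj
    linarith
  · have h1 := hdiff n le_rfl
    have h2 : g ≤ ‖MvPolynomial.aeval Q' (G n)‖ + D * δ := by
      have h3 := norm_sub_le (MvPolynomial.aeval Q' (G n))
        (MvPolynomial.aeval Q' (G n) - MvPolynomial.aeval Q (G n))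
      rw [sub_sub_cancel, ← hg] at h3
      linarith
    have hX0 : 0 < X := by linarith
    have h4 : D * δ ≤ g / 2 := by
      have h5 : D * δ ≤ D * (1 / X) := mul_le_mul_of_nonneg_left (hδX.trans hexpX) hD0
      have h6 : D * (1 / X) ≤ g / 2 := by
        have h7 : 2 * D / g ≤ X := by linarith
        rw [div_le_iff₀ hg0] at h7
        rw [mul_one_div, div_le_iff₀ hX0]
        linarith
      linarith
    have h8 : Real.exp (-X) ≤ g / 2 := by
      refine hexpX.trans ?_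
      have h7 : 2 / g ≤ X := by linarith
      rw [div_le_iff₀ hg0] at h7
      rw [div_le_iff₀ hX0]
      linarith
    linarith
  · have h1 : ∑ j ∈ Finset.range (n + 1), MvPolynomial.aeval Q' (G j) * y ^ j =
        ∑ j ∈ Finset.range (n + 1),
          (MvPolynomial.aeval Q' (G j) - MvPolynomial.aeval Q (G j)) * y ^ j := by
      rw [← sub_zero (∑ j ∈ Finset.range (n + 1), MvPolynomial.aeval Q' (G j) * y ^ j), ← hs,
        ← Finset.sum_sub_distrib]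
      exact Finset.sum_congr rfl fun j _ => by ring
    rw [h1]
    have h2 : ∀ j ∈ Finset.range (n + 1),
        ‖(MvPolynomial.aeval Q' (G j) - MvPolynomial.aeval Q (G j)) * y ^ j‖ ≤ D * δ * B ^ n := by
      intro j hj
      have hjn : j ≤ n := Nat.lt_succ_iff.1 (Finset.mem_range.1 hj)
      rw [norm_mul, norm_pow]
      refine mul_le_mul (hdiff j hjn) ?_ (by positivity) (by positivity)
      exact (pow_le_pow_left₀ (norm_nonneg _) hBy j).trans (pow_le_pow_right₀ hB1 hjn)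
    refine (norm_sum_le_of_le _ h2).trans ?_
    rw [Finset.sum_const, Finset.card_range, nsmul_eq_mul]
    have h3 : ((n + 1 : ℕ) : ℝ) * (D * δ * B ^ n) = E * δ := by
      rw [hE]
      push_cast
      ring
    rw [h3]
    have h4 : E ≤ Real.exp L0 := by linarith
    have h5 : δ = Real.exp (-L0) * Real.exp (-L0) := by
      rw [hδ, ← Real.exp_add]
      congr 1
      ring
    have h6 : Real.exp L0 * Real.exp (-L0) = 1 := by
      rw [← Real.exp_add, add_neg_cancel, Real.exp_zero]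
    calc E * δ ≤ Real.exp L0 * δ := mul_le_mul_of_nonneg_right h4 hδ0
      _ = (Real.exp L0 * Real.exp (-L0)) * Real.exp (-L0) := by rw [h5]; ring
      _ = Real.exp (-L0) := by rw [h6, one_mul]

end AO
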