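import Pool.Agent.H32.AO.D0

/-!
# MP_ede373, orbits of algebraic points, row A3: the local statement with explicit constants

Copy the proof of `CZ.xd_local` (file `Pool/Agent/H32/CZ/Xd.lean`). `D = Bn (N B^N)`, `Lc = (n+1) (D B^n) + D + 2`.
`‖G_j(P') - G_j(P)‖ ≤ D e^{-δ}` (`aeval_sub_le`), so (the relation at `P` is now only an inequality
`≤ e^{-L0} ≤ e^{-δ}`) `‖∑_j G_j(P') y^j‖ ≤ (n+1) D B^n e^{-δ} + e^{-δ} ≤ Lc e^{-δ}` and
`‖G_n(P')‖ ≥ 2 g0 - D e^{-δ} ≥ g0`, because `Lc e^{-δ/2} ≤ g0` for `δ ≥ 2 max 0 (log (Lc / g0))`. `near_root` gives `z`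
with `‖z - y‖^n ≤ Lc e^{-δ} / g0 ≤ e^{-δ/2}`.
-/

set_option autoImplicit false

namespace AO

open CZ Polynomial
open H32.T3 (nrm)

theorem local_cap {k : ℕ} (P : Fin k → ℂ) (y : ℂ) (n : ℕ) (G : ℕ → MvPolynomial (Fin k) ℤ)
    (hn : 0 < n) (N : ℕ) (hN : ∀ j ≤ n, (G j).totalDegree ≤ N) (Bn B g0 L0 : ℝ) (hBn0 : 0 ≤ Bn)
    (hBn : ∀ j ≤ n, nrm (G j) ≤ Bn) (hB1 : 1 ≤ B) (hBP : ∀ i, ‖P i‖ + 1 ≤ B) (hBy : ‖y‖ ≤ B)
    (hg0 : 0 < g0) (hg : 2 * g0 ≤ ‖MvPolynomial.aeval P (G n)‖)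
    (hrel : ‖∑ j ∈ Finset.range (n + 1), MvPolynomial.aeval P (G j) * y ^ j‖ ≤ Real.exp (-L0))
    (δ : ℝ) (hδ : 2 * max 0 (Real.log (((n + 1) * (Bn * (N * B ^ N) * B ^ n) +
      Bn * (N * B ^ N) + 2) / g0)) ≤ δ) (hδL : δ ≤ L0) (P' : Fin k → ℂ)
    (hP' : ∀ i, ‖P' i - P i‖ ≤ Real.exp (-δ)) :
    MvPolynomial.aeval P' (G n) ≠ 0 ∧
      ∃ z : ℂ, ∑ j ∈ Finset.range (n + 1), MvPolynomial.aeval P' (G j) * z ^ j = 0 ∧
        ‖z - y‖ ≤ Real.exp (-(δ / (2 * n))) := by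
  have hn1 : (1 : ℝ) ≤ n := by exact_mod_cast hn
  obtain ⟨D, hD⟩ : ∃ D : ℝ, D = Bn * (N * B ^ N) := ⟨_, rfl⟩
  have hD0 : 0 ≤ D := by rw [hD]; positivity
  obtain ⟨L, hL⟩ : ∃ L : ℝ, L = (n + 1) * (D * B ^ n) + D + 2 := ⟨_, rfl⟩
  have hL1 : 1 ≤ L := by
    rw [hL]
    have : 0 ≤ (n + 1) * (D * B ^ n) := by positivity
    linarith
  have hLD : D ≤ L := by
    rw [hL]
    have : 0 ≤ (n + 1) * (D * B ^ n) := by positivity
    linarith
  rw [← hD, ← hL] at hδ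
  obtain ⟨d1, hd1e⟩ : ∃ d1 : ℝ, d1 = 2 * max 0 (Real.log (L / g0)) := ⟨_, rfl⟩
  rw [← hd1e] at hδ
  have hd1 : 0 ≤ d1 := by rw [hd1e]; positivity
  have hd1' : L * Real.exp (-(d1 / 2)) ≤ g0 := by
    rw [hd1e]
    have h1 : Real.log (L / g0) ≤ max 0 (Real.log (L / g0)) := le_max_right _ _
    have h2 : 2 * max 0 (Real.log (L / g0)) / 2 = max 0 (Real.log (L / g0)) := by ring
    rw [h2]
    have h3 : Real.exp (-max 0 (Real.log (L / g0))) ≤ Real.exp (-Real.log (L / g0)) :=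
      Real.exp_le_exp.2 (by linarith)
    rw [Real.exp_neg (Real.log (L / g0)), Real.exp_log (by positivity)] at h3
    calc L * Real.exp (-max 0 (Real.log (L / g0))) ≤ L * (L / g0)⁻¹ :=
          mul_le_mul_of_nonneg_left h3 (by linarith)
      _ = g0 := by
          have : L ≠ 0 := by linarith
          field_simp
  have hexp1 : Real.exp (-δ) ≤ 1 := Real.exp_le_one_iff.2 (by linarith)
  have hPB : ∀ i, ‖P i‖ ≤ B := fun i => by linarith [hBP i]
  have hP'B : ∀ i, ‖P' i‖ ≤ B := fun i => by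
    have h1 : ‖P' i‖ ≤ ‖P' i - P i‖ + ‖P i‖ := by
      have := norm_add_le (P' i - P i) (P i)
      rwa [sub_add_cancel] at this
    linarith [hBP i, hP' i]
  have hdiff : ∀ j ≤ n, ‖MvPolynomial.aeval P' (G j) - MvPolynomial.aeval P (G j)‖ ≤
      D * Real.exp (-δ) := by
    intro j hj
    refine (aeval_sub_le (G j) N (hN j hj) P P' B (Real.exp (-δ)) hB1 hPB hP'B hP'
      (Real.exp_pos _).le).trans ?_
    rw [hD]
    have h1 : 0 ≤ N * B ^ N * Real.exp (-δ) := by positivity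
    calc H32.T3.nrm (G j) * (N * B ^ N * Real.exp (-δ)) ≤ Bn * (N * B ^ N * Real.exp (-δ)) :=
          mul_le_mul_of_nonneg_right (hBn j hj) h1
      _ = _ := by ring
  have hsum : ‖∑ j ∈ Finset.range (n + 1), MvPolynomial.aeval P' (G j) * y ^ j‖ ≤
      L * Real.exp (-δ) := by
    have h1 : ∑ j ∈ Finset.range (n + 1), MvPolynomial.aeval P' (G j) * y ^ j =
        ∑ j ∈ Finset.range (n + 1),
          (MvPolynomial.aeval P' (G j) - MvPolynomial.aeval P (G j)) * y ^ j +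
        ∑ j ∈ Finset.range (n + 1), MvPolynomial.aeval P (G j) * y ^ j := by
      simp only [sub_mul]
      rw [Finset.sum_sub_distrib]
      ring
    have h1' : Real.exp (-L0) ≤ Real.exp (-δ) := Real.exp_le_exp.2 (by linarith)
    have h2 : ∀ j ∈ Finset.range (n + 1),
        ‖(MvPolynomial.aeval P' (G j) - MvPolynomial.aeval P (G j)) * y ^ j‖ ≤
          D * B ^ n * Real.exp (-δ) := by
      intro j hj
      have hj' : j ≤ n := Nat.lt_succ_iff.1 (Finset.mem_range.1 hj)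
      rw [norm_mul, norm_pow]
      have h3 : ‖y‖ ^ j ≤ B ^ n := (pow_le_pow_left₀ (norm_nonneg _) hBy j).trans
        (pow_le_pow_right₀ hB1 hj')
      calc _ ≤ (D * Real.exp (-δ)) * B ^ n :=
            mul_le_mul (hdiff j hj') h3 (by positivity) (by positivity)
        _ = _ := by ring
    have h3 : ‖∑ j ∈ Finset.range (n + 1),
          (MvPolynomial.aeval P' (G j) - MvPolynomial.aeval P (G j)) * y ^ j‖ ≤
        (n + 1) * (D * B ^ n * Real.exp (-δ)) := by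
      refine (norm_sum_le _ _).trans ((Finset.sum_le_card_nsmul _ _ _ h2).trans ?_)
      rw [Finset.card_range, nsmul_eq_mul]
      push_cast
      exact le_rfl
    have h4 : 0 ≤ (D + 1) * Real.exp (-δ) := by positivity
    rw [h1]
    refine (norm_add_le _ _).trans ?_
    refine (add_le_add h3 (hrel.trans h1')).trans ?_
    rw [hL]
    nlinarith
  have hee : Real.exp (-δ) = Real.exp (-(δ / 2)) * Real.exp (-(δ / 2)) := by
    rw [← Real.exp_add]
    congr 1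
    ring
  have h5 : L * Real.exp (-(δ / 2)) ≤ g0 := by
    refine le_trans (mul_le_mul_of_nonneg_left (Real.exp_le_exp.2 ?_) (by linarith)) hd1'
    linarith
  have h6 : L * Real.exp (-δ) ≤ g0 * Real.exp (-(δ / 2)) := by
    rw [hee, ← mul_assoc]
    exact mul_le_mul_of_nonneg_right h5 (Real.exp_pos _).le
  have h7 : L * Real.exp (-δ) ≤ g0 := by
    refine h6.trans ?_
    have : Real.exp (-(δ / 2)) ≤ 1 := Real.exp_le_one_iff.2 (by linarith)
    nlinarith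
  have hGn' : g0 ≤ ‖MvPolynomial.aeval P' (G n)‖ := by
    have h8 := hdiff n le_rfl
    have h9 : ‖MvPolynomial.aeval P (G n)‖ ≤ ‖MvPolynomial.aeval P' (G n)‖ +
        ‖MvPolynomial.aeval P' (G n) - MvPolynomial.aeval P (G n)‖ := by
      have := norm_sub_le (MvPolynomial.aeval P' (G n))
        (MvPolynomial.aeval P' (G n) - MvPolynomial.aeval P (G n))
      rwa [sub_sub_cancel] at this
    have h10 : D * Real.exp (-δ) ≤ L * Real.exp (-δ) :=
      mul_le_mul_of_nonneg_right hLD (Real.exp_pos _).le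
    linarith
  have hne : MvPolynomial.aeval P' (G n) ≠ 0 := norm_pos_iff.1 (lt_of_lt_of_le hg0 hGn')
  refine ⟨hne, ?_⟩
  obtain ⟨z, hz, hzy⟩ := near_root (xdP (fun j => MvPolynomial.aeval P' (G j)) n) n hn
    (xdP_deg _ n hne) y g0 (L * Real.exp (-δ)) hg0 (by rw [xdP_lead _ n hne]; exact hGn')
    (by rw [xdP_eval]; exact hsum)
  refine ⟨z, ?_, ?_⟩
  · have h8 := (mem_roots'.1 hz).2
    rw [IsRoot.def, xdP_eval] at h8
    exact h8
  · have h8 : ‖z - y‖ ^ n ≤ (Real.exp (-(δ / (2 * n)))) ^ n := by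
      refine hzy.trans ?_
      rw [div_le_iff₀ hg0, ← Real.exp_nat_mul]
      have : (n : ℝ) * -(δ / (2 * n)) = -(δ / 2) := by
        have : (n : ℝ) ≠ 0 := by exact_mod_cast hn.ne'
        field_simp
      rw [this]
      linarith
    exact le_of_pow_le_pow_left₀ hn.ne' (Real.exp_pos _).le h8

end AO
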