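import Pool.Agent.H32.AO.A2
import Pool.Agent.H32.AO.A3

/-!
# MP_ede373, orbits of algebraic points, row A4: one more number, sizes in one parameter

Given `k, B` (we may replace `B` by `max B 1`, but if `k = 0` note `1 ≤ B` need not hold: put `B' = max 1 B`). Let `X` be
large. From `Rel X L0 P y` take `n, G`. Put `N = ⌊X⌋₊` (`totalDegree ≤ N` by `Nat.le_floor`), `Bn = exp X ≥ 1`,
`g0 = exp (-X) / 2`. `d1 = 2 max 0 (log (Lc / g0))` with `Lc` as in `local_cap`: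
`n ≤ X`, `N ≤ X`, `N ≤ exp N`, `B'^N ≤ exp (X log B')`, `B'^n ≤ exp (X log B')`, so
`Lc ≤ (X + 1) exp (2 X + 2 X log B') + exp (2 X + X log B') + 2 ≤ exp (C X)` and `d1 ≤ 2 (C X + X + log 2) ≤ X ^ 2 / 4`
for `X ≥ X0 (B)`, so `t d1 ≤ X ^ 2 t / 4 ≤ V / 2` by `X ^ 4 t ≤ V`. `ext_alg_cap` (with `hloc` from `local_cap`) gives
`t' = n (1 + log (n exp X) + N k) t ≤ X (1 + X + X + X k) t ≤ X ^ 4 t` and `V / (4 n ^ 2) ≥ V / (4 X ^ 2) ≥ V / X ^ 3`
for `X ≥ 4` and `X ^ 2 ≥ 3 + k`. Conclude with monotonicity of `ApprC` (unfold, or import `A1`: `ApprC.mono`).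
-/

set_option autoImplicit false

namespace AO

open CZ Polynomial
open H32.T3 (nrm)

theorem ext_one (k : ℕ) (B : ℝ) : ∃ X0 : ℝ, 1 ≤ X0 ∧ ∀ X : ℝ, X0 ≤ X →
    ∀ (P : Fin k → ℂ) (y : ℂ) (L0 t V : ℝ), (∀ i, ‖P i‖ + 1 ≤ B) → ‖y‖ ≤ B →
      Rel X L0 P y → 1 ≤ t → X ^ 4 * t ≤ V → ApprC P t V L0 →
      ApprC (Fin.snoc P y : Fin (k + 1) → ℂ) (X ^ 4 * t) (V / X ^ 3) L0 := by
  obtain ⟨B', hB'⟩ : ∃ B' : ℝ, B' = max 1 B := ⟨_, rfl⟩
  have hB1 : 1 ≤ B' := by rw [hB']; exact le_max_left _ _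
  have hBB : B ≤ B' := by rw [hB']; exact le_max_right _ _
  obtain ⟨b, hb⟩ : ∃ b : ℝ, b = Real.log B' := ⟨_, rfl⟩
  have hb0 : 0 ≤ b := by rw [hb]; exact Real.log_nonneg hB1
  have hBexp : Real.exp b = B' := by rw [hb]; exact Real.exp_log (by linarith)
  have hk0 : (0 : ℝ) ≤ k := Nat.cast_nonneg k
  refine ⟨24 + 8 * b + k, by linarith, ?_⟩
  intro X hX P y L0 t V hP hy hrel ht hV hA
  obtain ⟨n, G, hn, hnX, hdeg, hnrm, hlead, hsum⟩ := hrel
  have hX24 : 24 ≤ X := by linarith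
  have hX0 : 0 < X := by linarith
  have hX1 : 1 ≤ X := by linarith
  have hn1 : (1 : ℝ) ≤ n := by exact_mod_cast hn
  obtain ⟨N, hN⟩ : ∃ N : ℕ, N = ⌊X⌋₊ := ⟨_, rfl⟩
  have hNX : (N : ℝ) ≤ X := by rw [hN]; exact Nat.floor_le hX0.le
  have hN0 : (0 : ℝ) ≤ N := Nat.cast_nonneg N
  have hXexp : X + 1 ≤ Real.exp X := Real.add_one_le_exp X
  have hpowN : B' ^ N ≤ Real.exp (X * b) := by
    rw [← hBexp, ← Real.exp_nat_mul]
    exact Real.exp_le_exp.2 (mul_le_mul_of_nonneg_right hNX hb0)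
  have hpown : B' ^ n ≤ Real.exp (X * b) := by
    rw [← hBexp, ← Real.exp_nat_mul]
    exact Real.exp_le_exp.2 (mul_le_mul_of_nonneg_right hnX hb0)
  have hpowN0 : 0 ≤ B' ^ N := by positivity
  have hpown0 : 0 ≤ B' ^ n := by positivity
  have hexpX : 0 < Real.exp X := Real.exp_pos X
  -- the constant
  have hD : Real.exp X * (N * B' ^ N) ≤ Real.exp (2 * X + X * b) := by
    have h1 : (N : ℝ) * B' ^ N ≤ Real.exp X * Real.exp (X * b) :=
      mul_le_mul (by linarith) hpowN hpowN0 hexpX.le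
    calc Real.exp X * (N * B' ^ N) ≤ Real.exp X * (Real.exp X * Real.exp (X * b)) :=
          mul_le_mul_of_nonneg_left h1 hexpX.le
      _ = Real.exp (2 * X + X * b) := by
          rw [← Real.exp_add, ← Real.exp_add]; congr 1; ring
  have hD0 : 0 ≤ Real.exp X * (N * B' ^ N) := by positivity
  have hfirst : (n + 1 : ℝ) * (Real.exp X * (N * B' ^ N) * B' ^ n) ≤ Real.exp (3 * X + 2 * (X * b)) := by
    have h1 : Real.exp X * (N * B' ^ N) * B' ^ n ≤ Real.exp (2 * X + X * b) * Real.exp (X * b) :=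
      mul_le_mul hD hpown hpown0 (Real.exp_pos _).le
    calc (n + 1 : ℝ) * (Real.exp X * (N * B' ^ N) * B' ^ n) ≤
          Real.exp X * (Real.exp (2 * X + X * b) * Real.exp (X * b)) :=
          mul_le_mul (by linarith) h1 (by positivity) hexpX.le
      _ = Real.exp (3 * X + 2 * (X * b)) := by
          rw [← Real.exp_add, ← Real.exp_add]; congr 1; ring
  have hXb : 0 ≤ X * b := by positivity
  have hsecond : Real.exp X * (N * B' ^ N) ≤ Real.exp (3 * X + 2 * (X * b)) :=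
    hD.trans (Real.exp_le_exp.2 (by linarith))
  have hthird : (2 : ℝ) ≤ Real.exp (3 * X + 2 * (X * b)) := by
    have := Real.add_one_le_exp (3 * X + 2 * (X * b))
    linarith
  have hsix : (6 : ℝ) ≤ Real.exp X := by linarith
  obtain ⟨Lc, hLc⟩ : ∃ Lc : ℝ, Lc = ((n : ℝ) + 1) * (Real.exp X * (N * B' ^ N) * B' ^ n) +
      Real.exp X * (N * B' ^ N) + 2 := ⟨_, rfl⟩
  have hLc1 : Lc ≤ 3 * Real.exp (3 * X + 2 * (X * b)) := by rw [hLc]; linarith
  have hLc0 : 0 < Lc := by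
    rw [hLc]
    have : 0 ≤ ((n : ℝ) + 1) * (Real.exp X * (N * B' ^ N) * B' ^ n) := by positivity
    linarith
  have hlogL : Real.log (Lc / (Real.exp (-X) / 2)) ≤ (5 + 2 * b) * X := by
    rw [Real.log_le_iff_le_exp (by positivity), div_le_iff₀ (by positivity)]
    have h1 : Real.exp ((5 + 2 * b) * X) * (Real.exp (-X) / 2) =
        Real.exp X * Real.exp (3 * X + 2 * (X * b)) / 2 := by
      rw [← mul_div_assoc, ← Real.exp_add, ← Real.exp_add]; congr 2; ring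
    rw [h1]
    have h2 : 6 * Real.exp (3 * X + 2 * (X * b)) ≤ Real.exp X * Real.exp (3 * X + 2 * (X * b)) :=
      mul_le_mul_of_nonneg_right hsix (Real.exp_pos _).le
    linarith
  obtain ⟨d1, hd1⟩ : ∃ d1 : ℝ, d1 = 2 * max 0 (Real.log (Lc / (Real.exp (-X) / 2))) := ⟨_, rfl⟩
  have hd10 : 0 ≤ d1 := by rw [hd1]; positivity
  have hd1X : d1 ≤ 2 * ((5 + 2 * b) * X) := by
    rw [hd1]
    have h1 : max 0 (Real.log (Lc / (Real.exp (-X) / 2))) ≤ (5 + 2 * b) * X :=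
      max_le (by positivity) hlogL
    linarith
  have hloc : ∀ (δ : ℝ), d1 ≤ δ → δ ≤ L0 → ∀ P' : Fin k → ℂ,
      (∀ i, ‖P' i - P i‖ ≤ Real.exp (-δ)) → MvPolynomial.aeval P' (G n) ≠ 0 ∧
      ∃ z : ℂ, ∑ j ∈ Finset.range (n + 1), MvPolynomial.aeval P' (G j) * z ^ j = 0 ∧
        ‖z - y‖ ≤ Real.exp (-(δ / (2 * n))) := by
    intro δ hδ hδL P' hP'
    refine local_cap P y n G hn N ?_ (Real.exp X) B' (Real.exp (-X) / 2) L0 hexpX.le hnrm hB1
      (fun i => (hP i).trans hBB) (hy.trans hBB) (by positivity) (by linarith) hsum δ ?_ hδL P' hP'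
    · intro j hj
      rw [hN]
      exact Nat.le_floor (hdeg j hj)
    · rw [← hLc, ← hd1]; exact hδ
  have hX3 : X ≤ X ^ 3 := by
    calc X = X ^ 1 := (pow_one X).symm
      _ ≤ X ^ 3 := pow_le_pow_right₀ hX1 (by norm_num)
  have hVpos : 0 < V := lt_of_lt_of_le (by positivity) hV
  have htV : t * d1 ≤ V / 2 := by
    have h1 : d1 ≤ X ^ 4 / 2 := by
      have h2 : 4 * (5 + 2 * b) ≤ X ^ 3 := by linarith
      have h3 : X * (4 * (5 + 2 * b)) ≤ X * X ^ 3 := mul_le_mul_of_nonneg_left h2 hX0.le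
      have h4 : X * X ^ 3 = X ^ 4 := by ring
      rw [h4] at h3
      linarith
    have h5 : t * d1 ≤ t * (X ^ 4 / 2) := mul_le_mul_of_nonneg_left h1 (by linarith)
    linarith
  have hres := ext_alg_cap P y n G hn N (fun j hj => by rw [hN]; exact Nat.le_floor (hdeg j hj))
    (Real.exp X) (Real.one_le_exp hX0.le) hnrm d1 L0 hd10 hloc t V ht hVpos htV hA
  obtain ⟨E, iF, iN, x, S, d, h1, h2, h3, h4⟩ := hres
  have hlogn : Real.log (n * Real.exp X) ≤ 2 * X := by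
    rw [Real.log_mul (by linarith) hexpX.ne', Real.log_exp]
    have : Real.log n ≤ n := by
      have := Real.log_le_sub_one_of_pos (show (0 : ℝ) < n by linarith)
      linarith
    linarith
  have htt : n * (1 + Real.log (n * Real.exp X) + N * k) * t ≤ X ^ 4 * t := by
    apply mul_le_mul_of_nonneg_right _ (by linarith)
    have hNk : (N : ℝ) * k ≤ X * k := mul_le_mul_of_nonneg_right hNX hk0
    have ha : 1 + Real.log (n * Real.exp X) + N * k ≤ X ^ 3 := by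
      have h5 : 1 + Real.log (n * Real.exp X) + N * k ≤ X * (3 + k) := by nlinarith
      have h6 : X * (3 + k) ≤ X * X ^ 2 := by
        apply mul_le_mul_of_nonneg_left _ hX0.le
        have : X ≤ X ^ 2 := by nlinarith
        linarith
      calc _ ≤ X * (3 + k) := h5
        _ ≤ X * X ^ 2 := h6
        _ = X ^ 3 := by ring
    have ha0 : 0 ≤ 1 + Real.log (n * Real.exp X) + N * k := by
      have h7 : 0 ≤ Real.log (n * Real.exp X) := by
        apply Real.log_nonneg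
        nlinarith [Real.one_le_exp hX0.le]
      have : 0 ≤ (N : ℝ) * k := by positivity
      linarith
    calc (n : ℝ) * (1 + Real.log (n * Real.exp X) + N * k) ≤ X * X ^ 3 :=
          mul_le_mul hnX ha ha0 hX0.le
      _ = X ^ 4 := by ring
  have hVV : V / X ^ 3 ≤ V / (4 * n ^ 2) := by
    apply div_le_div_of_nonneg_left hVpos.le (by positivity)
    have h8 : (n : ℝ) ^ 2 ≤ X ^ 2 := pow_le_pow_left₀ (by linarith) hnX 2
    have h9 : 4 * X ^ 2 ≤ X * X ^ 2 := mul_le_mul_of_nonneg_right (by linarith) (by positivity)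
    have h10 : X * X ^ 2 = X ^ 3 := by ring
    linarith
  exact ⟨E, iF, iN, x, S, d, h1.trans htt, fun i => (h2 i).trans htt, h3, hVV.trans h4⟩

end AO
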