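import Pool.Agent.H32.AO.A1
import Pool.Agent.H32.AO.A4

/-!
# MP_ede373, orbits of algebraic points, row A5: adding several numbers

Induction on `r`. `r = 0`: `Fin.append P y` is `P` up to `Fin.cast` (use `ApprC.reindex` with the identification
`Fin (k + 0) → Fin k`, or `ApprC.reindex` after `funext`), `X ^ 0 = 1`. Step: `y : Fin (r+1) → ℂ`,
`P' = Fin.append P (fun j : Fin r ↦ y j.castSucc) : Fin (k + r) → ℂ`. By induction (with
`X ^ (7 r) t ≤ X ^ (7 (r+1)) t ≤ V`) `ApprC P' (X^(4r) t) (V / X^(3r)) L0`. `rel_lift`: `Rel X L0 P (y (last r))` gives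
`Rel X L0 P' (y (last r))` (rename the `G j` by `Fin.castAdd r`: `MvPolynomial.aeval_rename`, `totalDegree_rename_le`,
`nrm (rename f G) ≤ nrm G` as in `Pool/Agent/H32/T3/Ht.lean`, `nrm_rename_le` or similar, otherwise prove it:
`nrm` is the sum of the absolute values of the coefficients and `Fin.castAdd` is injective). Apply `ext_one (k + r) B`:
`X ^ 4 (X^(4r) t) ≤ V / X^(3r)` follows from `X^(7r + 4) t ≤ X^(7 (r+1)) t ≤ V`. The result is about
`Fin.snoc P' (y (last r)) : Fin (k + r + 1) → ℂ`, which is `Fin.append P y` (`k + r + 1 = k + (r + 1)` is `rfl`;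
funext, `Fin.lastCases` / `Fin.addCases`). `X0` = maximum of the constants for `k + j`, `j ≤ r` (in the induction:
`max` of the induction constant and the one of `ext_one (k + r) B`).
-/

set_option autoImplicit false

namespace AO

open CZ
open H32.T3 (nrm)

private theorem A5_nrm_rename {k l : ℕ} (f : Fin k → Fin l) (hf : Function.Injective f)
    (G : MvPolynomial (Fin k) ℤ) : nrm (MvPolynomial.rename f G) = nrm G := by
  classical
  unfold nrm
  rw [MvPolynomial.support_rename_of_injective hf, Finset.sum_image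
    (fun a _ b _ hab ↦ Finsupp.mapDomain_injective hf hab)]
  refine Finset.sum_congr rfl fun m _ ↦ ?_
  rw [MvPolynomial.coeff_rename_mapDomain f hf]

private theorem A5_rel_lift {k r : ℕ} {X L0 : ℝ} {P : Fin k → ℂ} {y : ℂ} (u : Fin r → ℂ)
    (h : Rel X L0 P y) : Rel X L0 (Fin.append P u : Fin (k + r) → ℂ) y := by
  obtain ⟨n, G, h1, h2, h3, h4, h5, h6⟩ := h
  have hcomp : (Fin.append P u : Fin (k + r) → ℂ) ∘ Fin.castAdd r = P := by
    funext i
    exact Fin.append_left P u i
  have hae : ∀ p : MvPolynomial (Fin k) ℤ,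
      MvPolynomial.aeval (Fin.append P u : Fin (k + r) → ℂ) (MvPolynomial.rename (Fin.castAdd r) p) =
        MvPolynomial.aeval P p := by
    intro p
    rw [MvPolynomial.aeval_rename, hcomp]
  refine ⟨n, fun j ↦ MvPolynomial.rename (Fin.castAdd r) (G j), h1, h2, fun j hj ↦ ?_, fun j hj ↦ ?_, ?_, ?_⟩
  · exact le_trans (by exact_mod_cast MvPolynomial.totalDegree_rename_le (Fin.castAdd r) (G j)) (h3 j hj)
  · rw [A5_nrm_rename _ (Fin.castAdd_injective k r)]
    exact h4 j hj
  · rw [hae]; exact h5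
  · simp only [hae]
    exact h6

private theorem A5_append {k r : ℕ} (P : Fin k → ℂ) (y : Fin (r + 1) → ℂ) :
    (Fin.append P y : Fin (k + (r + 1)) → ℂ) =
      (Fin.snoc (Fin.append P (fun j : Fin r ↦ y j.castSucc)) (y (Fin.last r)) : Fin (k + r + 1) → ℂ) := by
  have key : ∀ i : Fin (k + r + 1), (Fin.append P y : Fin (k + (r + 1)) → ℂ) i =
      (Fin.snoc (Fin.append P (fun j : Fin r ↦ y j.castSucc)) (y (Fin.last r)) : Fin (k + r + 1) → ℂ) i := by
    intro i
    induction i using Fin.lastCases with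
    | last =>
      have e : (Fin.last (k + r) : Fin (k + r + 1)) = (Fin.natAdd k (Fin.last r) : Fin (k + (r + 1))) := by
        ext; simp
      rw [Fin.snoc_last]
      exact (congrArg (Fin.append P y) e).trans (Fin.append_right P y (Fin.last r))
    | cast j =>
      rw [Fin.snoc_castSucc]
      induction j using Fin.addCases with
      | left a =>
        have e : ((Fin.castAdd r a).castSucc : Fin (k + r + 1)) = (Fin.castAdd (r + 1) a : Fin (k + (r + 1))) := by
          ext; simp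
        rw [Fin.append_left]
        exact (congrArg (Fin.append P y) e).trans (Fin.append_left P y a)
      | right b =>
        have e : ((Fin.natAdd k b).castSucc : Fin (k + r + 1)) = (Fin.natAdd k b.castSucc : Fin (k + (r + 1))) := by
          ext; simp
        rw [Fin.append_right]
        exact (congrArg (Fin.append P y) e).trans (Fin.append_right P y b.castSucc)
  funext i
  exact key i

theorem ext_many (k r : ℕ) (B : ℝ) : ∃ X0 : ℝ, 1 ≤ X0 ∧ ∀ X : ℝ, X0 ≤ X →
    ∀ (P : Fin k → ℂ) (y : Fin r → ℂ) (L0 t V : ℝ), (∀ i, ‖P i‖ + 1 ≤ B) →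
      (∀ j, ‖y j‖ + 1 ≤ B) → (∀ j, Rel X L0 P (y j)) → 1 ≤ t → X ^ (7 * r) * t ≤ V →
      ApprC P t V L0 →
      ApprC (Fin.append P y : Fin (k + r) → ℂ) (X ^ (4 * r) * t) (V / X ^ (3 * r)) L0 := by
  induction r with
  | zero =>
    refine ⟨1, le_refl _, fun X _ P y L0 t V _ _ _ _ _ h ↦ ?_⟩
    have e : (Fin.append P y : Fin (k + 0) → ℂ) = fun i : Fin (k + 0) ↦ P (Fin.cast (Nat.add_zero k) i) := by
      rw [Fin.append_right_nil P y rfl]
      rfl
    rw [e]
    simp only [Nat.mul_zero, pow_zero, one_mul, div_one]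
    exact h.reindex (Fin.cast (Nat.add_zero k))
  | succ r ih =>
    obtain ⟨X0, hX0, ih⟩ := ih
    obtain ⟨X1, hX1, h1⟩ := ext_one (k + r) B
    refine ⟨max X0 X1, le_max_of_le_left hX0, fun X hX P y L0 t V hP hy hrel ht hV happ ↦ ?_⟩
    have hX0' : X0 ≤ X := (le_max_left _ _).trans hX
    have hX1' : X1 ≤ X := (le_max_right _ _).trans hX
    have hXone : 1 ≤ X := hX0.trans hX0'
    have hXpos : 0 < X := lt_of_lt_of_le one_pos hXone
    have hpw : ∀ {a b : ℕ}, a ≤ b → X ^ a ≤ X ^ b := fun hab ↦ pow_le_pow_right₀ hXone hab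
    have ht0 : 0 ≤ t := zero_le_one.trans ht
    have hV1 : X ^ (7 * r) * t ≤ V :=
      (mul_le_mul_of_nonneg_right (hpw (by omega)) ht0).trans hV
    have hA := ih X hX0' P (fun j : Fin r ↦ y j.castSucc) L0 t V hP (fun j ↦ hy _) (fun j ↦ hrel _) ht hV1 happ
    have hP' : ∀ i : Fin (k + r), ‖(Fin.append P (fun j : Fin r ↦ y j.castSucc) : Fin (k + r) → ℂ) i‖ + 1 ≤ B := by
      intro i
      refine Fin.addCases (fun a ↦ ?_) (fun b ↦ ?_) i
      · rw [Fin.append_left]; exact hP a
      · rw [Fin.append_right]; exact hy _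
    have hyl : ‖y (Fin.last r)‖ ≤ B := by linarith [hy (Fin.last r)]
    have ht1 : 1 ≤ X ^ (4 * r) * t := one_le_mul_of_one_le_of_one_le (one_le_pow₀ hXone) ht
    have hV2 : X ^ 4 * (X ^ (4 * r) * t) ≤ V / X ^ (3 * r) := by
      rw [le_div_iff₀ (pow_pos hXpos _)]
      calc X ^ 4 * (X ^ (4 * r) * t) * X ^ (3 * r) = X ^ (7 * r + 4) * t := by
            rw [show 7 * r + 4 = 4 + 4 * r + 3 * r by ring, pow_add, pow_add]; ring
        _ ≤ X ^ (7 * (r + 1)) * t := mul_le_mul_of_nonneg_right (hpw (by omega)) ht0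
        _ ≤ V := hV
    have hfin := h1 X hX1' _ (y (Fin.last r)) L0 (X ^ (4 * r) * t) (V / X ^ (3 * r)) hP' hyl
      (A5_rel_lift _ (hrel (Fin.last r))) ht1 hV2 hA
    rw [A5_append]
    have e1 : X ^ (4 * (r + 1)) * t = X ^ 4 * (X ^ (4 * r) * t) := by
      rw [show 4 * (r + 1) = 4 + 4 * r by ring, pow_add]; ring
    have e2 : V / X ^ (3 * (r + 1)) = V / X ^ (3 * r) / X ^ 3 := by
      rw [show 3 * (r + 1) = 3 * r + 3 by ring, pow_add, div_div]
    rw [e1, e2]
    exact hfin

end AO
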