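import Pool.Agent.H32.AO.D0

/-!
# MP_ede373, orbits of algebraic points, row A8: approximations of one number at every scale

The proof of `AZ.line` (file `Pool/Agent/H32/AZ/L.lean`) shows, for `T ≥ T0` (`AZ.line_poly`, `good_factor`,
`AZ.line_local`): there are `s, W` with `1 ≤ s ≤ 4 T`, `T s ≤ 12 W`, `ApprAt ![θ] s W` (first prove this as a lemma:
copy the first part of that proof). Given `c`: `κ' = max κ 1 < 2`, choose `D : ℕ` with `D (2 - κ') ≥ c (κ' + 1) + 1`,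
`D ≥ 1`, `T = N ^ D`, `B = D + 1`. For `N ≥ N0 = max (T0, 48)`: `T ≥ N ≥ T0`, `s ≤ 4 N^D ≤ N^(D+1)`,
`(N^c s)^κ N^c ≤ (N^c s)^κ' N^c ≤ N^(c κ' + c) s (4 T)^(κ' - 1)` and
`12 N^(c κ' + c) (4 T)^(κ' - 1) ≤ 48 N^(c (κ' + 1)) T^(κ' - 1) ≤ T` since `48 N^(c (κ' + 1)) ≤ N^(1 + c (κ' + 1)) ≤ N^(D (2 - κ'))`
(real powers of `N`). So `(N^c s)^κ N^c ≤ s T / 12 ≤ W`.
-/

set_option autoImplicit false

namespace AO

open CZ Polynomial
open H32.T3 (nrm)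

private theorem A8_base (θ : ℂ) (hθ : Transcendental ℚ θ) : ∃ T0 : ℕ, ∀ T : ℕ, T0 ≤ T → 1 ≤ T →
    ∃ s W : ℝ, 1 ≤ s ∧ s ≤ 4 * T ∧ T * s ≤ 12 * W ∧ ApprAt ![θ] s W := by
  have hae : ∀ f : ℤ[X], f ≠ 0 → aeval θ f ≠ 0 := by
    intro f hf h
    exact hθ ((IsFractionRing.isAlgebraic_iff ℤ ℚ ℂ).1 ⟨f, hf, h⟩)
  obtain ⟨T0, hT0⟩ := AZ.line_poly θ
  refine ⟨T0, fun T hTT0 hT1 => ?_⟩
  have hT1r : (1 : ℝ) ≤ T := by exact_mod_cast hT1
  have hT0r : (0 : ℝ) < T := by linarith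
  obtain ⟨f, hf0, hfs, hfv⟩ := hT0 T hTT0
  obtain ⟨r, hr, hn, -, hsz, hV⟩ := good_factor f hf0 θ ((T : ℝ) ^ 2 / 3) (by positivity) (hae f hf0) hfv
  obtain ⟨W, hA, hW⟩ := AZ.line_local θ hθ r hr hn
  obtain ⟨s, hs⟩ : ∃ s : ℝ, s = r.natDegree + Real.log (mah r) := ⟨_, rfl⟩
  rw [← hs] at hA hsz hV
  have hmah : 1 ≤ mah r := one_le_mah hr.ne_zero
  have hlog0 : 0 ≤ Real.log (mah r) := Real.log_nonneg hmah
  have hn1 : (1 : ℝ) ≤ r.natDegree := by exact_mod_cast hn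
  have hs1 : 1 ≤ s := by linarith
  have hs4 : s ≤ 4 * T := hsz.trans hfs
  have hW0 : T * s ≤ 12 * W := by
    have h0 : 0 < (T : ℝ) ^ 2 / 3 * s := by positivity
    have h2 : 0 < -Real.log ‖aeval θ r‖ := by
      by_contra hcon
      have h3 : -Real.log ‖aeval θ r‖ ≤ 0 := not_lt.1 hcon
      have h4 : 0 ≤ (f.natDegree : ℝ) + Real.log (mah f) := by linarith
      have h5 := mul_nonpos_of_nonneg_of_nonpos h4 h3
      linarith
    have h3 : (T : ℝ) ^ 2 / 3 * s ≤ 4 * T * (-Real.log ‖aeval θ r‖) :=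
      hV.trans (mul_le_mul_of_nonneg_right hfs h2.le)
    have h4 : (T : ℝ) ^ 2 / 3 * s ≤ 4 * T * W :=
      h3.trans (mul_le_mul_of_nonneg_left hW (by positivity))
    have h5 : (T : ℝ) * (T * s) ≤ T * (12 * W) := by nlinarith
    exact le_of_mul_le_mul_left h5 hT0r
  exact ⟨s, W, hs1, hs4, hW0, hA⟩

private theorem A8_num (κ' y s W : ℝ) (c D : ℕ) (h1κ : 1 ≤ κ') (hκ2 : κ' < 2)
    (hD : c * (κ' + 1) + 1 ≤ D * (2 - κ')) (hy : 48 ≤ y) (hs1 : 1 ≤ s) (hs4 : s ≤ 4 * y ^ D)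
    (hW : y ^ D * s ≤ 12 * W) : (y ^ c * s) ^ κ' * y ^ c ≤ W := by
  have hy0 : 0 < y := by linarith
  have hy1 : 1 ≤ y := by linarith
  have hs0 : 0 < s := by linarith
  have e1 : (y ^ c * s) ^ κ' = y ^ (c * κ') * (s * s ^ (κ' - 1)) := by
    rw [Real.mul_rpow (by positivity) hs0.le, ← Real.rpow_natCast y c, ← Real.rpow_mul hy0.le]
    congr 1
    rw [← Real.rpow_one_add' hs0.le (by linarith)]
    congr 1
    ring
  have e2 : s ^ (κ' - 1) ≤ 4 * y ^ (D * (κ' - 1)) := by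
    have h1 : s ^ (κ' - 1) ≤ (4 * y ^ D) ^ (κ' - 1) :=
      Real.rpow_le_rpow hs0.le hs4 (by linarith)
    have h2 : (4 * y ^ D) ^ (κ' - 1) = (4 : ℝ) ^ (κ' - 1) * y ^ (D * (κ' - 1)) := by
      rw [Real.mul_rpow (by norm_num) (by positivity), ← Real.rpow_natCast y D,
        ← Real.rpow_mul hy0.le]
    have h3 : (4 : ℝ) ^ (κ' - 1) ≤ 4 := by
      have := Real.rpow_le_rpow_of_exponent_le (show (1 : ℝ) ≤ 4 by norm_num)
        (show κ' - 1 ≤ 1 by linarith)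
      rwa [Real.rpow_one] at this
    rw [h2] at h1
    exact h1.trans (mul_le_mul_of_nonneg_right h3 (Real.rpow_nonneg hy0.le _))
  have e3 : 48 * (y ^ (c * κ') * y ^ (D * (κ' - 1)) * y ^ c) ≤ y ^ D := by
    have h1 : y ^ (c * κ') * y ^ (D * (κ' - 1)) * y ^ c =
        y ^ (c * κ' + D * (κ' - 1) + c) := by
      rw [← Real.rpow_natCast y c, ← Real.rpow_add hy0, ← Real.rpow_add hy0]
    have h2 : 48 * y ^ (c * κ' + D * (κ' - 1) + c) ≤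
        y * y ^ (c * κ' + D * (κ' - 1) + c) :=
      mul_le_mul_of_nonneg_right hy (Real.rpow_nonneg hy0.le _)
    have h3 : y * y ^ (c * κ' + D * (κ' - 1) + c) =
        y ^ (1 + (c * κ' + D * (κ' - 1) + c)) := by
      rw [Real.rpow_add hy0 1, Real.rpow_one]
    rw [h1]
    refine h2.trans ?_
    rw [h3, ← Real.rpow_natCast y D]
    refine Real.rpow_le_rpow_of_exponent_le hy1 ?_
    linarith
  have hp1 : 0 ≤ y ^ (c * κ') := Real.rpow_nonneg hy0.le _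
  have hp2 : 0 ≤ y ^ c := by positivity
  have h4 : y ^ (c * κ') * (s * s ^ (κ' - 1)) * y ^ c ≤
      y ^ (c * κ') * (s * (4 * y ^ (D * (κ' - 1)))) * y ^ c := by
    gcongr
  have h5 : 12 * (y ^ (c * κ') * (s * (4 * y ^ (D * (κ' - 1)))) * y ^ c) =
      s * (48 * (y ^ (c * κ') * y ^ (D * (κ' - 1)) * y ^ c)) := by
    ring
  have h6 : s * (48 * (y ^ (c * κ') * y ^ (D * (κ' - 1)) * y ^ c)) ≤ s * y ^ D :=
    mul_le_mul_of_nonneg_left e3 hs0.le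
  rw [e1]
  have h7 : s * y ^ D = y ^ D * s := mul_comm _ _
  linarith

theorem line_sc (θ : ℂ) (hθ : Transcendental ℚ θ) (κ : ℝ) (hκ : κ < 2) : ScAppr ![θ] κ := by
  obtain ⟨T0, hT0⟩ := A8_base θ hθ
  obtain ⟨κ', hκ'⟩ : ∃ κ' : ℝ, κ' = max κ 1 := ⟨_, rfl⟩
  have hκκ : κ ≤ κ' := by rw [hκ']; exact le_max_left _ _
  have h1κ : 1 ≤ κ' := by rw [hκ']; exact le_max_right _ _
  have hκ2 : κ' < 2 := by rw [hκ']; exact max_lt hκ (by norm_num)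
  intro c
  obtain ⟨D, hD⟩ : ∃ D : ℕ, c * (κ' + 1) + 1 ≤ D * (2 - κ') := by
    refine ⟨⌈(c * (κ' + 1) + 1) / (2 - κ')⌉₊, ?_⟩
    have h1 := Nat.le_ceil ((c * (κ' + 1) + 1) / (2 - κ'))
    rwa [div_le_iff₀ (by linarith)] at h1
  have hD1 : D ≠ 0 := by
    rintro rfl
    rw [Nat.cast_zero, zero_mul] at hD
    have : 0 ≤ (c : ℝ) * (κ' + 1) := by positivity
    linarith
  refine ⟨D + 1, max T0 48, fun N hN => ?_⟩
  have hNT : T0 ≤ N := (le_max_left _ _).trans hN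
  have hN48 : 48 ≤ N := (le_max_right _ _).trans hN
  have hND : N ≤ N ^ D := Nat.le_self_pow hD1 N
  obtain ⟨s, W, hs1, hs4, hW, hA⟩ := hT0 (N ^ D) (hNT.trans hND) (by omega)
  rw [Nat.cast_pow] at hs4 hW
  have hy : (48 : ℝ) ≤ N := by exact_mod_cast hN48
  refine ⟨s, W, hs1, ?_, ?_, hA⟩
  · rw [pow_succ]
    have h0 : (0 : ℝ) ≤ (N : ℝ) ^ D := by positivity
    nlinarith
  · have h2 : (1 : ℝ) ≤ (N : ℝ) ^ c * s := by
      have h3 : (1 : ℝ) ≤ (N : ℝ) ^ c := one_le_pow₀ (by linarith)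
      nlinarith
    have h4 : ((N : ℝ) ^ c * s) ^ κ ≤ ((N : ℝ) ^ c * s) ^ κ' :=
      Real.rpow_le_rpow_of_exponent_le h2 hκκ
    refine (mul_le_mul_of_nonneg_right h4 (by positivity)).trans ?_
    exact A8_num κ' N s W c D h1κ hκ2 hD hy hs1 hs4 hW

end AO
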