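import Pool.Agent.H32.AO.F1

/-!
# MP_ede373, orbits of algebraic points, row F2: the final count

Adapt the proof of `H32.T5.Orb.final_Y` (file `Pool/Agent/H32/T5/Y7.lean`). `J(y) = jf y` (`J_values`, `jc_coe`).
From `hind`: `RW S S.x (i, 0)`, `RW S S.x (i, 1)` are nonzero (members of an independent family:
`AlgebraicIndependent.ne_zero`), so `e4 (φ_i x) ≠ 0`, `e6 (φ_i x) ≠ 0` (unfold `RW`).
`M` = matroid of algebraic independence over `ℚ`. `S4 u = ![pt, J pt, J' pt, J'' pt]` for `u : (Fin n ⊕ B) × Fin 4`.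
`T = range S.x ∪ W3`, `W3 = {J y, J' y, J'' y}` if `B` is empty, `∅` otherwise. `D = Algebra.adjoin ℚ (range S4 ∪ T)`. The
numbers `J y, J' y, J'' y` are algebraic over `D` (generators: in `W3` if `B` is empty; `S4 (inr 0, 1..3)` otherwise);
`y` is algebraic over `ℚ`. So the whole family `F = Sum.elim θ (Sum.elim (WF x) (jf y))` (size `3 n + m + 2`) is
algebraic over `D` (`alg_WF`; `inr s`: `S.x s`), hence `M.eRk (range S4 ∪ T) ≥ 3 n + m + 2`.
`Z` = the points: `Z ⊆ M.closure T` (`z_i` is a quotient of polynomials in `x, y`, `y` algebraic over `ℚ`).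
`M.eRk T ≤ m + 3 (1 - B.card)` (`M.eRk_union_le_eRk_add_eRk`, `M.eRk_le_encard`, `Set.encard_insert_le`).
Submodularity as there: `ρ + (3 n + m + 2) ≤ M.eRk (range S4) + m + 3 (1 - B.card)`, so
`3 n + 3 B.card + ρ - 1 ≤ M.eRk (range S4)` and `extract_indep'`.
-/

set_option autoImplicit false
set_option linter.unusedSimpArgs false

open UpperHalfPlane hiding I
open Complex EisensteinSeries ModularForm MatrixGroups Manifold
open scoped Real Topology
open MvPolynomial Filter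

namespace AO

open H32 H32.T3 H32.T4

/-- The points. -/
noncomputable def pts {m n : ℕ} (S : Orb m n 1) (B : Finset (Fin 1)) : Fin n ⊕ B → ℂ :=
  Sum.elim (fun i ↦ S.φ i S.x) (fun _ ↦ (S.y 0 : ℂ))

theorem final_count {E4 E6 J : ℂ → ℂ}
    (h4 : ∀ τ : ℂ, E4 τ = 1 + 240 * ∑' m : ℕ, ((ArithmeticFunction.sigma 3 (m + 1) : ℕ) : ℂ) *
      Complex.exp (2 * (Real.pi : ℂ) * Complex.I * ((m : ℂ) + 1) * τ))
    (h6 : ∀ τ : ℂ, E6 τ = 1 - 504 * ∑' m : ℕ, ((ArithmeticFunction.sigma 5 (m + 1) : ℕ) : ℂ) *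
      Complex.exp (2 * (Real.pi : ℂ) * Complex.I * ((m : ℂ) + 1) * τ))
    (hJ : ∀ τ : ℂ, J τ = 1728 * E4 τ ^ 3 / (E4 τ ^ 3 - E6 τ ^ 2))
    {m n : ℕ} (S : Orb m n 1) (y4 : E₄ (S.y 0) ≠ 0) (y6 : E₆ (S.y 0) ≠ 0)
    (hya : IsAlgebraic ℚ (S.y 0 : ℂ)) (θ : ℂ)
    (hθ : θ = deriv J (S.y 0) ∨ θ = deriv (deriv J) (S.y 0))
    (hind : AlgebraicIndependent ℚ
      (Sum.elim (fun _ : Unit ↦ θ) (Sum.elim (WF S S.x) (fun _ : Unit ↦ jf (S.y 0)))))
    (B : Finset (Fin 1)) {ρ : ℕ} (g : Fin ρ → Fin n ⊕ B)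
    (hg : AlgebraicIndependent ℚ (fun k ↦ pts S B (g k))) :
    ∃ f : Fin (3 * n + 3 * B.card + ρ - 1) → (Fin n ⊕ B) × Fin 4, AlgebraicIndependent ℚ (fun k ↦
      (![pts S B (f k).1, J (pts S B (f k).1), deriv J (pts S B (f k).1),
        deriv (deriv J) (pts S B (f k).1)] : Fin 4 → ℂ) (f k).2) := by
  classical
  set M := AlgebraicIndependent.matroid ℚ ℂ with hM
  set S4 : (Fin n ⊕ B) × Fin 4 → ℂ := fun u ↦
    (![pts S B u.1, J (pts S B u.1), deriv J (pts S B u.1), deriv (deriv J) (pts S B u.1)] :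
      Fin 4 → ℂ) u.2 with hS4
  set W3 : Set ℂ := if B = ∅ then
    ({J (S.y 0), deriv J (S.y 0), deriv (deriv J) (S.y 0)} : Set ℂ) else ∅ with hW3
  set T : Set ℂ := Set.range S.x ∪ W3 with hT
  set D : Subalgebra ℚ ℂ := Algebra.adjoin ℚ (Set.range S4 ∪ T) with hD
  have hgen : ∀ v ∈ Set.range S4 ∪ T, IsAlgebraic D v := by
    intro v hv
    exact isAlgebraic_algebraMap (⟨v, Algebra.subset_adjoin hv⟩ : D)
  have aalg : ∀ v : ℂ, IsAlgebraic ℚ v → IsAlgebraic D v := fun v hv ↦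
    hv.extendScalars (algebraMap ℚ D).injective
  have ay : IsAlgebraic D (S.y 0 : ℂ) := aalg _ hya
  have hBc : B = ∅ ∨ (0 : Fin 1) ∈ B := by
    rcases B.eq_empty_or_nonempty with h | ⟨c, hc⟩
    · exact Or.inl h
    · right
      rwa [Subsingleton.elim c 0] at hc
  have hW3e : B = ∅ → W3 = {J (S.y 0), deriv J (S.y 0), deriv (deriv J) (S.y 0)} := by
    intro h
    rw [hW3, if_pos h]
  have ayJ : IsAlgebraic D (J (S.y 0)) ∧ IsAlgebraic D (deriv J (S.y 0)) ∧
      IsAlgebraic D (deriv (deriv J) (S.y 0)) := by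
    rcases hBc with h | h
    · have hsub : W3 ⊆ Set.range S4 ∪ T := fun v hv ↦ Or.inr (Or.inr hv)
      refine ⟨hgen _ (hsub ?_), hgen _ (hsub ?_), hgen _ (hsub ?_)⟩
      · rw [hW3e h]
        simp
      · rw [hW3e h]
        simp
      · rw [hW3e h]
        simp
    · exact ⟨hgen _ (Or.inl ⟨(Sum.inr ⟨0, h⟩, 1), rfl⟩), hgen _ (Or.inl ⟨(Sum.inr ⟨0, h⟩, 2), rfl⟩),
        hgen _ (Or.inl ⟨(Sum.inr ⟨0, h⟩, 3), rfl⟩)⟩
  have hφ : ∀ i, e4 (S.φ i S.x) ≠ 0 ∧ e6 (S.φ i S.x) ≠ 0 := by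
    intro i
    constructor
    · intro h0
      have h1 : RW S S.x (i, 0) ≠ 0 := hind.ne_zero (Sum.inr (Sum.inl (Sum.inl (i, 0))))
      apply h1
      simp [RW, h0]
    · intro h0
      have h1 : RW S S.x (i, 1) ≠ 0 := hind.ne_zero (Sum.inr (Sum.inl (Sum.inl (i, 1))))
      apply h1
      simp [RW, h0]
  have ax : ∀ s, IsAlgebraic D (S.x s) := fun s ↦ hgen _ (Or.inr (Or.inl ⟨s, rfl⟩))
  have aRW : ∀ p, IsAlgebraic D (RW S S.x p) := by
    rintro ⟨i, l⟩
    exact alg_WF h4 h6 hJ S y4 y6 i (hφ i).1 (hφ i).2 D ax ay ayJ.1 ayJ.2.1 ayJ.2.2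
      (hgen _ (Or.inl ⟨(Sum.inl i, 1), rfl⟩)) (hgen _ (Or.inl ⟨(Sum.inl i, 2), rfl⟩))
      (hgen _ (Or.inl ⟨(Sum.inl i, 3), rfl⟩)) l
  -- the rank of the numbers
  set F : Unit ⊕ (((Fin n × Fin 3) ⊕ Fin m) ⊕ Unit) → ℂ :=
    Sum.elim (fun _ : Unit ↦ θ) (Sum.elim (WF S S.x) (fun _ : Unit ↦ jf (S.y 0))) with hF
  have hindM : M.Indep (Set.range F) := by
    rw [hM, AlgebraicIndependent.matroid_indep_iff]
    exact hind.to_subtype_range
  have hcardI : Fintype.card (Unit ⊕ (((Fin n × Fin 3) ⊕ Fin m) ⊕ Unit)) = 3 * n + m + 2 := by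
    simp only [Fintype.card_sum, Fintype.card_prod, Fintype.card_fin, Fintype.card_unit]
    ring
  have hcard : (Set.range F).encard = ((3 * n + m + 2 : ℕ) : ℕ∞) := by
    rw [← Set.image_univ, hind.injective.encard_image, Set.encard_univ,
      ENat.card_eq_coe_fintype_card, hcardI]
  have hsub : Set.range F ⊆ M.closure (Set.range S4 ∪ T) := by
    rw [hM, AlgebraicIndependent.matroid_closure_eq]
    rintro _ ⟨u, rfl⟩
    change IsAlgebraic D (F u)
    rcases u with u | (u | s) | u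
    · change IsAlgebraic D θ
      rcases hθ with h | h
      · rw [h]
        exact ayJ.2.1
      · rw [h]
        exact ayJ.2.2
    · exact aRW u
    · exact ax s
    · change IsAlgebraic D (jf (S.y 0))
      have h1 : jf (S.y 0) = J (S.y 0) := by
        rw [← jc_coe]
        exact (J_values h4 h6 hJ (S.y 0).im_pos).1.symm
      rw [h1]
      exact ayJ.1
  have h1 : ((3 * n + m + 2 : ℕ) : ℕ∞) ≤ M.eRk (Set.range S4 ∪ T) := by
    rw [← M.eRk_closure_eq, ← hcard]
    exact hindM.encard_le_eRk_of_subset hsub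
  -- the rank of the points
  set Z : Set ℂ := Set.range (fun u : Fin n ⊕ B ↦ S4 (u, 0)) with hZ
  have hY : M.Indep (Set.range (fun k ↦ S4 (g k, 0))) := by
    rw [hM, AlgebraicIndependent.matroid_indep_iff]
    exact (show AlgebraicIndependent ℚ (fun k ↦ S4 (g k, 0)) from hg).to_subtype_range
  have hYcard : (Set.range (fun k ↦ S4 (g k, 0))).encard = (ρ : ℕ) := by
    rw [← Set.image_univ, (show AlgebraicIndependent ℚ (fun k ↦ S4 (g k, 0)) from
      hg).injective.encard_image, Set.encard_univ]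
    simp
  have h2 : (ρ : ℕ∞) ≤ M.eRk (Set.range S4 ∩ (Z ∪ T)) := by
    rw [← hYcard]
    refine hY.encard_le_eRk_of_subset ?_
    rintro _ ⟨k, rfl⟩
    exact ⟨⟨(g k, 0), rfl⟩, Or.inl ⟨g k, rfl⟩⟩
  have aP0 : ∀ (D' : Subalgebra ℚ ℂ) (_ : ∀ s, IsAlgebraic D' (S.x s))
      (p : MvPolynomial (Fin m) ℤ), IsAlgebraic D' (MvPolynomial.aeval S.x p) := by
    intro D' hD' p
    induction p using MvPolynomial.induction_on with
    | C c =>
      rw [MvPolynomial.aeval_C]
      have : algebraMap ℤ ℂ c = algebraMap ℚ ℂ (c : ℚ) := by simp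
      rw [this]
      exact (isAlgebraic_algebraMap (R := ℚ) (A := ℂ) _).extendScalars
        (algebraMap ℚ D').injective
    | add p q hp hq =>
      rw [map_add]
      exact hp.add hq
    | mul_X p s hp =>
      rw [map_mul, MvPolynomial.aeval_X]
      exact hp.mul (hD' s)
  have hZT : Z ⊆ M.closure T := by
    rw [hM, AlgebraicIndependent.matroid_closure_eq]
    rintro _ ⟨u, rfl⟩
    set DT : Subalgebra ℚ ℂ := Algebra.adjoin ℚ T with hDT
    have hgT : ∀ v ∈ T, IsAlgebraic DT v := by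
      intro v hv
      exact isAlgebraic_algebraMap (⟨v, Algebra.subset_adjoin hv⟩ : DT)
    have ayT : ∀ c, IsAlgebraic DT (S.y c : ℂ) := by
      intro c
      rw [Subsingleton.elim c 0]
      exact hya.extendScalars (algebraMap ℚ DT).injective
    have aPT := aP0 DT (fun s ↦ hgT _ (Or.inl ⟨s, rfl⟩))
    change IsAlgebraic DT (S4 (u, 0))
    rcases u with i | c
    · change IsAlgebraic DT (S.φ i S.x)
      rw [Orb.φ, mob, div_eq_mul_inv]
      exact (((aPT _).mul (ayT _)).add (aPT _)).mul (((aPT _).mul (ayT _)).add (aPT _)).inv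
    · exact ayT 0
  have hBle : B.card ≤ 1 := by
    have := Finset.card_le_univ B
    simpa using this
  have hW3r : M.eRk W3 ≤ ((3 * (1 - B.card) : ℕ) : ℕ∞) := by
    refine (M.eRk_le_encard _).trans ?_
    rcases hBc with h | h
    · rw [hW3e h, h, Finset.card_empty]
      calc ({J (S.y 0), deriv J (S.y 0), deriv (deriv J) (S.y 0)} : Set ℂ).encard
          ≤ ({deriv J (S.y 0), deriv (deriv J) (S.y 0)} : Set ℂ).encard + 1 :=
            Set.encard_insert_le _ _
        _ ≤ (({deriv (deriv J) (S.y 0)} : Set ℂ).encard + 1) + 1 := by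
            gcongr
            exact Set.encard_insert_le _ _
        _ = _ := by
            rw [Set.encard_singleton]
            norm_num
    · have hne : B ≠ ∅ := Finset.nonempty_iff_ne_empty.1 ⟨0, h⟩
      rw [hW3, if_neg hne, Set.encard_empty]
      exact bot_le
  have hTr : M.eRk T ≤ ((m + 3 * (1 - B.card) : ℕ) : ℕ∞) := by
    calc M.eRk T ≤ M.eRk (Set.range S.x) + M.eRk W3 := M.eRk_union_le_eRk_add_eRk _ _
      _ ≤ (m : ℕ∞) + ((3 * (1 - B.card) : ℕ) : ℕ∞) := by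
        refine add_le_add ?_ hW3r
        calc M.eRk (Set.range S.x) ≤ (Set.range S.x).encard := M.eRk_le_encard _
          _ ≤ (Set.univ : Set (Fin m)).encard := by
            rw [← Set.image_univ]
            exact Set.encard_image_le _ _
          _ = m := by simp
      _ = _ := by push_cast; rfl
  have h3 : M.eRk (Z ∪ T) ≤ ((m + 3 * (1 - B.card) : ℕ) : ℕ∞) := by
    calc M.eRk (Z ∪ T) ≤ M.eRk (M.closure T) := by
          refine M.eRk_mono (Set.union_subset hZT ?_)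
          refine M.subset_closure _ ?_
          rw [hM]
          exact Set.subset_univ _
      _ = M.eRk T := M.eRk_closure_eq _
      _ ≤ _ := hTr
  have h5 := M.eRk_submod (Set.range S4) (Z ∪ T)
  have h7 : M.eRk (Set.range S4 ∪ T) ≤ M.eRk (Set.range S4 ∪ (Z ∪ T)) :=
    M.eRk_mono (Set.union_subset_union_right _ Set.subset_union_right)
  have h8 : (ρ : ℕ∞) + ((3 * n + m + 2 : ℕ) : ℕ∞) ≤
      M.eRk (Set.range S4) + ((m + 3 * (1 - B.card) : ℕ) : ℕ∞) :=
    (add_le_add h2 (h1.trans h7)).trans (h5.trans (add_le_add le_rfl h3))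
  obtain ⟨B', hB'⟩ := M.exists_isBasis (Set.range S4) (by rw [hM]; exact Set.subset_univ _)
  have hBsub : B' ⊆ Set.range S4 := hB'.subset
  have hBfin : B'.Finite := (Set.finite_range S4).subset hBsub
  rw [← hB'.encard_eq_eRk] at h8
  refine extract_indep' S4 (B := B') ?_ hBsub ?_
  · have := hB'.indep
    rw [hM, AlgebraicIndependent.matroid_indep_iff] at this
    exact this
  · rw [hBfin.encard_eq_coe_toFinset_card] at h8 ⊢
    have h9 : ρ + (3 * n + m + 2) ≤ hBfin.toFinset.card + (m + 3 * (1 - B.card)) := by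
      exact_mod_cast h8
    have h10 : 3 * n + 3 * B.card + ρ - 1 ≤ hBfin.toFinset.card := by omega
    exact_mod_cast h10

end AO
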