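import Pool.Agent.H32.AO.C0

/-!
# MP_ede373, orbits of algebraic points, row F5: algebraic translates are rational translates

`hier_poly`: let `P ≠ 0` be an integer polynomial, `SHier t`. Then `aeval t P ≠ 0`. Proof: suppose it is `0`.
`κ = D + 1`, `D = totalDegree P`; `σ` from `hS κ`; for `k : ℕ` take `q k ≥ k + 2` and `p k` (`K = k + 2`), `r k = p k / q k`.
`nonvanish_multi` (file `Pool/Agent/H32/MultiVar.lean`) for the nonzero analytic function `s ↦ aeval (s ∘ σ⁻¹) P` at the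
point `x ∘ σ`, used exactly as in the proof of `ult_ind` in `AO/Ob.lean`, gives `aeval (r k) P ≠ 0` for large `k`. It is a
rational number with denominator `(q k)^D` (`hom_int`), so `|aeval (r k) P| ≥ (q k)^(-D)`. But
`|aeval (r k) P| = |aeval (r k) P - aeval x P| ≤ K |r k - x| ≤ K exp (-(q k)^κ)`: contradiction for large `k`.

`hier_indep`: so `S.x` (complex) is algebraically independent over `ℤ` (`Orb.x_aeval`), hence over `ℚ`, hence over the
algebraic closure `Qb` of `ℚ` in `ℂ` (Mathlib: `AlgebraicIndependent.algebraicClosure` or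
`AlgebraicIndependent.extendScalars` with `Algebra.IsAlgebraic ℚ Qb`).

`equiv_of_alg`: `z = φ_i(x)` algebraic and not rationally equivalent to `y`. Let `S' : Orb m 1 1` be the data with the single
index `i` (`Orb.of S.t (fun _ ↦ S.pA i) .. S.y (fun _ ↦ 0) ..`, note `S.c i = 0`). `S'.pP_ne` gives
`S'.pP 0 ≠ 0`, `S'.eval_pP` gives `eval S.x (S'.pP 0) = den x * φ x - (A y + B) = 0`. The coefficients of `S'.pP 0` lie in `Qb`
(`y, z ∈ Qb`): it is the image of a polynomial over `Qb`, nonzero, vanishing at `S.x`: contradiction with `hier_indep`.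
-/

set_option autoImplicit false
set_option linter.unusedSimpArgs false

open UpperHalfPlane hiding I
open Complex EisensteinSeries ModularForm MatrixGroups Manifold
open scoped Real Topology
open MvPolynomial Filter

namespace AO

open H32 H32.T3 H32.T4

private lemma F5_lip {m : ℕ} (t : Fin m → ℝ) (P : MvPolynomial (Fin m) ℤ) :
    ∃ K : ℝ, ∀ᶠ u in 𝓝 t, |(aeval u P : ℝ) - aeval t P| ≤ K * ‖u - t‖ := by
  have han : AnalyticAt ℝ (fun s : Fin m → ℝ ↦ (aeval s P : ℝ)) t :=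
    AnalyticAt.aeval_mvPolynomial (𝕜 := ℝ) (f := fun s : Fin m → ℝ ↦ s)
      (fun i ↦ (ContinuousLinearMap.proj (R := ℝ) (φ := fun _ : Fin m ↦ ℝ) i).analyticAt t) P
  have h1 := han.differentiableAt.hasFDerivAt.isBigO_sub
  obtain ⟨K, hK⟩ := h1.bound
  refine ⟨K, ?_⟩
  filter_upwards [hK] with u hu
  rw [Real.norm_eq_abs] at hu
  exact hu

private lemma F5_nv {m : ℕ} (x : Fin m → ℂ) {P : MvPolynomial (Fin m) ℤ} (hP : P ≠ 0) :
    ¬ ∀ᶠ s in 𝓝 x, aeval s P = (0 : ℂ) := by
  intro h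
  obtain ⟨ε, hε, hb⟩ := Metric.eventually_nhds_iff_ball.mp h
  have hinf : ∀ i : Fin m, (Metric.ball (x i) ε).Infinite := fun i ↦
    infinite_of_mem_nhds (x i) (Metric.ball_mem_nhds (x i) hε)
  have h0 : MvPolynomial.map (Int.castRingHom ℂ) P = 0 := by
    refine MvPolynomial.funext_set (fun i ↦ Metric.ball (x i) ε) hinf fun y hy ↦ ?_
    have hy1 : y ∈ Metric.ball x ε := by
      rw [Metric.mem_ball, dist_pi_lt_iff hε]
      intro i
      exact Metric.mem_ball.mp (hy i (Set.mem_univ i))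
    have h2 := hb y hy1
    rw [eval_map, map_zero]
    rw [aeval_def] at h2
    exact h2
  exact hP (MvPolynomial.map_injective _ (RingHom.injective_int (Int.castRingHom ℂ))
    (by rw [h0, map_zero]))

theorem hier_poly {m : ℕ} {t : Fin m → ℝ} (hS : SHier t) (P : MvPolynomial (Fin m) ℤ)
    (hP : P ≠ 0) : (aeval t P : ℝ) ≠ 0 := by
  intro h0
  obtain ⟨σ, hσ⟩ := hS (P.totalDegree + 1)
  choose q hq p hp1 hp2 using fun k : ℕ ↦ hσ (k + 2)
  set r : ℕ → Fin m → ℝ := fun k s ↦ (p k s : ℝ) / q k with hr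
  have hq1 : ∀ k, (1 : ℝ) ≤ q k := fun k ↦ by
    have h1 := hq k
    have h2 : 1 ≤ q k := by omega
    exact_mod_cast h2
  have hqk : ∀ k : ℕ, (k : ℝ) ≤ (q k : ℝ) ^ (P.totalDegree + 1) := fun k ↦ by
    have h1 := hq k
    have h2 : (k : ℝ) ≤ q k := by
      have : k ≤ q k := by omega
      exact_mod_cast this
    refine h2.trans ?_
    calc (q k : ℝ) = (q k : ℝ) ^ 1 := (pow_one _).symm
      _ ≤ (q k : ℝ) ^ (P.totalDegree + 1) := pow_le_pow_right₀ (hq1 k) (by omega)
  have hrt : Tendsto r atTop (𝓝 t) := by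
    rw [tendsto_pi_nhds]
    intro s
    rw [tendsto_iff_dist_tendsto_zero]
    refine squeeze_zero (fun _ ↦ dist_nonneg) (g := fun k : ℕ ↦ Real.exp (-(k : ℝ))) (fun k ↦ ?_) ?_
    · rw [dist_comm, Real.dist_eq]
      refine (hp1 k s).2.le.trans (Real.exp_le_exp.mpr ?_)
      have := hqk k
      linarith
    · exact Real.tendsto_exp_neg_atTop_nhds_zero.comp tendsto_natCast_atTop_atTop
  have hle1 : ∀ k s, |t s - p k s / q k| ≤ 1 := fun k s ↦ by
    refine (hp1 k s).2.le.trans (Real.exp_le_one_iff.mpr ?_)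
    have := hqk k
    have h3 : (0 : ℝ) ≤ k := Nat.cast_nonneg k
    linarith
  -- complex side
  set x : Fin m → ℂ := fun s ↦ (t s : ℂ) with hx
  set G : (Fin m → ℂ) → ℂ := fun y ↦ aeval (fun s ↦ y (σ.symm s)) P with hG
  have hGan : AnalyticAt ℂ G (fun s ↦ x (σ s)) := by
    refine AnalyticAt.fun_comp (g := fun s : Fin m → ℂ ↦ aeval s P)
      (f := fun (y : Fin m → ℂ) s ↦ y (σ.symm s)) (an_aeval _ _) ?_
    rw [analyticAt_pi_iff]
    intro s
    exact (ContinuousLinearMap.proj (R := ℂ) (φ := fun _ : Fin m ↦ ℂ) (σ.symm s)).analyticAt _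
  have hnorm : ∀ k s, ‖((r k s : ℝ) : ℂ) - x s‖ = |t s - p k s / q k| := fun k s ↦ by
    rw [hx, hr]
    simp only
    rw [← Complex.ofReal_sub, Complex.norm_real, Real.norm_eq_abs, abs_sub_comm]
  obtain ⟨c, hc, M, hM⟩ := H32.nonvanish_multi (l := atTop) m G (fun s ↦ x (σ s))
    (fun k s ↦ ((r k (σ s) : ℝ) : ℂ)) hGan
    (fun h ↦ F5_nv x hP (by
      have h1 : Tendsto (fun (y : Fin m → ℂ) s ↦ y (σ s)) (𝓝 x) (𝓝 (fun s ↦ x (σ s))) := by
        rw [tendsto_pi_nhds]
        intro s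
        exact (continuous_apply (σ s)).tendsto x
      filter_upwards [h1.eventually h] with y hy
      rw [hG] at hy
      simp only [Equiv.apply_symm_apply] at hy
      exact hy))
    (by
      rw [tendsto_pi_nhds]
      intro s
      exact (Complex.continuous_ofReal.tendsto _).comp ((tendsto_pi_nhds.mp hrt) (σ s)))
    (by
      intro C
      filter_upwards [eventually_ge_atTop C] with k hk a b hab
      rw [hnorm, hnorm]
      refine (hp2 k a b hab).le.trans ?_
      exact pow_le_pow_of_le_one (abs_nonneg _) (hle1 k (σ b)) (by omega))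
  obtain ⟨K, hK⟩ := F5_lip t P
  obtain ⟨k0, hk0⟩ := exists_nat_gt K
  obtain ⟨k, h1, h2, h3⟩ := (hM.and ((hrt.eventually hK).and (eventually_ge_atTop k0))).exists
  -- nonvanishing at the rational point
  have hval : ‖G (fun s ↦ ((r k (σ s) : ℝ) : ℂ))‖ = |(aeval (r k) P : ℝ)| := by
    rw [hG]
    simp only [Equiv.apply_symm_apply]
    rw [aeval_ofReal, Complex.norm_real, Real.norm_eq_abs]
  have hpos : 0 < |(aeval (r k) P : ℝ)| := by
    rw [← hval]
    refine lt_of_lt_of_le ?_ h1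
    refine mul_pos hc (pow_pos (Finset.prod_pos fun s _ ↦ ?_) _)
    rw [hnorm]
    exact (hp1 k (σ s)).1
  obtain ⟨a, ha⟩ := hom_int P le_rfl (q := q k) (by have := hq k; omega) (p k)
  have ha' : (a : ℝ) = (q k : ℝ) ^ P.totalDegree * aeval (r k) P := ha
  have hqD : (0 : ℝ) < (q k : ℝ) ^ P.totalDegree := pow_pos (by linarith [hq1 k]) _
  have ha0 : a ≠ 0 := by
    rintro rfl
    rw [Int.cast_zero] at ha'
    rcases mul_eq_zero.mp ha'.symm with h4 | h4
    · exact hqD.ne' h4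
    · rw [h4, abs_zero] at hpos
      exact lt_irrefl _ hpos
  have ha1 : (1 : ℝ) ≤ |(a : ℝ)| := by
    have := Int.one_le_abs ha0
    exact_mod_cast this
  rw [ha', abs_mul, abs_of_pos hqD] at ha1
  rw [h0, sub_zero] at h2
  have h5 : ‖r k - t‖ ≤ Real.exp (-(q k : ℝ) ^ (P.totalDegree + 1)) := by
    rw [pi_norm_le_iff_of_nonneg (Real.exp_pos _).le]
    intro s
    rw [Pi.sub_apply, Real.norm_eq_abs, abs_sub_comm]
    exact (hp1 k s).2.le
  have hKq : K ≤ q k := by
    have h6 := hq k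
    have h7 : (k0 : ℝ) ≤ q k := by
      have : k0 ≤ q k := by omega
      exact_mod_cast this
    linarith
  have h6 : |(aeval (r k) P : ℝ)| ≤ (q k : ℝ) * Real.exp (-(q k : ℝ) ^ (P.totalDegree + 1)) := by
    refine h2.trans ?_
    refine (mul_le_mul_of_nonneg_right hKq (norm_nonneg _)).trans ?_
    exact mul_le_mul_of_nonneg_left h5 (by linarith [hq1 k])
  have h7 : (q k : ℝ) ^ P.totalDegree * |(aeval (r k) P : ℝ)| ≤
      (q k : ℝ) ^ (P.totalDegree + 1) * Real.exp (-(q k : ℝ) ^ (P.totalDegree + 1)) := by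
    refine (mul_le_mul_of_nonneg_left h6 hqD.le).trans (le_of_eq ?_)
    ring
  have h8 : (q k : ℝ) ^ (P.totalDegree + 1) * Real.exp (-(q k : ℝ) ^ (P.totalDegree + 1)) < 1 := by
    have h9 := Real.add_one_le_exp ((q k : ℝ) ^ (P.totalDegree + 1))
    rw [Real.exp_neg, ← div_eq_mul_inv, div_lt_one (Real.exp_pos _)]
    linarith
  linarith

private lemma F5_indep {m : ℕ} {t : Fin m → ℝ} (hS : SHier t) :
    AlgebraicIndependent (algebraicClosure ℚ ℂ) (fun s : Fin m ↦ (t s : ℂ)) := by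
  have h1 : AlgebraicIndependent ℤ (fun s : Fin m ↦ (t s : ℂ)) := by
    rw [algebraicIndependent_iff]
    intro P hP
    by_contra hne
    rw [aeval_ofReal] at hP
    exact hier_poly hS P hne (by exact_mod_cast hP)
  have h2 : AlgebraicIndependent ℚ (fun s : Fin m ↦ (t s : ℂ)) := by
    have : Algebra.IsAlgebraic ℤ ℚ := IsLocalization.isAlgebraic ℚ (nonZeroDivisors ℤ)
    exact h1.extendScalars ℚ
  exact h2.algebraicClosure

theorem equiv_of_alg {m n : ℕ} (S : Orb m n 1) (hS : SHier S.t)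
    (hya : IsAlgebraic ℚ (S.y 0 : ℂ)) (i : Fin n) (hz : IsAlgebraic ℚ (S.φ i S.x)) :
    ∃ a b c d : ℚ, 0 < a * d - b * c ∧
      S.φ i S.x = ((a : ℂ) * (S.y 0 : ℂ) + b) / ((c : ℂ) * (S.y 0 : ℂ) + d) := by
  by_contra hcon
  have hci : S.c i = 0 := c_eq S i
  set S' : Orb m 1 1 := Orb.of S.t (fun _ ↦ S.pA i) (fun _ ↦ S.pB i) (fun _ ↦ S.pC i)
    (fun _ ↦ S.pD i) S.y (fun _ ↦ 0) (fun _ ↦ S.hdet i) with hS'
  have hx' : S'.x = S.x := rfl
  have hφ : ∀ j, S'.φ j S'.x = S.φ i S.x := by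
    intro j
    show mob (aeval S.x (S.pA i)) (aeval S.x (S.pB i)) (aeval S.x (S.pC i)) (aeval S.x (S.pD i))
      (S.y 0) = mob (aeval S.x (S.pA i)) (aeval S.x (S.pB i)) (aeval S.x (S.pC i))
        (aeval S.x (S.pD i)) (S.y (S.c i))
    rw [hci]
  have hne : S'.pP 0 ≠ 0 := by
    refine S'.pP_ne (fun j ↦ ?_) 0
    rw [hφ j]
    exact hcon
  set K := algebraicClosure ℚ ℂ with hK
  have hyK : (S.y 0 : ℂ) ∈ K := mem_algebraicClosure_iff.mpr hya
  have hzK : S.φ i S.x ∈ K := mem_algebraicClosure_iff.mpr hz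
  set R : MvPolynomial (Fin m) K :=
    (MvPolynomial.map (Int.castRingHom K) (S.pC i) * C ⟨(S.y 0 : ℂ), hyK⟩ +
      MvPolynomial.map (Int.castRingHom K) (S.pD i)) * C ⟨S.φ i S.x, hzK⟩ -
      (MvPolynomial.map (Int.castRingHom K) (S.pA i) * C ⟨(S.y 0 : ℂ), hyK⟩ +
        MvPolynomial.map (Int.castRingHom K) (S.pB i)) with hR
  have hmap : MvPolynomial.map (algebraMap K ℂ) R = S'.pP 0 := by
    have hz' : ∀ p : MvPolynomial (Fin m) ℤ, MvPolynomial.map (algebraMap K ℂ)
        (MvPolynomial.map (Int.castRingHom K) p) = MvPolynomial.map (Int.castRingHom ℂ) p := by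
      intro p
      rw [MvPolynomial.map_map]
      exact congrArg (fun f ↦ MvPolynomial.map f p) (RingHom.ext_int _ _)
    rw [hR, Orb.pP, hφ 0]
    simp only [map_sub, map_add, map_mul, MvPolynomial.map_C, hz']
    rfl
  have hR0 : R ≠ 0 := by
    intro h
    rw [h, map_zero] at hmap
    exact hne hmap.symm
  have hev : aeval S.x R = 0 := by
    have h1 : aeval S.x R = eval S.x (MvPolynomial.map (algebraMap K ℂ) R) := by
      rw [eval_map, aeval_def]
    rw [h1, hmap, ← hx', S'.eval_pP, hφ 0]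
    have h2 := S.den_x i
    have h3 : S'.den 0 S'.x = S.den i S.x := by
      show aeval S.x (S.pC i) * (S.y 0 : ℂ) + aeval S.x (S.pD i) =
        aeval S.x (S.pC i) * (S.y (S.c i) : ℂ) + aeval S.x (S.pD i)
      rw [hci]
    rw [h3]
    have h4 : S.den i S.x * S.φ i S.x =
        aeval S.x (S.pA i) * (S.y (S.c i) : ℂ) + aeval S.x (S.pB i) :=
      mul_div_cancel₀ _ h2
    rw [h4, hci]
    exact sub_self _
  exact hR0 ((algebraicIndependent_iff.mp (F5_indep hS)) R hev)

end AO
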