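import Pool.Agent.H32.AO.C6
import Pool.Agent.H32.AO.F2
import Pool.Agent.H32.AO.F5

/-!
# MP_ede373, orbits of algebraic points, row F3: assembly, tuples without a point equivalent to the base point

`yH : Fin 1 → ℍ := fun _ ↦ ⟨y, hy⟩`, `exists_orb yH (fun _ ↦ 0) z hz` gives `S : Orb m n 1` with `S.t = t`, `S.y = yH`,
`S.φ i S.x = z i`. `shier_of ht : SHier t`. `NE0 S`, `NE1 S` are `hne`, `hrel`. `hG ⟨y, hy⟩ hya hcm` gives `Meas (jf y)`,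
`E₄ y, E₆ y ≠ 0` and `P, κ0`; `jf (S.y 0) = J y` (`J_values` in `Pool/Agent/H32/JDeriv.lean`: `J τ = jc τ`, and `jc_coe`), so
the `P i` are algebraic over `ℚ(jf y, J' y, J'' y)`. `indep2` with `θ1 = deriv J y`, `θ2 = deriv (deriv J) y`, then
`final_count`; `pts S B = Sum.elim z (fun _ ↦ y)` (`funext`, cases).
-/

set_option autoImplicit false
set_option linter.unusedSimpArgs false

open UpperHalfPlane hiding I
open Complex EisensteinSeries ModularForm MatrixGroups Manifold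
open scoped Real Topology
open Filter

namespace AO

open H32 H32.T3 H32.T4 CZ

/-- not a CM point -/
def NCM (y : ℂ) : Prop :=
  ¬ ∃ a b c : ℤ, (a ≠ 0 ∨ b ≠ 0 ∨ c ≠ 0) ∧ (a : ℂ) * y ^ 2 + b * y + c = 0

/-- numbers algebraic over `ℚ(J y, J' y, J'' y)` without approximations of some exponent `κ0 < 2` -/
def NAp (J : ℂ → ℂ) (y : ℂ) : Prop :=
  ∃ (k : ℕ) (P : Fin k → ℂ) (κ0 : ℝ), 1 ≤ κ0 ∧ κ0 < 2 ∧ ¬ Appr P κ0 ∧
    ∀ i, IsAlgebraic (IntermediateField.adjoin ℚ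
      ({J y, deriv J y, deriv (deriv J) y} : Set ℂ)) (P i)

theorem core {E4 E6 J : ℂ → ℂ}
    (h4 : ∀ τ : ℂ, E4 τ = 1 + 240 * ∑' m : ℕ, ((ArithmeticFunction.sigma 3 (m + 1) : ℕ) : ℂ) *
      Complex.exp (2 * (Real.pi : ℂ) * Complex.I * ((m : ℂ) + 1) * τ))
    (h6 : ∀ τ : ℂ, E6 τ = 1 - 504 * ∑' m : ℕ, ((ArithmeticFunction.sigma 5 (m + 1) : ℕ) : ℂ) *
      Complex.exp (2 * (Real.pi : ℂ) * Complex.I * ((m : ℂ) + 1) * τ))
    (hJ : ∀ τ : ℂ, J τ = 1728 * E4 τ ^ 3 / (E4 τ ^ 3 - E6 τ ^ 2))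
    (hG : ∀ τ : ℍ, IsAlgebraic ℚ (τ : ℂ) → NCM (τ : ℂ) →
      Meas (jf τ) ∧ E₄ τ ≠ 0 ∧ E₆ τ ≠ 0 ∧ NAp J τ)
    {m n : ℕ} (t : Fin m → ℝ) (ht : ∀ κ : ℝ, ∀ K : ℕ, ∃ q : ℕ, K ≤ q ∧ ∃ p : Fin m → ℤ,
      (∀ s, 0 < |t s - p s / q| ∧ |t s - p s / q| < Real.exp (-(q : ℝ) ^ κ)) ∧
      ∀ r s, r ≠ s → |t r - p r / q| < |t s - p s / q| ^ K ∨
        |t s - p s / q| < |t r - p r / q| ^ K)
    (y : ℂ) (hy : 0 < y.im) (hya : IsAlgebraic ℚ y) (hcm : NCM y) (z : Fin n → ℂ)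
    (hz : ∀ i, ∃ A ∈ IntermediateField.adjoin ℚ (Set.range t),
      ∃ B ∈ IntermediateField.adjoin ℚ (Set.range t),
      ∃ C ∈ IntermediateField.adjoin ℚ (Set.range t),
      ∃ D ∈ IntermediateField.adjoin ℚ (Set.range t), 0 < A * D - B * C ∧
        z i = ((A : ℂ) * y + (B : ℂ)) / ((C : ℂ) * y + (D : ℂ)))
    (hne : ∀ i, ¬ ∃ a b c d : ℚ, 0 < a * d - b * c ∧
      z i = ((a : ℂ) * y + (b : ℂ)) / ((c : ℂ) * y + (d : ℂ)))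
    (hrel : ∀ i k, i ≠ k → ¬ ∃ a b c d : ℚ, 0 < a * d - b * c ∧
      z k = ((a : ℂ) * z i + (b : ℂ)) / ((c : ℂ) * z i + (d : ℂ)))
    (B : Finset (Fin 1)) (ρ : ℕ) (g : Fin ρ → Fin n ⊕ B)
    (hg : AlgebraicIndependent ℚ (fun k ↦ (Sum.elim z (fun _ ↦ y) : Fin n ⊕ B → ℂ) (g k))) :
    ∃ f : Fin (3 * n + 3 * B.card + ρ - 1) → (Fin n ⊕ B) × Fin 4, AlgebraicIndependent ℚ (fun k ↦
      (![(Sum.elim z (fun _ ↦ y) : Fin n ⊕ B → ℂ) (f k).1,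
        J ((Sum.elim z (fun _ ↦ y) : Fin n ⊕ B → ℂ) (f k).1),
        deriv J ((Sum.elim z (fun _ ↦ y) : Fin n ⊕ B → ℂ) (f k).1),
        deriv (deriv J) ((Sum.elim z (fun _ ↦ y) : Fin n ⊕ B → ℂ) (f k).1)] : Fin 4 → ℂ)
        (f k).2) := by
  obtain ⟨S, hSt, hSy, -, hSφ⟩ := exists_orb (fun _ : Fin 1 ↦ (⟨y, hy⟩ : ℍ)) (fun _ ↦ 0) z hz
  have hy0 : (S.y 0 : ℂ) = y := by rw [hSy]
  have hS : SHier S.t := by rw [hSt]; exact shier_of ht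
  have hne' : NE0 S := by
    intro i
    rw [hSφ, hy0]
    exact hne i
  have hrel' : NE1 S := by
    intro i k hik
    rw [hSφ, hSφ]
    exact hrel i k hik
  obtain ⟨hM, h4', h6', k, P, κ0, hk1, hk2, hP, halg⟩ := hG (S.y 0) (by rw [hy0]; exact hya)
    (by rw [hy0]; exact hcm)
  have hJy : J (S.y 0) = jf (S.y 0) := by
    rw [(J_values h4 h6 hJ (S.y 0).im_pos).1]
    exact jc_coe (S.y 0)
  obtain ⟨θ, hθ, hind⟩ := indep2 S h4' h6' hM hS hne' hrel' P κ0 hk1 hk2 hP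
    (deriv J (S.y 0)) (deriv (deriv J) (S.y 0)) (fun i ↦ by rw [← hJy]; exact halg i)
  have hpts : pts S B = Sum.elim z (fun _ ↦ y) := by
    funext u
    rcases u with i | u
    · exact hSφ i
    · exact hy0
  have h := final_count h4 h6 hJ S h4' h6' (by rw [hy0]; exact hya) θ hθ hind B g
    (by rw [hpts]; exact hg)
  rw [hpts] at h
  exact h

end AO
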