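import Pool.Agent.H32.AO.F3

/-!
# MP_ede373, orbits of algebraic points, row F6: the main theorem up to the properties of the base point

(1) The algebraic ones are equivalent to `y`: `equiv_of_alg` for the data `S` of `exists_orb` (as in row `F3`).

(2) Case A: no `z i` is rationally equivalent to `y`: `core` with `B = ∅`, `Fin n ⊕ (∅ : Finset (Fin 1)) ≃ Fin n`:
`3 n + 0 + ρ - 1`. Case B: `z i0 = g0 y`, `g0 ∈ GL2+(ℚ)`. Then `n = n' + 1` and the new base point is `y' = z i0`: it is in the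
upper half-plane, algebraic, not CM (otherwise `y = g0⁻¹ y'` would satisfy an integral quadratic relation: clear
denominators; `a y'^2 + b y' + c = 0` times `(γ y + δ)^2` is a quadratic relation for `y` with coefficients not all `0`:
the quadratic form `(a, b, c)` is transformed by an invertible matrix), `y = g0⁻¹ y'`
(`g0⁻¹ = (d, -b; -c, a)` up to the factor `det`, positive determinant) and `z i = A y = (A g0⁻¹) y'` with
entries in `ℚ(t)` and positive determinant. The others `z (i0.succAbove i)`, `i : Fin n'`, are not rationally equivalent to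
`y' = z i0` (`hrel i0 _`). Apply `core` with `B = {0} = univ` and base point `y'`: `3 n' + 3 + ρ - 1 = 3 n + ρ - 1` numbers
among those of `Fin n' ⊕ univ ≃ Fin n` (`inl i ↦ i0.succAbove i`, `inr _ ↦ i0`); `g` is transported by this equivalence.

Suggested helper lemmas (prefix `F6_`): composition `mob_comp`, `im_pos` of a translate (`im_mobC` in `AO/Ob.lean` for real
entries), `NCM` of a rational translate, cast of `f` along equality of the cardinalities.
-/

set_option autoImplicit false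
set_option linter.unusedSimpArgs false

open UpperHalfPlane hiding I
open Complex EisensteinSeries ModularForm MatrixGroups Manifold
open scoped Real Topology
open Filter

namespace AO

open H32 H32.T3 H32.T4 CZ

private lemma F6_im {a b c d : ℚ} {y : ℂ} (hy : 0 < y.im) (h : 0 < a * d - b * c) :
    (c : ℂ) * y + d ≠ 0 ∧ 0 < (((a : ℂ) * y + b) / ((c : ℂ) * y + d)).im := by
  have h' : (0 : ℝ) < (a : ℝ) * (d : ℝ) - (b : ℝ) * (c : ℝ) := by exact_mod_cast h
  obtain ⟨h1, -, h3⟩ := im_mobC hy h'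
  simp only [Complex.ofReal_ratCast, mob] at h1 h3
  exact ⟨h1, h3⟩

private lemma F6_cm {y : ℂ} (hcm : NCM y) {p q r : ℚ} (h : p ≠ 0 ∨ q ≠ 0 ∨ r ≠ 0)
    (he : (p : ℂ) * y ^ 2 + q * y + r = 0) : False := by
  have hp : (p.den : ℂ) ≠ 0 := by exact_mod_cast p.den_nz
  have hq : (q.den : ℂ) ≠ 0 := by exact_mod_cast q.den_nz
  have hr : (r.den : ℂ) ≠ 0 := by exact_mod_cast r.den_nz
  have ep : (p : ℂ) = p.num / p.den := by exact_mod_cast (Rat.num_div_den p).symm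
  have eq : (q : ℂ) = q.num / q.den := by exact_mod_cast (Rat.num_div_den q).symm
  have er : (r : ℂ) = r.num / r.den := by exact_mod_cast (Rat.num_div_den r).symm
  refine hcm ⟨p.num * q.den * r.den, q.num * p.den * r.den, r.num * p.den * q.den, ?_, ?_⟩
  · have i1 : (p.den : ℤ) ≠ 0 := by exact_mod_cast p.den_nz
    have i2 : (q.den : ℤ) ≠ 0 := by exact_mod_cast q.den_nz
    have i3 : (r.den : ℤ) ≠ 0 := by exact_mod_cast r.den_nz
    rcases h with h | h | h
    · exact Or.inl (mul_ne_zero (mul_ne_zero (Rat.num_ne_zero.2 h) i2) i3)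
    · exact Or.inr (Or.inl (mul_ne_zero (mul_ne_zero (Rat.num_ne_zero.2 h) i1) i3))
    · exact Or.inr (Or.inr (mul_ne_zero (mul_ne_zero (Rat.num_ne_zero.2 h) i1) i2))
  · rw [ep, eq, er] at he
    field_simp at he
    push_cast
    linear_combination he

private lemma F6_ncm {a b c d : ℚ} {y : ℂ} (hy : 0 < y.im) (h : 0 < a * d - b * c)
    (hcm : NCM y) : NCM (((a : ℂ) * y + b) / ((c : ℂ) * y + d)) := by
  rintro ⟨p, q, r, hne, he⟩
  have hw := (F6_im hy h).1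
  have h2 : ((p : ℂ) * a ^ 2 + q * (a * c) + r * c ^ 2) * y ^ 2 +
      (2 * p * (a * b) + q * (a * d + b * c) + 2 * r * (c * d)) * y +
      (p * b ^ 2 + q * (b * d) + r * d ^ 2) = 0 := by
    have h3 : ((p : ℂ) * (((a : ℂ) * y + b) / ((c : ℂ) * y + d)) ^ 2 +
        q * (((a : ℂ) * y + b) / ((c : ℂ) * y + d)) + r) * ((c : ℂ) * y + d) ^ 2 =
        p * ((a : ℂ) * y + b) ^ 2 + q * (((a : ℂ) * y + b) * ((c : ℂ) * y + d)) +
          r * ((c : ℂ) * y + d) ^ 2 := by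
      generalize (c : ℂ) * y + d = w at hw ⊢
      field_simp
    rw [he, zero_mul] at h3
    linear_combination -h3
  refine F6_cm hcm (p := (p : ℚ) * a ^ 2 + q * (a * c) + r * c ^ 2)
    (q := 2 * p * (a * b) + q * (a * d + b * c) + 2 * r * (c * d))
    (r := p * b ^ 2 + q * (b * d) + r * d ^ 2) ?_ (by push_cast; linear_combination h2)
  by_contra hcon
  push Not at hcon
  obtain ⟨e1, e2, e3⟩ := hcon
  have hδ : (a * d - b * c) ^ 2 ≠ 0 := pow_ne_zero 2 h.ne'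
  have f1 : (a * d - b * c) ^ 2 * (p : ℚ) = 0 := by
    linear_combination d ^ 2 * e1 - d * c * e2 + c ^ 2 * e3
  have f2 : (a * d - b * c) ^ 2 * (q : ℚ) = 0 := by
    linear_combination (-2 * d * b) * e1 + (a * d + b * c) * e2 - 2 * a * c * e3
  have f3 : (a * d - b * c) ^ 2 * (r : ℚ) = 0 := by
    linear_combination b ^ 2 * e1 - a * b * e2 + a ^ 2 * e3
  rcases hne with h' | h' | h'
  · exact (mul_ne_zero hδ (by exact_mod_cast h')) f1
  · exact (mul_ne_zero hδ (by exact_mod_cast h')) f2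
  · exact (mul_ne_zero hδ (by exact_mod_cast h')) f3

private lemma F6_alg {a b c d : ℚ} {y : ℂ} (hy : IsAlgebraic ℚ y) :
    IsAlgebraic ℚ (((a : ℂ) * y + b) / ((c : ℂ) * y + d)) := by
  have hq : ∀ q : ℚ, IsAlgebraic ℚ (q : ℂ) := fun q ↦ isAlgebraic_algebraMap (R := ℚ) (A := ℂ) q
  rw [div_eq_mul_inv]
  exact (((hq a).mul hy).add (hq b)).mul (((hq c).mul hy).add (hq d)).inv

private lemma F6_comp {a b c d : ℚ} {A B C D : ℝ} {y : ℂ} (hy : 0 < y.im)
    (h : 0 < a * d - b * c) (hA : 0 < A * D - B * C) :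
    ((A : ℂ) * y + (B : ℂ)) / ((C : ℂ) * y + (D : ℂ)) =
      (((A * d - B * c : ℝ) : ℂ) * (((a : ℂ) * y + b) / ((c : ℂ) * y + d)) +
        ((B * a - A * b : ℝ) : ℂ)) /
      (((C * d - D * c : ℝ) : ℂ) * (((a : ℂ) * y + b) / ((c : ℂ) * y + d)) +
        ((D * a - C * b : ℝ) : ℂ)) := by
  have hw := (F6_im hy h).1
  have hv := (im_mobC hy hA).1
  have hδ : ((a : ℂ) * d - b * c) ≠ 0 := by exact_mod_cast h.ne'
  have e1 : ((A * d - B * c : ℝ) : ℂ) * (((a : ℂ) * y + b) / ((c : ℂ) * y + d)) +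
        ((B * a - A * b : ℝ) : ℂ) =
      (((a : ℂ) * d - b * c) / ((c : ℂ) * y + d)) * ((A : ℂ) * y + B) := by
    push_cast
    field_simp
    ring
  have e2 : ((C * d - D * c : ℝ) : ℂ) * (((a : ℂ) * y + b) / ((c : ℂ) * y + d)) +
        ((D * a - C * b : ℝ) : ℂ) =
      (((a : ℂ) * d - b * c) / ((c : ℂ) * y + d)) * ((C : ℂ) * y + D) := by
    push_cast
    field_simp
    ring
  rw [e1, e2, mul_div_mul_left _ _ (div_ne_zero hδ hw)]

private lemma F6_tr {U V : Type} (J : ℂ → ℂ) (pts : U → ℂ) (z : V → ℂ) (φ : U → V)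
    (hφ : ∀ u, pts u = z (φ u)) {N M : ℕ} (hNM : M = N)
    (h : ∃ f : Fin N → U × Fin 4, AlgebraicIndependent ℚ (fun k ↦
      (![pts (f k).1, J (pts (f k).1), deriv J (pts (f k).1), deriv (deriv J) (pts (f k).1)] :
        Fin 4 → ℂ) (f k).2)) :
    ∃ f : Fin M → V × Fin 4, AlgebraicIndependent ℚ (fun k ↦
      (![z (f k).1, J (z (f k).1), deriv J (z (f k).1), deriv (deriv J) (z (f k).1)] :
        Fin 4 → ℂ) (f k).2) := by
  subst hNM
  obtain ⟨f, hf⟩ := h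
  refine ⟨fun k ↦ (φ (f k).1, (f k).2), ?_⟩
  have e : (fun k ↦ (![pts (f k).1, J (pts (f k).1), deriv J (pts (f k).1),
      deriv (deriv J) (pts (f k).1)] : Fin 4 → ℂ) (f k).2) =
      fun k ↦ (![z (φ (f k).1), J (z (φ (f k).1)), deriv J (z (φ (f k).1)),
        deriv (deriv J) (z (φ (f k).1))] : Fin 4 → ℂ) (f k).2 := by
    funext k
    rw [hφ]
  rw [e] at hf
  exact hf

theorem main_AO {E4 E6 J : ℂ → ℂ}
    (h4 : ∀ τ : ℂ, E4 τ = 1 + 240 * ∑' m : ℕ, ((ArithmeticFunction.sigma 3 (m + 1) : ℕ) : ℂ) *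
      Complex.exp (2 * (Real.pi : ℂ) * Complex.I * ((m : ℂ) + 1) * τ))
    (h6 : ∀ τ : ℂ, E6 τ = 1 - 504 * ∑' m : ℕ, ((ArithmeticFunction.sigma 5 (m + 1) : ℕ) : ℂ) *
      Complex.exp (2 * (Real.pi : ℂ) * Complex.I * ((m : ℂ) + 1) * τ))
    (hJ : ∀ τ : ℂ, J τ = 1728 * E4 τ ^ 3 / (E4 τ ^ 3 - E6 τ ^ 2))
    (hG : ∀ τ : ℍ, IsAlgebraic ℚ (τ : ℂ) → NCM (τ : ℂ) →
      Meas (jf τ) ∧ E₄ τ ≠ 0 ∧ E₆ τ ≠ 0 ∧ NAp J τ)
    {m n : ℕ} (t : Fin m → ℝ) (ht : ∀ κ : ℝ, ∀ K : ℕ, ∃ q : ℕ, K ≤ q ∧ ∃ p : Fin m → ℤ,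
      (∀ s, 0 < |t s - p s / q| ∧ |t s - p s / q| < Real.exp (-(q : ℝ) ^ κ)) ∧
      ∀ r s, r ≠ s → |t r - p r / q| < |t s - p s / q| ^ K ∨
        |t s - p s / q| < |t r - p r / q| ^ K)
    (y : ℂ) (hy : 0 < y.im) (hya : IsAlgebraic ℚ y) (hcm : NCM y) (z : Fin n → ℂ)
    (hz : ∀ i, ∃ A ∈ IntermediateField.adjoin ℚ (Set.range t),
      ∃ B ∈ IntermediateField.adjoin ℚ (Set.range t),
      ∃ C ∈ IntermediateField.adjoin ℚ (Set.range t),
      ∃ D ∈ IntermediateField.adjoin ℚ (Set.range t), 0 < A * D - B * C ∧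
        z i = ((A : ℂ) * y + (B : ℂ)) / ((C : ℂ) * y + (D : ℂ)))
    (hrel : ∀ i k, i ≠ k → ¬ ∃ a b c d : ℚ, 0 < a * d - b * c ∧
      z k = ((a : ℂ) * z i + (b : ℂ)) / ((c : ℂ) * z i + (d : ℂ))) :
    (∀ i, IsAlgebraic ℚ (z i) → ∃ a b c d : ℚ, 0 < a * d - b * c ∧
      z i = ((a : ℂ) * y + (b : ℂ)) / ((c : ℂ) * y + (d : ℂ))) ∧
    ∀ (ρ : ℕ) (g : Fin ρ → Fin n), AlgebraicIndependent ℚ (fun k ↦ z (g k)) →
      ∃ f : Fin (3 * n + ρ - 1) → Fin n × Fin 4, AlgebraicIndependent ℚ (fun k ↦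
        (![z (f k).1, J (z (f k).1), deriv J (z (f k).1), deriv (deriv J) (z (f k).1)] :
          Fin 4 → ℂ) (f k).2) := by
  constructor
  · intro i hi
    obtain ⟨S, hSt, hSy, -, hSφ⟩ := exists_orb (fun _ : Fin 1 ↦ (⟨y, hy⟩ : ℍ)) (fun _ ↦ 0) z hz
    have hy0 : (S.y 0 : ℂ) = y := by rw [hSy]
    have hS : SHier S.t := by rw [hSt]; exact shier_of ht
    have h1 := equiv_of_alg S hS (by rw [hy0]; exact hya) i (by rw [hSφ]; exact hi)
    rw [hSφ, hy0] at h1
    exact h1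
  intro ρ g hg
  by_cases hne : ∀ i, ¬ ∃ a b c d : ℚ, 0 < a * d - b * c ∧
      z i = ((a : ℂ) * y + (b : ℂ)) / ((c : ℂ) * y + (d : ℂ))
  · -- no point is equivalent to `y`
    refine F6_tr J (Sum.elim z (fun _ ↦ y) : Fin n ⊕ (∅ : Finset (Fin 1)) → ℂ) z
      (Sum.elim id (fun u ↦ absurd u.2 (Finset.notMem_empty _))) ?_ ?_
      (core h4 h6 hJ hG t ht y hy hya hcm z hz hne hrel ∅ ρ (fun k ↦ Sum.inl (g k)) hg)
    · rintro (i | u)
      · rfl
      · exact absurd u.2 (Finset.notMem_empty _)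
    · simp
  · push Not at hne
    obtain ⟨i0, a, b, c, d, hpos, hzi0⟩ := hne
    obtain ⟨n', rfl⟩ : ∃ n', n = n' + 1 := ⟨n - 1, by have := i0.pos; omega⟩
    have hy' : 0 < (z i0).im := by rw [hzi0]; exact (F6_im hy hpos).2
    have hya' : IsAlgebraic ℚ (z i0) := by rw [hzi0]; exact F6_alg hya
    have hcm' : NCM (z i0) := by rw [hzi0]; exact F6_ncm hy hpos hcm
    have hz' : ∀ i : Fin n', ∃ A ∈ IntermediateField.adjoin ℚ (Set.range t),
        ∃ B ∈ IntermediateField.adjoin ℚ (Set.range t),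
        ∃ C ∈ IntermediateField.adjoin ℚ (Set.range t),
        ∃ D ∈ IntermediateField.adjoin ℚ (Set.range t), 0 < A * D - B * C ∧
          z (i0.succAbove i) = ((A : ℂ) * z i0 + (B : ℂ)) / ((C : ℂ) * z i0 + (D : ℂ)) := by
      intro i
      obtain ⟨A, hA, B, hB, C, hC, D, hD, hdet, he⟩ := hz (i0.succAbove i)
      have hq : ∀ q : ℚ, (q : ℝ) ∈ IntermediateField.adjoin ℚ (Set.range t) := fun q ↦
        (IntermediateField.adjoin ℚ (Set.range t)).algebraMap_mem q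
      refine ⟨A * d - B * c, sub_mem (mul_mem hA (hq d)) (mul_mem hB (hq c)),
        B * a - A * b, sub_mem (mul_mem hB (hq a)) (mul_mem hA (hq b)),
        C * d - D * c, sub_mem (mul_mem hC (hq d)) (mul_mem hD (hq c)),
        D * a - C * b, sub_mem (mul_mem hD (hq a)) (mul_mem hC (hq b)), ?_, ?_⟩
      · have h' : (0 : ℝ) < (a : ℝ) * (d : ℝ) - (b : ℝ) * (c : ℝ) := by exact_mod_cast hpos
        have e : (A * d - B * c) * (D * a - C * b) - (B * a - A * b) * (C * d - D * c) =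
          (A * D - B * C) * ((a : ℝ) * d - b * c) := by ring
        rw [e]
        exact mul_pos hdet h'
      · rw [he, hzi0]
        exact F6_comp hy hpos hdet
    have hψ : ∀ j : Fin (n' + 1), ∃ u : Fin n' ⊕ (Finset.univ : Finset (Fin 1)),
        (Sum.elim (fun i ↦ z (i0.succAbove i)) (fun _ ↦ z i0) :
          Fin n' ⊕ (Finset.univ : Finset (Fin 1)) → ℂ) u = z j := by
      intro j
      rcases Fin.eq_self_or_eq_succAbove i0 j with h | ⟨i, h⟩
      · exact ⟨Sum.inr ⟨0, Finset.mem_univ _⟩, by rw [h]; rfl⟩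
      · exact ⟨Sum.inl i, by rw [h]; rfl⟩
    choose ψ hψ' using hψ
    refine F6_tr J (Sum.elim (fun i ↦ z (i0.succAbove i)) (fun _ ↦ z i0) :
        Fin n' ⊕ (Finset.univ : Finset (Fin 1)) → ℂ) z (Sum.elim i0.succAbove (fun _ ↦ i0)) ?_ ?_
      (core h4 h6 hJ hG t ht (z i0) hy' hya' hcm' (fun i ↦ z (i0.succAbove i)) hz'
        (fun i ↦ hrel i0 (i0.succAbove i) (Fin.succAbove_ne i0 i).symm)
        (fun i k hik ↦ hrel (i0.succAbove i) (i0.succAbove k)
          (fun h ↦ hik (Fin.succAbove_right_injective h))) Finset.univ ρ (fun k ↦ ψ (g k)) ?_)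
    · rintro (i | u) <;> rfl
    · rw [Finset.card_univ, Fintype.card_fin]
      omega
    · have e : (fun k ↦ (Sum.elim (fun i ↦ z (i0.succAbove i)) (fun _ ↦ z i0) :
          Fin n' ⊕ (Finset.univ : Finset (Fin 1)) → ℂ) (ψ (g k))) = fun k ↦ z (g k) := by
        funext k
        exact hψ' (g k)
      rw [e]
      exact hg

end AO
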