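import Pool.Agent.H32.AO.D0

/-!
# MP_ede373, orbits of algebraic points, row A1: simple facts about `ApprC`

* `ApprC.of_at`: keep `E, x, S` and take `min (d φ) L0`. If some `φ ∈ S` has `d φ ≥ L0` the sum of the minima is
  `≥ L0` (all terms are `≥ 0`, `Finset.single_le_sum`), otherwise it is the sum of the `d φ`, `≥ V`. Closeness:
  `exp (-d φ) ≤ exp (-min ..)`.
* `ApprC.at`, `ApprC.mono`, `ApprC.reindex`: trivial.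
-/

set_option autoImplicit false

namespace AO

open CZ
open H32.T3 (nrm)

theorem ApprC.of_at {k : ℕ} {P : Fin k → ℂ} {t V L0 : ℝ} (hL : 0 ≤ L0) (h : ApprAt P t V) :
    ApprC P t (min V L0) L0 := by
  obtain ⟨E, iF, iN, x, S, d, h1, h2, h3, h4⟩ := h
  refine ⟨E, iF, iN, x, S, fun φ ↦ min (d φ) L0, h1, h2, fun φ hφ ↦ ⟨le_min (h3 φ hφ).1 hL,
    min_le_right _ _, fun i ↦ ((h3 φ hφ).2 i).trans (Real.exp_le_exp.2 (neg_le_neg (min_le_left _ _)))⟩, ?_⟩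
  by_cases hc : ∃ φ ∈ S, L0 ≤ d φ
  · obtain ⟨φ, hφ, hle⟩ := hc
    calc min V L0 ≤ L0 := min_le_right _ _
      _ = min (d φ) L0 := (min_eq_right hle).symm
      _ ≤ ∑ φ ∈ S, min (d φ) L0 := Finset.single_le_sum (f := fun φ ↦ min (d φ) L0)
          (fun ψ hψ ↦ le_min (h3 ψ hψ).1 hL) hφ
  · push Not at hc
    calc min V L0 ≤ V := min_le_left _ _
      _ ≤ ∑ φ ∈ S, d φ := h4
      _ = ∑ φ ∈ S, min (d φ) L0 := Finset.sum_congr rfl fun φ hφ ↦ (min_eq_left (hc φ hφ).le).symm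

theorem ApprC.at {k : ℕ} {P : Fin k → ℂ} {t V L0 : ℝ} (h : ApprC P t V L0) : ApprAt P t V := by
  obtain ⟨E, iF, iN, x, S, d, h1, h2, h3, h4⟩ := h
  exact ⟨E, iF, iN, x, S, d, h1, h2, fun φ hφ ↦ ⟨(h3 φ hφ).1, (h3 φ hφ).2.2⟩, h4⟩

theorem ApprC.mono {k : ℕ} {P : Fin k → ℂ} {t t' V V' L0 L0' : ℝ} (h : ApprC P t V L0)
    (ht : t ≤ t') (hV : V' ≤ V) (hL : L0 ≤ L0') : ApprC P t' V' L0' := by
  obtain ⟨E, iF, iN, x, S, d, h1, h2, h3, h4⟩ := h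
  exact ⟨E, iF, iN, x, S, d, h1.trans ht, fun i ↦ (h2 i).trans ht,
    fun φ hφ ↦ ⟨(h3 φ hφ).1, (h3 φ hφ).2.1.trans hL, (h3 φ hφ).2.2⟩, hV.trans h4⟩

theorem ApprC.reindex {k l : ℕ} {P : Fin k → ℂ} {t V L0 : ℝ} (f : Fin l → Fin k)
    (h : ApprC P t V L0) : ApprC (fun i ↦ P (f i)) t V L0 := by
  obtain ⟨E, iF, iN, x, S, d, h1, h2, h3, h4⟩ := h
  exact ⟨E, iF, iN, fun i ↦ x (f i), S, d, h1, fun i ↦ h2 (f i),
    fun φ hφ ↦ ⟨(h3 φ hφ).1, (h3 φ hφ).2.1, fun i ↦ (h3 φ hφ).2.2 (f i)⟩, h4⟩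

theorem Rel.mono {k : ℕ} {X X' L0 L0' : ℝ} {P : Fin k → ℂ} {y : ℂ} (h : Rel X L0 P y)
    (hX : X ≤ X') (hL : L0' ≤ L0) : Rel X' L0' P y := by
  obtain ⟨n, G, h1, h2, h3, h4, h5, h6⟩ := h
  exact ⟨n, G, h1, h2.trans hX, fun j hj ↦ (h3 j hj).trans hX,
    fun j hj ↦ (h4 j hj).trans (Real.exp_le_exp.2 hX),
    (Real.exp_le_exp.2 (neg_le_neg hX)).trans h5, h6.trans (Real.exp_le_exp.2 (neg_le_neg hL))⟩

theorem RootRel.mono {X X' : ℝ} {J w : ℂ} (h : RootRel X J w) (hX : X ≤ X') :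
    RootRel X' J w := by
  obtain ⟨M, r, c, h1, h2, h3, h4, h5, h6, h7⟩ := h
  exact ⟨M, r, c, h1, h2.trans hX, h3, h4, fun i ↦ (h5 i).trans hX,
    fun i ↦ (h6 i).trans (Real.exp_le_exp.2 hX), h7⟩

end AO
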