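import Pool.Agent.H32.AO.D0

/-!
# MP_ede373, orbits of algebraic points, row A2: the extension step with a cap

Copy the proof of `CZ.xd_alg` (file `Pool/Agent/H32/CZ/Xd.lean`) with these changes: `hA` gives in addition
`d φ ≤ L0` for `φ ∈ S`, so `hloc` (now only for `δ ≤ L0`) can be applied to `δ = d φ` for `φ ∈ S1`; in the output
`d' φ' = d φ / (2 n) ≤ d φ ≤ L0`.
-/

set_option autoImplicit false

namespace AO

open CZ Polynomial
open H32.T3 (nrm)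

theorem ext_alg_cap {k : ℕ} (P : Fin k → ℂ) (y : ℂ) (n : ℕ) (G : ℕ → MvPolynomial (Fin k) ℤ)
    (hn : 0 < n) (N : ℕ) (hN : ∀ j ≤ n, (G j).totalDegree ≤ N) (Bn : ℝ) (hB1 : 1 ≤ Bn)
    (hBn : ∀ j ≤ n, nrm (G j) ≤ Bn) (d1 L0 : ℝ) (hd1 : 0 ≤ d1)
    (hloc : ∀ (δ : ℝ), d1 ≤ δ → δ ≤ L0 → ∀ P' : Fin k → ℂ,
      (∀ i, ‖P' i - P i‖ ≤ Real.exp (-δ)) → MvPolynomial.aeval P' (G n) ≠ 0 ∧
      ∃ z : ℂ, ∑ j ∈ Finset.range (n + 1), MvPolynomial.aeval P' (G j) * z ^ j = 0 ∧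
        ‖z - y‖ ≤ Real.exp (-(δ / (2 * n))))
    (t V : ℝ) (ht : 1 ≤ t) (hV : 0 < V) (htV : t * d1 ≤ V / 2) (hA : ApprC P t V L0) :
    ApprC (Fin.snoc P y : Fin (k + 1) → ℂ)
      (n * (1 + Real.log (n * Bn) + N * k) * t) (V / (4 * n ^ 2)) L0 := by
  classical
  obtain ⟨E, iE, iN, x, S, d, hfr, hht, hS, hVS⟩ := hA
  have hn' : (0 : ℝ) < n := by exact_mod_cast hn
  have hn1 : (1 : ℝ) ≤ n := by exact_mod_cast hn
  obtain ⟨S1, hS1⟩ : ∃ S1 : Finset (E →+* ℂ), S1 = S.filter (fun φ => d1 ≤ d φ) := ⟨_, rfl⟩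
  have hcard : (S.card : ℝ) ≤ t := by
    refine le_trans ?_ hfr
    have h1 := Finset.card_le_univ S
    rw [NumberField.Embeddings.card] at h1
    exact_mod_cast h1
  have hsum1 : V / 2 ≤ ∑ φ ∈ S1, d φ := by
    have h1 : ∑ φ ∈ S, d φ = ∑ φ ∈ S1, d φ + ∑ φ ∈ S.filter (fun φ => ¬ d1 ≤ d φ), d φ := by
      rw [hS1, Finset.sum_filter_add_sum_filter_not]
    have h2 : ∑ φ ∈ S.filter (fun φ => ¬ d1 ≤ d φ), d φ ≤ S.card * d1 := by
      have h3 : ∑ φ ∈ S.filter (fun φ => ¬ d1 ≤ d φ), d φ ≤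
          (S.filter (fun φ => ¬ d1 ≤ d φ)).card • d1 := by
        refine Finset.sum_le_card_nsmul _ _ _ fun φ hφ => ?_
        exact (not_le.1 (Finset.mem_filter.1 hφ).2).le
      refine h3.trans ?_
      rw [nsmul_eq_mul]
      have h4 : ((S.filter (fun φ => ¬ d1 ≤ d φ)).card : ℝ) ≤ S.card := by
        exact_mod_cast Finset.card_filter_le _ _
      exact mul_le_mul_of_nonneg_right h4 hd1
    have h5 : S.card * d1 ≤ t * d1 := mul_le_mul_of_nonneg_right hcard hd1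
    linarith
  have hpos1 : 0 < ∑ φ ∈ S1, d φ := by linarith
  have hS1mem : ∀ φ ∈ S1, φ ∈ S ∧ d1 ≤ d φ := fun φ hφ => by
    rw [hS1] at hφ
    exact Finset.mem_filter.1 hφ
  have hL : ∀ φ ∈ S1, MvPolynomial.aeval (fun i => φ (x i)) (G n) ≠ 0 ∧
      ∃ z : ℂ, ∑ j ∈ Finset.range (n + 1), MvPolynomial.aeval (fun i => φ (x i)) (G j) * z ^ j = 0 ∧
        ‖z - y‖ ≤ Real.exp (-(d φ / (2 * n))) := fun φ hφ =>
    hloc (d φ) (hS1mem φ hφ).2 (hS φ (hS1mem φ hφ).1).2.1 _ (hS φ (hS1mem φ hφ).1).2.2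
  have hGx : MvPolynomial.aeval x (G n) ≠ 0 := by
    obtain ⟨φ, hφ⟩ : S1.Nonempty := by
      rw [Finset.nonempty_iff_ne_empty]
      rintro h
      rw [h] at hpos1
      simp at hpos1
    intro h0
    apply (hL φ hφ).1
    rw [← xd_aeval, h0, map_zero]
  obtain ⟨f, hf⟩ : ∃ f : E[X], f = xdP (fun j => MvPolynomial.aeval x (G j)) n := ⟨_, rfl⟩
  have hfdeg : f.natDegree = n := by
    rw [hf]
    exact xdP_deg _ n hGx
  have hf0 : f ≠ 0 := by
    intro h0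
    rw [h0] at hfdeg
    simp at hfdeg
    omega
  obtain ⟨Ψ, hΨc, hΨ, hΨr⟩ := xd_factors f hf0
  rw [hfdeg] at hΨc
  have hex : ∀ φ : E →+* ℂ, ∃ zψ : ℂ × E[X], φ ∈ S1 → zψ.2 ∈ Ψ ∧
      (zψ.2.map φ).eval zψ.1 = 0 ∧ ‖zψ.1 - y‖ ≤ Real.exp (-(d φ / (2 * n))) := by
    intro φ
    by_cases hφ : φ ∈ S1
    · obtain ⟨_, z, hz, hzy⟩ := hL φ hφ
      have h1 : (f.map φ).eval z = 0 := by
        rw [hf, xdP_map, xdP_eval]
        simp only [xd_aeval]
        exact hz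
      obtain ⟨ψ, hψ, h2⟩ := hΨr φ z h1
      exact ⟨(z, ψ), fun _ => ⟨hψ, h2, hzy⟩⟩
    · exact ⟨(0, 0), fun h => absurd h hφ⟩
  choose zψ hzψ using hex
  obtain ⟨ψ, hψΨ, hpig⟩ := xd_pigeon S1 Ψ (fun φ => (zψ φ).2) (fun φ hφ => (hzψ φ hφ).1) d n hΨc
    hpos1
  obtain ⟨hψirr, hψdvd⟩ := hΨ ψ hψΨ
  obtain ⟨E', iE', iN', iA, ρ, hρ, hfr1, hfr2, hlift⟩ := adjoin_root_nf E ψ hψirr
  have hψdeg : ψ.natDegree ≤ n := by
    rw [← hfdeg]
    exact natDegree_le_of_dvd hψdvd hf0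
  obtain ⟨S2, hS2⟩ : ∃ S2 : Finset (E →+* ℂ), S2 = S1.filter (fun φ => (zψ φ).2 = ψ) := ⟨_, rfl⟩
  have hS2mem : ∀ φ ∈ S2, φ ∈ S1 ∧ (zψ φ).2 = ψ := fun φ hφ => by
    rw [hS2] at hφ
    exact Finset.mem_filter.1 hφ
  rw [← hS2] at hpig
  have hex2 : ∀ φ : E →+* ℂ, ∃ φ' : E' →+* ℂ, φ ∈ S2 →
      φ'.comp (algebraMap E E') = φ ∧ φ' ρ = (zψ φ).1 := by
    intro φ
    by_cases hφ : φ ∈ S2
    · obtain ⟨h1, h2⟩ := hS2mem φ hφ
      have h3 := (hzψ φ h1).2.1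
      rw [h2] at h3
      obtain ⟨φ', h4⟩ := hlift φ _ h3
      exact ⟨φ', fun _ => h4⟩
    · obtain ⟨φ'⟩ : Nonempty (E' →+* ℂ) := inferInstance
      exact ⟨φ', fun h => absurd h hφ⟩
  choose F hF using hex2
  have hinj : Set.InjOn F (S2 : Set (E →+* ℂ)) := by
    intro φ hφ φ₂ hφ₂ h
    rw [← (hF φ hφ).1, ← (hF φ₂ hφ₂).1, h]
  have hfrE' : (Module.finrank ℚ E' : ℝ) ≤ n * t := by
    rw [hfr2]
    push_cast
    have h1 : (ψ.natDegree : ℝ) ≤ n := by exact_mod_cast hψdeg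
    exact mul_le_mul h1 hfr (Nat.cast_nonneg _) hn'.le
  have hlog : 0 ≤ Real.log (n * Bn) := Real.log_nonneg (by nlinarith)
  have hNk : (0 : ℝ) ≤ N * k := by positivity
  have hC : n * t ≤ n * (1 + Real.log (n * Bn) + N * k) * t := by
    have h1 : 0 ≤ n * t * (Real.log (n * Bn) + N * k) := by positivity
    linarith
  have hhalg : ∀ i, hE (algebraMap E E' (x i)) ≤ n * t := by
    intro i
    refine (hE_algebraMap (x i)).trans ?_
    rw [hfr1]
    have h1 : (ψ.natDegree : ℝ) ≤ n := by exact_mod_cast hψdeg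
    calc (ψ.natDegree : ℝ) * hE (x i) ≤ ψ.natDegree * t :=
          mul_le_mul_of_nonneg_left (hht i) (Nat.cast_nonneg _)
      _ ≤ n * t := mul_le_mul_of_nonneg_right h1 (by linarith)
  refine ⟨E', iE', iN', Fin.snoc (fun i => algebraMap E E' (x i)) ρ, S2.image F,
    fun φ' => d (φ'.comp (algebraMap E E')) / (2 * n), hfrE'.trans hC, ?_, ?_, ?_⟩
  · intro i
    refine Fin.lastCases ?_ (fun i => ?_) i
    · rw [Fin.snoc_last]
      have hroot : ∑ j ∈ Finset.range (n + 1),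
          MvPolynomial.aeval (fun i => algebraMap E E' (x i)) (G j) * ρ ^ j = 0 := by
        obtain ⟨q, hq⟩ := hψdvd
        have h1 : aeval ρ f = 0 := by
          rw [hq, map_mul, hρ, zero_mul]
        rw [aeval_def, ← eval_map, hf, xdP_map, xdP_eval] at h1
        simp only [xd_aeval] at h1
        exact h1
      have hlead : MvPolynomial.aeval (fun i => algebraMap E E' (x i)) (G n) ≠ 0 := by
        rw [← xd_aeval]
        exact (map_ne_zero_iff _ (algebraMap E E').injective).2 hGx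
      have h2 := hE_root_le (fun i => algebraMap E E' (x i)) n G N Bn hB1 hN hBn ρ hroot hlead
      have h3 : ∑ i, hE (algebraMap E E' (x i)) ≤ k * (n * t) := by
        refine (Finset.sum_le_card_nsmul _ _ _ fun i _ => hhalg i).trans (le_of_eq ?_)
        rw [Finset.card_univ, Fintype.card_fin, nsmul_eq_mul]
      have h4 : (Module.finrank ℚ E' : ℝ) * Real.log (n * Bn) ≤ n * t * Real.log (n * Bn) :=
        mul_le_mul_of_nonneg_right hfrE' hlog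
      have h5 : (N : ℝ) * ∑ i, hE (algebraMap E E' (x i)) ≤ N * (k * (n * t)) :=
        mul_le_mul_of_nonneg_left h3 (Nat.cast_nonneg _)
      have h6 : 0 ≤ n * t := by positivity
      linarith
    · rw [Fin.snoc_castSucc]
      exact (hhalg i).trans hC
  · intro φ' hφ'
    obtain ⟨φ, hφ, rfl⟩ := Finset.mem_image.1 hφ'
    obtain ⟨h1, h2⟩ := hF φ hφ
    obtain ⟨h3, _⟩ := hS2mem φ hφ
    obtain ⟨h4, h5⟩ := hS1mem φ h3
    obtain ⟨h6, h6', h7⟩ := hS φ h4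
    beta_reduce
    rw [h1]
    have h9 : d φ / (2 * n) ≤ d φ := div_le_self h6 (by linarith)
    refine ⟨by positivity, h9.trans h6', fun i => ?_⟩
    refine Fin.lastCases ?_ (fun i => ?_) i
    · rw [Fin.snoc_last, Fin.snoc_last, h2]
      exact (hzψ φ h3).2.2
    · rw [Fin.snoc_castSucc, Fin.snoc_castSucc]
      have h8 : F φ (algebraMap E E' (x i)) = φ (x i) := by
        conv_rhs => rw [← h1]
        rfl
      rw [h8]
      refine (h7 i).trans (Real.exp_le_exp.2 ?_)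
      have h9 : d φ / (2 * n) ≤ d φ := div_le_self h6 (by linarith)
      linarith
  · rw [Finset.sum_image hinj]
    have h1 : ∑ φ ∈ S2, d ((F φ).comp (algebraMap E E')) / (2 * n) = (∑ φ ∈ S2, d φ) / (2 * n) := by
      rw [Finset.sum_div]
      refine Finset.sum_congr rfl fun φ hφ => ?_
      rw [(hF φ hφ).1]
    rw [h1]
    have h2 : V / 2 / n ≤ ∑ φ ∈ S2, d φ := by
      refine le_trans ?_ hpig
      exact div_le_div_of_nonneg_right hsum1 hn'.le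
    have h3 : V / (4 * n ^ 2) = V / 2 / n / (2 * n) := by
      field_simp
      ring
    rw [h3]
    exact div_le_div_of_nonneg_right h2 (by positivity)

end AO
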