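import Pool.Agent.H32.CZ.N0
import Pool.Agent.H32.CZ.Na

/-!
# MP_ede373, orbits of algebraic points, row B1: lower bound for an eigenvalue

Let `A` be a square matrix over `ℤ[X]` (finite index type `I`, `D = card I ≥ 1`), entries of degree `≤ d` and
`nr ≤ R`, `R ≥ 1`. Let `v ≠ 0` be an eigenvector of `A(J)` with eigenvalue `lam ≠ 0`, `‖lam‖ ≤ 1`.
`χ = A.charpoly ∈ ℤ[X][T]`: monic, `χ(J)(lam) = 0` (`Matrix.charpoly_map`, `Matrix.eval_charpoly` or
`Matrix.exists_mulVec_eq_zero_iff`: `det (lam - A(J)) = 0`).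
`nr2 χ ≤ D! (R + 1)^D` (`D! = Nat.factorial D`) and `natDegree (χ.coeff i) ≤ D d` for all `i`: Leibniz formula
(`Matrix.det_apply`), the entries of `charmatrix A` are `C (-a_ij)` or `X - C a_ii`, of `nr2 ≤ R + 1` and inner degree
`≤ d`; `nr2` is submultiplicative and subadditive (see `Pool/Agent/H32/CZ/Na.lean`, e.g. the lemmas used for
`nr_resultant_le`).
Let `i0` be the least `i` with `χ.coeff i ≠ 0` (exists as `χ ≠ 0`), `f = χ.coeff i0`. Then, as `lam ≠ 0`,
`f(J) = - ∑_{i > i0} χ_i(J) lam^(i - i0)`, so `‖f(J)‖ ≤ ‖lam‖ ∑_i ‖χ_i(J)‖ ≤ ‖lam‖ nr2 χ (max 1 ‖J‖)^(D d)`.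
`nr f ≤ nr2 χ`.
-/

set_option autoImplicit false

namespace AO

open CZ Polynomial

theorem B1_nr2_zero : nr2 0 = 0 := Polynomial.sum_zero_index _

theorem B1_nr2_C (a : ℤ[X]) : nr2 (C a) = nr a := by
  unfold nr2
  exact Polynomial.sum_C_index Na_nr_zero

theorem B1_nr2_X : nr2 X = 1 := by
  unfold nr2
  rw [Polynomial.sum_X_index Na_nr_zero, Na_nr_one]

theorem B1_nr2_one : nr2 1 = 1 := by
  rw [← Polynomial.C_1, B1_nr2_C, Na_nr_one]

theorem B1_nr2_sub_le (P Q : ℤ[X][X]) : nr2 (P - Q) ≤ nr2 P + nr2 Q := by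
  rw [sub_eq_add_neg, ← nr2_neg Q]
  exact nr2_add_le _ _

theorem B1_nr2_prod_le {ι : Type*} (s : Finset ι) (f : ι → ℤ[X][X]) :
    nr2 (∏ i ∈ s, f i) ≤ ∏ i ∈ s, nr2 (f i) := by
  classical
  induction s using Finset.induction_on with
  | empty =>
    rw [Finset.prod_empty, Finset.prod_empty, B1_nr2_one]
  | insert i s hi ih =>
    rw [Finset.prod_insert hi, Finset.prod_insert hi]
    exact (nr2_mul_le _ _).trans (mul_le_mul_of_nonneg_left ih (nr2_nonneg _))

/-- All coefficients have degree at most `n`. -/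
def B1_Deg (n : ℕ) (P : ℤ[X][X]) : Prop := ∀ k, (P.coeff k).natDegree ≤ n

theorem B1_Deg_mul {n m : ℕ} {P Q : ℤ[X][X]} (hP : B1_Deg n P) (hQ : B1_Deg m Q) :
    B1_Deg (n + m) (P * Q) := by
  intro k
  rw [Polynomial.coeff_mul]
  refine Polynomial.natDegree_sum_le_of_forall_le _ _ fun x _ => ?_
  exact Polynomial.natDegree_mul_le.trans (add_le_add (hP _) (hQ _))

theorem B1_Deg_sum {n : ℕ} {ι : Type*} (s : Finset ι) (f : ι → ℤ[X][X])
    (h : ∀ i ∈ s, B1_Deg n (f i)) : B1_Deg n (∑ i ∈ s, f i) := by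
  intro k
  rw [Polynomial.finsetSum_coeff]
  exact Polynomial.natDegree_sum_le_of_forall_le _ _ fun x hx => h x hx k

theorem B1_Deg_one : B1_Deg 0 1 := by
  intro k
  rw [Polynomial.coeff_one]
  split_ifs <;> simp

theorem B1_Deg_prod {n : ℕ} {ι : Type*} (s : Finset ι) (f : ι → ℤ[X][X])
    (h : ∀ i ∈ s, B1_Deg n (f i)) : B1_Deg (s.card * n) (∏ i ∈ s, f i) := by
  classical
  induction s using Finset.induction_on with
  | empty =>
    rw [Finset.prod_empty, Finset.card_empty, Nat.zero_mul]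
    exact B1_Deg_one
  | insert i s hi ih =>
    rw [Finset.prod_insert hi, Finset.card_insert_of_notMem hi]
    have h1 := B1_Deg_mul (h i (Finset.mem_insert_self i s))
      (ih fun j hj => h j (Finset.mem_insert_of_mem hj))
    have e : (s.card + 1) * n = n + s.card * n := by ring
    rw [e]
    exact h1

theorem B1_Deg_neg {n : ℕ} {P : ℤ[X][X]} (hP : B1_Deg n P) : B1_Deg n (-P) := by
  intro k
  rw [Polynomial.coeff_neg, Polynomial.natDegree_neg]
  exact hP k

theorem B1_unit (u : ℤˣ) (P : ℤ[X][X]) : u • P = P ∨ u • P = -P := by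
  rcases Int.units_eq_one_or u with h | h
  · left
    rw [h, one_smul]
  · right
    rw [h]
    simp [Units.smul_def]

theorem B1_entry {I : Type} [Fintype I] [DecidableEq I] (A : Matrix I I ℤ[X]) (d : ℕ) (R : ℝ)
    (hd : ∀ a b, (A a b).natDegree ≤ d) (hn : ∀ a b, nr (A a b) ≤ R) (a b : I) :
    nr2 (A.charmatrix a b) ≤ R + 1 ∧ B1_Deg d (A.charmatrix a b) := by
  by_cases hab : a = b
  · subst hab
    rw [Matrix.charmatrix_apply_eq]
    constructor
    · refine (B1_nr2_sub_le _ _).trans ?_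
      rw [B1_nr2_X, B1_nr2_C]
      have := hn a a
      linarith
    · intro k
      rw [Polynomial.coeff_sub]
      refine (Polynomial.natDegree_sub_le _ _).trans (max_le ?_ ?_)
      · rw [Polynomial.coeff_X]
        split_ifs <;> simp
      · rw [Polynomial.coeff_C]
        split_ifs
        · exact hd a a
        · simp
  · rw [Matrix.charmatrix_apply_ne _ _ _ hab]
    constructor
    · rw [nr2_neg, B1_nr2_C]
      have := hn a b
      linarith
    · apply B1_Deg_neg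
      intro k
      rw [Polynomial.coeff_C]
      split_ifs
      · exact hd a b
      · simp

theorem B1_char {I : Type} [Fintype I] [DecidableEq I] (A : Matrix I I ℤ[X]) (d : ℕ) (R : ℝ)
    (hd : ∀ a b, (A a b).natDegree ≤ d) (hn : ∀ a b, nr (A a b) ≤ R) :
    nr2 A.charpoly ≤ (Fintype.card I).factorial * (R + 1) ^ Fintype.card I ∧
      B1_Deg (Fintype.card I * d) A.charpoly := by
  unfold Matrix.charpoly
  rw [Matrix.det_apply]
  constructor
  · refine (nr2_sum_le _ _).trans ?_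
    have h1 : ∀ σ : Equiv.Perm I, nr2 (Equiv.Perm.sign σ • ∏ i, A.charmatrix (σ i) i) ≤
        (R + 1) ^ Fintype.card I := by
      intro σ
      have h2 : nr2 (∏ i, A.charmatrix (σ i) i) ≤ (R + 1) ^ Fintype.card I := by
        refine (B1_nr2_prod_le _ _).trans ?_
        refine (Finset.prod_le_prod (fun i _ => nr2_nonneg _)
          (fun i _ => (B1_entry A d R hd hn (σ i) i).1)).trans ?_
        rw [Finset.prod_const, Finset.card_univ]
      rcases B1_unit (Equiv.Perm.sign σ) (∏ i, A.charmatrix (σ i) i) with h3 | h3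
      · rw [h3]
        exact h2
      · rw [h3, nr2_neg]
        exact h2
    refine (Finset.sum_le_sum fun σ _ => h1 σ).trans ?_
    rw [Finset.sum_const, Finset.card_univ, Fintype.card_perm, nsmul_eq_mul]
  · refine B1_Deg_sum _ _ fun σ _ => ?_
    have h2 : B1_Deg (Fintype.card I * d) (∏ i, A.charmatrix (σ i) i) := by
      rw [← Finset.card_univ]
      exact B1_Deg_prod _ _ fun i _ => (B1_entry A d R hd hn (σ i) i).2
    rcases B1_unit (Equiv.Perm.sign σ) (∏ i, A.charmatrix (σ i) i) with h3 | h3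
    · rw [h3]
      exact h2
    · rw [h3]
      exact B1_Deg_neg h2

theorem eigen_lower {I : Type} [Fintype I] [DecidableEq I] (A : Matrix I I ℤ[X]) (d : ℕ) (R : ℝ)
    (hR : 1 ≤ R) (hd : ∀ a b, (A a b).natDegree ≤ d) (hn : ∀ a b, nr (A a b) ≤ R) (J lam : ℂ)
    (v : I → ℂ) (hv : v ≠ 0) (hlam : lam ≠ 0) (hlam1 : ‖lam‖ ≤ 1)
    (he : ∀ a, ∑ b, aeval J (A a b) * v b = lam * v a) :
    ∃ f : ℤ[X], f ≠ 0 ∧ f.natDegree ≤ Fintype.card I * d ∧
      nr f ≤ (Fintype.card I).factorial * (R + 1) ^ Fintype.card I ∧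
      ‖aeval J f‖ ≤ ‖lam‖ * ((Fintype.card I).factorial * (R + 1) ^ Fintype.card I *
        (max 1 ‖J‖) ^ (Fintype.card I * d)) := by
  obtain ⟨h1, h2⟩ := B1_char A d R hd hn
  obtain ⟨χ, hχ⟩ : ∃ χ : ℤ[X][X], χ = A.charpoly := ⟨_, rfl⟩
  rw [← hχ] at h1 h2
  have hmon : χ.Monic := by
    rw [hχ]
    exact Matrix.charpoly_monic A
  have hχ0 : χ ≠ 0 := hmon.ne_zero
  -- the root
  obtain ⟨φ, hφ⟩ : ∃ φ : ℤ[X] →+* ℂ, ∀ p, φ p = aeval J p :=
    ⟨(aeval J : ℤ[X] →ₐ[ℤ] ℂ).toRingHom, fun p => rfl⟩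
  have hroot : χ.eval₂ φ lam = 0 := by
    rw [← Polynomial.eval_map, hχ, ← Matrix.charpoly_map, Matrix.eval_charpoly]
    rw [← Matrix.exists_mulVec_eq_zero_iff]
    refine ⟨v, hv, ?_⟩
    funext a
    rw [Matrix.sub_mulVec]
    simp only [Pi.sub_apply, Pi.zero_apply]
    have e1 : (Matrix.scalar I lam).mulVec v a = lam * v a := by
      rw [Matrix.scalar_apply, Matrix.mulVec_diagonal]
    have e2 : (A.map φ).mulVec v a = ∑ b, aeval J (A a b) * v b := by
      unfold Matrix.mulVec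
      unfold dotProduct
      refine Finset.sum_congr rfl fun b _ => ?_
      show φ (A a b) * v b = _
      rw [hφ]
    have e3 : (φ.mapMatrix A).mulVec v a = (A.map φ).mulVec v a := rfl
    first
      | rw [e1, e3, e2, he, sub_self]
      | rw [e1, e2, he, sub_self]
  obtain ⟨n, hn0⟩ : ∃ n, n = χ.natTrailingDegree := ⟨_, rfl⟩
  have hf0 : χ.coeff n ≠ 0 := by
    rw [hn0]
    exact Polynomial.coeff_natTrailingDegree_ne_zero.2 hχ0
  have hfl : ∀ i, i < n → χ.coeff i = 0 := by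
    intro i hi
    rw [hn0] at hi
    exact Polynomial.coeff_eq_zero_of_lt_natTrailingDegree hi
  have hnd : n ∈ Finset.range (χ.natDegree + 1) := by
    rw [Finset.mem_range, Nat.lt_succ_iff, hn0]
    exact Polynomial.natTrailingDegree_le_natDegree χ
  rw [Polynomial.eval₂_eq_sum_range, ← Finset.add_sum_erase _ _ hnd] at hroot
  have hB : (1 : ℝ) ≤ max 1 ‖J‖ := le_max_left _ _
  have hl0 : 0 < ‖lam‖ := norm_pos_iff.2 hlam
  refine ⟨χ.coeff n, hf0, h2 n, (nr_coeff_le_nr2 χ n).trans h1, ?_⟩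
  have hterm : ∀ i ∈ (Finset.range (χ.natDegree + 1)).erase n,
      ‖φ (χ.coeff i) * lam ^ i‖ ≤
        nr (χ.coeff i) * ((max 1 ‖J‖) ^ (Fintype.card I * d) * ‖lam‖ ^ (n + 1)) := by
    intro i hi
    have hin : i ≠ n := (Finset.mem_erase.1 hi).1
    rcases lt_or_ge i n with h3 | h3
    · rw [hfl i h3, map_zero, zero_mul, norm_zero, Na_nr_zero, zero_mul]
    · have h4 : n + 1 ≤ i := by omega
      rw [norm_mul, norm_pow, ← mul_assoc]
      refine mul_le_mul ?_ (pow_le_pow_of_le_one (norm_nonneg _) hlam1 h4) (by positivity)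
        (mul_nonneg (nr_nonneg _) (by positivity))
      rw [hφ]
      refine (norm_aeval_le _ J _ hB (le_max_right _ _)).trans ?_
      exact mul_le_mul_of_nonneg_left (pow_le_pow_right₀ hB (h2 i)) (nr_nonneg _)
  have h5 : ‖φ (χ.coeff n) * lam ^ n‖ ≤
      nr2 χ * ((max 1 ‖J‖) ^ (Fintype.card I * d) * ‖lam‖ ^ (n + 1)) := by
    have h6 : φ (χ.coeff n) * lam ^ n =
        -∑ i ∈ (Finset.range (χ.natDegree + 1)).erase n, φ (χ.coeff i) * lam ^ i := by
      linear_combination hroot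
    rw [h6, norm_neg]
    refine (norm_sum_le _ _).trans ((Finset.sum_le_sum hterm).trans ?_)
    rw [← Finset.sum_mul]
    exact mul_le_mul_of_nonneg_right (sum_nr_coeff_le_nr2 χ _) (by positivity)
  rw [norm_mul, norm_pow, hφ] at h5
  have h7 : ‖aeval J (χ.coeff n)‖ * ‖lam‖ ^ n ≤
      (‖lam‖ * (nr2 χ * (max 1 ‖J‖) ^ (Fintype.card I * d))) * ‖lam‖ ^ n := by
    refine h5.trans (le_of_eq ?_)
    ring
  have h8 := le_of_mul_le_mul_right h7 (by positivity)
  refine h8.trans ?_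
  exact mul_le_mul_of_nonneg_left (mul_le_mul_of_nonneg_right h1 (by positivity)) hl0.le

end AO
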