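import Pool.Agent.H32.CZ.N0
import Pool.Agent.H32.CZ.Na

/-!
# MP_ede373, orbits of algebraic points, row B2: the companion matrix and its powers

`w` is a root of `∑_{i ≤ M} r_i(J) w^i`, `r_M = c` constant. `u = c w` satisfies
`u^M + ∑_{i < M} r_i(J) c^(M-1-i) u^i = 0` (multiply by `c^(M-1)`, `M ≥ 1`). Companion matrix `K` over `ℤ[X]`, index `Fin M`:
`K a b = 1` if `a + 1 < M`, `b = a + 1`; `K (M-1) b = - r_b C(c)^(M-1-b)`; otherwise `0`. Then
`∑_b K(J) a b u^b = u u^a` for all `a`. Entries: degree `≤ d`, `nr ≤ T := Bn (1 + |c|)^M` if `1 ≤ Bn`, `nr r_i ≤ Bn`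
(`nr (f * C c^k) ≤ nr f |c|^k`). Powers: by induction on `e`, `∑_b (K^e)(J) a b u^b = u^e u^a`,
`natDegree (K^e a b) ≤ e d`, `nr (K^e a b) ≤ (M T)^e` (`M T ≥ 1`; for `e = 0` the entries are `0` or `1`).
Take `Ke = K ^ e`; the statement is given as a family `K : ℕ → Matrix ..`.
-/

set_option autoImplicit false

namespace AO

open CZ Polynomial

private theorem B2_nr_C (z : ℤ) : nr (C z) = |(z : ℝ)| := by
  unfold nr
  rw [Polynomial.sum_C_index (by simp)]

/-- the companion matrix -/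
private noncomputable def B2_K (M : ℕ) (r : ℕ → ℤ[X]) (c : ℤ) : Matrix (Fin M) (Fin M) ℤ[X] :=
  fun a b => if (a : ℕ) + 1 < M then (if (b : ℕ) = a + 1 then 1 else 0)
    else -(r b * C (c ^ (M - 1 - (b : ℕ))))

theorem companion_pow {M : ℕ} (hM : 0 < M) (J w : ℂ) (r : ℕ → ℤ[X]) (c : ℤ) (hc : r M = C c)
    (hrel : ∑ i ∈ Finset.range (M + 1), aeval J (r i) * w ^ i = 0) (d : ℕ) (Bn : ℝ)
    (hB : 1 ≤ Bn) (hd : ∀ i, (r i).natDegree ≤ d) (hn : ∀ i, nr (r i) ≤ Bn) :
    ∃ K : ℕ → Matrix (Fin M) (Fin M) ℤ[X],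
      (∀ e a, ∑ b : Fin M, aeval J (K e a b) * ((c : ℂ) * w) ^ (b : ℕ) =
        ((c : ℂ) * w) ^ e * ((c : ℂ) * w) ^ (a : ℕ)) ∧
      (∀ e a b, (K e a b).natDegree ≤ e * d) ∧
      (∀ e a b, nr (K e a b) ≤ (M * (Bn * (1 + |(c : ℝ)|) ^ M)) ^ e) := by
  classical
  have habs : 0 ≤ |(c : ℝ)| := abs_nonneg _
  have hT1 : (1 : ℝ) ≤ Bn * (1 + |(c : ℝ)|) ^ M := by
    have : (1 : ℝ) ≤ (1 + |(c : ℝ)|) ^ M := one_le_pow₀ (by linarith)
    nlinarith
  -- the relation for `u = c w`
  have hu : ((c : ℂ) * w) ^ M + ∑ b : Fin M,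
      aeval J (r b) * (c : ℂ) ^ (M - 1 - (b : ℕ)) * ((c : ℂ) * w) ^ (b : ℕ) = 0 := by
    have h1 : ∑ b : Fin M, aeval J (r b) * (c : ℂ) ^ (M - 1 - (b : ℕ)) * ((c : ℂ) * w) ^ (b : ℕ)
        = (c : ℂ) ^ (M - 1) * ∑ i ∈ Finset.range M, aeval J (r i) * w ^ i := by
      rw [Finset.mul_sum, ← Fin.sum_univ_eq_sum_range
        (fun i => (c : ℂ) ^ (M - 1) * (aeval J (r i) * w ^ i))]
      refine Finset.sum_congr rfl fun b _ => ?_
      have hb : (b : ℕ) ≤ M - 1 := by have := b.2; omega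
      have h2 : (c : ℂ) ^ (M - 1) = (c : ℂ) ^ (M - 1 - (b : ℕ)) * (c : ℂ) ^ (b : ℕ) := by
        rw [← pow_add, Nat.sub_add_cancel hb]
      rw [h2, mul_pow]
      ring
    have h3 : ((c : ℂ) * w) ^ M = (c : ℂ) ^ (M - 1) * (aeval J (r M) * w ^ M) := by
      have h4 : (c : ℂ) ^ M = (c : ℂ) ^ (M - 1) * c := by
        rw [← pow_succ, Nat.sub_add_cancel hM]
      rw [hc, mul_pow, h4]
      simp
      ring
    rw [h1, h3, ← mul_add, add_comm, ← Finset.sum_range_succ, hrel, mul_zero]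
  have hK : ∀ a : Fin M, ∑ b : Fin M, aeval J (B2_K M r c a b) * ((c : ℂ) * w) ^ (b : ℕ) =
      ((c : ℂ) * w) * ((c : ℂ) * w) ^ (a : ℕ) := by
    intro a
    by_cases ha : (a : ℕ) + 1 < M
    · rw [Finset.sum_eq_single (⟨(a : ℕ) + 1, ha⟩ : Fin M)]
      · have : B2_K M r c a ⟨(a : ℕ) + 1, ha⟩ = 1 := by
          unfold B2_K
          rw [if_pos ha, if_pos rfl]
        rw [this, map_one, one_mul]
        show ((c : ℂ) * w) ^ ((a : ℕ) + 1) = _
        rw [pow_succ']
      · intro b _ hb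
        have : B2_K M r c a b = 0 := by
          unfold B2_K
          rw [if_pos ha, if_neg]
          intro h
          exact hb (Fin.ext h)
        rw [this, map_zero, zero_mul]
      · intro h
        exact absurd (Finset.mem_univ _) h
    · have haM : (a : ℕ) + 1 = M := by have := a.2; omega
      have h1 : ∀ b : Fin M, aeval J (B2_K M r c a b) * ((c : ℂ) * w) ^ (b : ℕ) =
          -(aeval J (r b) * (c : ℂ) ^ (M - 1 - (b : ℕ)) * ((c : ℂ) * w) ^ (b : ℕ)) := by
        intro b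
        unfold B2_K
        rw [if_neg ha]
        simp
      rw [Finset.sum_congr rfl fun b _ => h1 b, Finset.sum_neg_distrib, ← pow_succ', haM]
      exact (eq_neg_of_add_eq_zero_left hu).symm
  have hKd : ∀ a b, (B2_K M r c a b).natDegree ≤ d := by
    intro a b
    unfold B2_K
    split_ifs
    · simp
    · simp
    · rw [natDegree_neg]
      refine natDegree_mul_le.trans ?_
      rw [natDegree_C, add_zero]
      exact hd _
  have hKn : ∀ a b, nr (B2_K M r c a b) ≤ Bn * (1 + |(c : ℝ)|) ^ M := by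
    intro a b
    unfold B2_K
    split_ifs
    · rw [Na_nr_one]
      exact hT1
    · rw [Na_nr_zero]
      exact zero_le_one.trans hT1
    · rw [nr_neg]
      refine (nr_mul_le _ _).trans ?_
      rw [B2_nr_C]
      refine mul_le_mul (hn _) ?_ (abs_nonneg _) (zero_le_one.trans hB)
      rw [Int.cast_pow, abs_pow]
      refine (pow_le_pow_left₀ habs (by linarith : |(c : ℝ)| ≤ 1 + |(c : ℝ)|) _).trans ?_
      exact pow_le_pow_right₀ (by linarith) (by have := b.2; omega)
  refine ⟨fun e => B2_K M r c ^ e, ?_, ?_, ?_⟩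
  · intro e
    induction e with
    | zero =>
      intro a
      simp only [pow_zero, one_mul]
      rw [Finset.sum_eq_single a]
      · rw [Matrix.one_apply_eq, map_one, one_mul]
      · intro b _ hb
        rw [Matrix.one_apply_ne (Ne.symm hb), map_zero, zero_mul]
      · intro h
        exact absurd (Finset.mem_univ _) h
    | succ e ih =>
      intro a
      have h1 : ∀ b : Fin M, aeval J ((B2_K M r c ^ (e + 1)) a b) * ((c : ℂ) * w) ^ (b : ℕ) =
          ∑ k : Fin M, aeval J ((B2_K M r c ^ e) a k) *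
            (aeval J (B2_K M r c k b) * ((c : ℂ) * w) ^ (b : ℕ)) := by
        intro b
        rw [pow_succ, Matrix.mul_apply, map_sum, Finset.sum_mul]
        refine Finset.sum_congr rfl fun k _ => ?_
        rw [map_mul, mul_assoc]
      show ∑ b : Fin M, aeval J ((B2_K M r c ^ (e + 1)) a b) * ((c : ℂ) * w) ^ (b : ℕ) = _
      rw [Finset.sum_congr rfl fun b _ => h1 b, Finset.sum_comm]
      have h2 : ∀ k : Fin M, ∑ b : Fin M, aeval J ((B2_K M r c ^ e) a k) *
            (aeval J (B2_K M r c k b) * ((c : ℂ) * w) ^ (b : ℕ)) =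
          ((c : ℂ) * w) * (aeval J ((B2_K M r c ^ e) a k) * ((c : ℂ) * w) ^ (k : ℕ)) := by
        intro k
        rw [← Finset.mul_sum, hK k]
        ring
      rw [Finset.sum_congr rfl fun k _ => h2 k, ← Finset.mul_sum, ih a, pow_succ']
      ring
  · intro e
    induction e with
    | zero =>
      intro a b
      simp only [pow_zero, zero_mul]
      rw [Matrix.one_apply]
      split_ifs <;> simp
    | succ e ih =>
      intro a b
      show ((B2_K M r c ^ (e + 1)) a b).natDegree ≤ _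
      rw [pow_succ, Matrix.mul_apply]
      refine natDegree_sum_le_of_forall_le _ _ fun k _ => ?_
      refine natDegree_mul_le.trans ?_
      have h1 := ih a k
      have h2 := hKd k b
      calc _ ≤ e * d + d := add_le_add h1 h2
        _ = (e + 1) * d := by ring
  · intro e
    induction e with
    | zero =>
      intro a b
      simp only [pow_zero]
      rw [Matrix.one_apply]
      split_ifs
      · rw [Na_nr_one]
      · rw [Na_nr_zero]
        exact zero_le_one
    | succ e ih =>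
      intro a b
      show nr ((B2_K M r c ^ (e + 1)) a b) ≤ _
      rw [pow_succ, Matrix.mul_apply]
      refine (nr_sum_le _ _).trans ?_
      have hMT : (0 : ℝ) ≤ (M * (Bn * (1 + |(c : ℝ)|) ^ M)) ^ e := by positivity
      have h1 : ∀ k ∈ (Finset.univ : Finset (Fin M)), nr ((B2_K M r c ^ e) a k * B2_K M r c k b) ≤
          (M * (Bn * (1 + |(c : ℝ)|) ^ M)) ^ e * (Bn * (1 + |(c : ℝ)|) ^ M) := by
        intro k _
        refine (nr_mul_le _ _).trans ?_
        exact mul_le_mul (ih a k) (hKn k b) (nr_nonneg _) hMT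
      refine (Finset.sum_le_card_nsmul _ _ _ h1).trans ?_
      rw [Finset.card_univ, Fintype.card_fin, nsmul_eq_mul, pow_succ]
      apply le_of_eq
      ring

end AO
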