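import Pool.Agent.H32.AO.B2
import Pool.Agent.H32.T3.Ht

/-!
# MP_ede373, orbits of algebraic points, row B3: the Kronecker product

`K j : ℕ → Matrix (Fin M) (Fin M) ℤ[X]` from `companion_pow` for `w j, R j, c j`. `u_j = c_j w_j`, `Dg = totalDegree G`.
Index `a : Fin r → Fin M`, `v a = ∏_j u_j^(a j)` (`v 0 = 1`, so `v ≠ 0`),
`A a b = ∑_{e ∈ support G} C (coeff e G) X^(e (inr ())) ∏_j (C (c_j^(Dg - e (inl j))) K j (e (inl j)) (a j) (b j))`.
Eigenvector: for fixed `e`, `∑_b ∏_j K_j(e_j)(a_j, b_j)(J) u_j^(b_j) = ∏_j ∑_{b_j} .. = ∏_j u_j^(e_j) u_j^(a_j)`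
(`Finset.prod_univ_sum`, `Fintype.piFinset_univ`), and `∏_j c_j^(Dg - e_j) u_j^(e_j) = ∏_j c_j^Dg w_j^(e_j)` as
`e_j ≤ Dg` (`MvPolynomial.le_totalDegree`, `Finset.single_le_sum`), so the sum over `e` is `(∏ c_j)^Dg G(w, J) v a`
(`MvPolynomial.aeval_def`, `eval₂_eq'`: `∑_{e} coeff ∏_{i} x_i^(e i)`, `Fintype.prod_sum_type`).
Degree: `natDegree ≤ e_Y + ∑_j e_j d ≤ Dg (d + 1)` (`e_Y ≤ Dg`, `∑_j e_j ≤ Dg`). Norm: with
`T = M (Bn (1 + Bn)^M) ≥ 1`, `nr (K_j(e_j) ..) ≤ T^(e_j)` (`|c_j| ≤ Bn`), `∏_j T^(e_j) ≤ T^Dg`,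
`∏_j |c_j|^(Dg - e_j) ≤ (1 + Bn)^(r Dg)`, `∑_e |coeff e G| = nrm G` (`H32.T3.nrm`).
`nr`: `nr_mul_le`, `nr_sum_le`, `nr_prod_le`, `nr (C a) = |a|`, `nr (X^l) = 1` in `Pool/Agent/H32/CZ/Na.lean`.
-/

set_option autoImplicit false

namespace AO

open CZ Polynomial
open H32.T3 (nrm)

private theorem B3_nr_C (a : ℤ) : nr (C a) = |(a : ℝ)| := by
  unfold nr
  rw [Polynomial.sum_C_index (by simp)]

private theorem B3_nr_Xpow (l : ℕ) : nr (X ^ l : ℤ[X]) = 1 := by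
  have h : (X ^ l : ℤ[X]) = monomial l 1 := by rw [Polynomial.monomial_one_right_eq_X_pow]
  unfold nr
  rw [h, Polynomial.sum_monomial_index _ _ (by simp)]
  simp

/-- Degrees of a monomial of `G`. -/
private theorem B3_deg {r : ℕ} (G : MvPolynomial (Fin r ⊕ Unit) ℤ) {e : (Fin r ⊕ Unit) →₀ ℕ}
    (he : e ∈ G.support) : ∑ j, e (Sum.inl j) + e (Sum.inr ()) ≤ G.totalDegree := by
  have h := MvPolynomial.le_totalDegree he
  rw [Finsupp.sum_fintype _ _ (fun _ => rfl), Fintype.sum_sum_type] at h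
  simpa using h

private theorem B3_degj {r : ℕ} (G : MvPolynomial (Fin r ⊕ Unit) ℤ) {e : (Fin r ⊕ Unit) →₀ ℕ}
    (he : e ∈ G.support) (j : Fin r) : e (Sum.inl j) ≤ G.totalDegree := by
  have h := B3_deg G he
  have h2 : e (Sum.inl j) ≤ ∑ j, e (Sum.inl j) :=
    Finset.single_le_sum (f := fun j => e (Sum.inl j)) (fun _ _ => Nat.zero_le _)
      (Finset.mem_univ j)
  omega

/-- The matrix. -/
private noncomputable def B3_A {r M : ℕ} (c : Fin r → ℤ)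
    (K : Fin r → ℕ → Matrix (Fin M) (Fin M) ℤ[X]) (G : MvPolynomial (Fin r ⊕ Unit) ℤ) :
    Matrix (Fin r → Fin M) (Fin r → Fin M) ℤ[X] :=
  fun a b => ∑ e ∈ G.support, C (G.coeff e) * X ^ (e (Sum.inr ())) *
    ∏ j, (C (c j ^ (G.totalDegree - e (Sum.inl j))) * K j (e (Sum.inl j)) (a j) (b j))

private theorem B3_eig {r M : ℕ} (J : ℂ) (w : Fin r → ℂ)
    (c : Fin r → ℤ) (K : Fin r → ℕ → Matrix (Fin M) (Fin M) ℤ[X])
    (hK : ∀ j e a, ∑ b : Fin M, aeval J (K j e a b) * ((c j : ℂ) * w j) ^ (b : ℕ) =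
        ((c j : ℂ) * w j) ^ e * ((c j : ℂ) * w j) ^ (a : ℕ))
    (G : MvPolynomial (Fin r ⊕ Unit) ℤ) (a : Fin r → Fin M) :
    ∑ b, aeval J (B3_A c K G a b) * ∏ j, ((c j : ℂ) * w j) ^ (b j : ℕ) =
      ((∏ j, (c j : ℂ)) ^ G.totalDegree *
        MvPolynomial.aeval (Sum.elim w fun _ ↦ J) G) * ∏ j, ((c j : ℂ) * w j) ^ (a j : ℕ) := by
  have h1 : ∀ b : Fin r → Fin M, aeval J (B3_A c K G a b) * ∏ j, ((c j : ℂ) * w j) ^ (b j : ℕ) =
      ∑ e ∈ G.support, (((G.coeff e : ℤ) : ℂ) * J ^ (e (Sum.inr ()))) *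
        ∏ j, ((c j : ℂ) ^ (G.totalDegree - e (Sum.inl j)) *
          (aeval J (K j (e (Sum.inl j)) (a j) (b j)) * ((c j : ℂ) * w j) ^ (b j : ℕ))) := by
    intro b
    unfold B3_A
    rw [map_sum, Finset.sum_mul]
    refine Finset.sum_congr rfl fun e _ => ?_
    rw [map_mul, map_mul, map_prod, map_pow, aeval_X, aeval_C, mul_assoc,
      ← Finset.prod_mul_distrib]
    congr 1
    refine Finset.prod_congr rfl fun j _ => ?_
    rw [map_mul, aeval_C, mul_assoc]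
    simp
  rw [Finset.sum_congr rfl fun b _ => h1 b, Finset.sum_comm]
  have h2 : ∀ e ∈ G.support, ∑ b : Fin r → Fin M, (((G.coeff e : ℤ) : ℂ) * J ^ (e (Sum.inr ()))) *
        ∏ j, ((c j : ℂ) ^ (G.totalDegree - e (Sum.inl j)) *
          (aeval J (K j (e (Sum.inl j)) (a j) (b j)) * ((c j : ℂ) * w j) ^ (b j : ℕ))) =
      (∏ j, (c j : ℂ)) ^ G.totalDegree * (((G.coeff e : ℤ) : ℂ) *
        ((∏ j, w j ^ e (Sum.inl j)) * J ^ (e (Sum.inr ())))) *
          ∏ j, ((c j : ℂ) * w j) ^ (a j : ℕ) := by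
    intro e he
    rw [← Finset.mul_sum]
    have h3 := (Finset.prod_univ_sum (fun _ : Fin r => (Finset.univ : Finset (Fin M)))
      (fun j b => (c j : ℂ) ^ (G.totalDegree - e (Sum.inl j)) *
          (aeval J (K j (e (Sum.inl j)) (a j) b) * ((c j : ℂ) * w j) ^ (b : ℕ))))
    rw [Fintype.piFinset_univ] at h3
    rw [← h3]
    have h4 : ∀ j, ∑ b : Fin M, (c j : ℂ) ^ (G.totalDegree - e (Sum.inl j)) *
          (aeval J (K j (e (Sum.inl j)) (a j) b) * ((c j : ℂ) * w j) ^ (b : ℕ)) =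
        (c j : ℂ) ^ G.totalDegree * w j ^ e (Sum.inl j) * ((c j : ℂ) * w j) ^ (a j : ℕ) := by
      intro j
      rw [← Finset.mul_sum, hK, mul_pow (c j : ℂ) (w j) (e (Sum.inl j))]
      have h5 : (c j : ℂ) ^ G.totalDegree = (c j : ℂ) ^ (G.totalDegree - e (Sum.inl j)) *
          (c j : ℂ) ^ e (Sum.inl j) := by
        rw [← pow_add, Nat.sub_add_cancel (B3_degj G he j)]
      rw [h5]
      ring
    rw [Finset.prod_congr rfl fun j _ => h4 j, Finset.prod_mul_distrib, Finset.prod_mul_distrib,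
      Finset.prod_pow]
    ring
  rw [Finset.sum_congr rfl h2, ← Finset.sum_mul, ← Finset.mul_sum]
  congr 2
  rw [MvPolynomial.aeval_def, MvPolynomial.eval₂_eq']
  refine Finset.sum_congr rfl fun e _ => ?_
  rw [Fintype.prod_sum_type]
  simp

private theorem B3_natDegree {r M : ℕ} (c : Fin r → ℤ)
    (K : Fin r → ℕ → Matrix (Fin M) (Fin M) ℤ[X]) (d : ℕ)
    (hK : ∀ j e a b, (K j e a b).natDegree ≤ e * d)
    (G : MvPolynomial (Fin r ⊕ Unit) ℤ) (a b : Fin r → Fin M) :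
    (B3_A c K G a b).natDegree ≤ G.totalDegree * (d + 1) := by
  unfold B3_A
  refine Polynomial.natDegree_sum_le_of_forall_le _ _ fun e he => ?_
  refine Polynomial.natDegree_mul_le.trans ?_
  have h1 : (C (G.coeff e) * X ^ (e (Sum.inr ())) : ℤ[X]).natDegree ≤ e (Sum.inr ()) :=
    Polynomial.natDegree_C_mul_X_pow_le _ _
  have h2 : (∏ j, (C (c j ^ (G.totalDegree - e (Sum.inl j))) *
      K j (e (Sum.inl j)) (a j) (b j))).natDegree ≤ ∑ j, e (Sum.inl j) * d := by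
    refine (Polynomial.natDegree_prod_le _ _).trans (Finset.sum_le_sum fun j _ => ?_)
    exact (Polynomial.natDegree_C_mul_le _ _).trans (hK _ _ _ _)
  rw [← Finset.sum_mul] at h2
  have h3 := B3_deg G he
  have h4 : (∑ j, e (Sum.inl j)) * d ≤ G.totalDegree * d :=
    Nat.mul_le_mul_right _ (by omega)
  have h5 : e (Sum.inr ()) ≤ G.totalDegree := by omega
  rw [mul_add, mul_one]
  omega

private theorem B3_norm {r M : ℕ} (hM : 0 < M) (c : Fin r → ℤ)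
    (K : Fin r → ℕ → Matrix (Fin M) (Fin M) ℤ[X]) (Bn : ℝ) (hB : 1 ≤ Bn)
    (hcB : ∀ j, |(c j : ℝ)| ≤ Bn)
    (hK : ∀ j e a b, nr (K j e a b) ≤ (M * (Bn * (1 + |(c j : ℝ)|) ^ M)) ^ e)
    (G : MvPolynomial (Fin r ⊕ Unit) ℤ) (a b : Fin r → Fin M) :
    nr (B3_A c K G a b) ≤ nrm G *
        (M * (Bn * (1 + Bn) ^ M) * (1 + Bn) ^ r) ^ G.totalDegree := by
  have hM1 : (1 : ℝ) ≤ M := by exact_mod_cast hM
  have hT : (1 : ℝ) ≤ M * (Bn * (1 + Bn) ^ M) := by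
    have h1 : (1 : ℝ) ≤ (1 + Bn) ^ M := one_le_pow₀ (by linarith)
    exact one_le_mul_of_one_le_of_one_le hM1 (one_le_mul_of_one_le_of_one_le hB h1)
  set T : ℝ := M * (Bn * (1 + Bn) ^ M) with hTdef
  unfold B3_A
  refine (nr_sum_le _ _).trans ?_
  rw [nrm, Finset.sum_mul]
  refine Finset.sum_le_sum fun e he => ?_
  refine (nr_mul_le _ _).trans ?_
  have h1 : nr (C (G.coeff e) * X ^ (e (Sum.inr ())) : ℤ[X]) ≤ |((G.coeff e : ℤ) : ℝ)| := by
    refine (nr_mul_le _ _).trans ?_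
    rw [B3_nr_C, B3_nr_Xpow, mul_one]
  have h2 : nr (∏ j, (C (c j ^ (G.totalDegree - e (Sum.inl j))) *
      K j (e (Sum.inl j)) (a j) (b j))) ≤ (T * (1 + Bn) ^ r) ^ G.totalDegree := by
    have h3 : ∀ j, nr (C (c j ^ (G.totalDegree - e (Sum.inl j))) *
        K j (e (Sum.inl j)) (a j) (b j)) ≤ (1 + Bn) ^ G.totalDegree * T ^ e (Sum.inl j) := by
      intro j
      refine (nr_mul_le _ _).trans ?_
      refine mul_le_mul ?_ ?_ (nr_nonneg _) (by positivity)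
      · rw [B3_nr_C, Int.cast_pow, abs_pow]
        calc |(c j : ℝ)| ^ (G.totalDegree - e (Sum.inl j))
            ≤ (1 + Bn) ^ (G.totalDegree - e (Sum.inl j)) :=
              pow_le_pow_left₀ (abs_nonneg _) (by linarith [hcB j]) _
          _ ≤ (1 + Bn) ^ G.totalDegree := pow_le_pow_right₀ (by linarith) (Nat.sub_le _ _)
      · refine (hK _ _ _ _).trans (pow_le_pow_left₀ ?_ ?_ _)
        · positivity
        · rw [hTdef]
          have := hcB j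
          gcongr
    clear_value T
    refine (nr_prod_le _ _).trans ?_
    refine (Finset.prod_le_prod (fun j _ => nr_nonneg _) (fun j _ => h3 j)).trans ?_
    rw [Finset.prod_mul_distrib, Finset.prod_const, Finset.card_univ, Fintype.card_fin,
      Finset.prod_pow_eq_pow_sum, mul_pow, mul_comm, ← pow_mul, ← pow_mul,
      mul_comm r G.totalDegree]
    refine mul_le_mul_of_nonneg_right ?_ (by positivity)
    exact pow_le_pow_right₀ hT (by have := B3_deg G he; omega)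
  exact mul_le_mul h1 h2 (nr_nonneg _) (abs_nonneg _)

theorem kron {r M : ℕ} (hM : 0 < M) (J : ℂ) (w : Fin r → ℂ) (R : Fin r → ℕ → ℤ[X])
    (c : Fin r → ℤ) (hc : ∀ j, R j M = C (c j))
    (hrel : ∀ j, ∑ i ∈ Finset.range (M + 1), aeval J (R j i) * w j ^ i = 0) (d : ℕ) (Bn : ℝ)
    (hB : 1 ≤ Bn) (hd : ∀ j i, (R j i).natDegree ≤ d) (hn : ∀ j i, nr (R j i) ≤ Bn)
    (hcB : ∀ j, |(c j : ℝ)| ≤ Bn) (G : MvPolynomial (Fin r ⊕ Unit) ℤ) :
    ∃ (A : Matrix (Fin r → Fin M) (Fin r → Fin M) ℤ[X]) (v : (Fin r → Fin M) → ℂ), v ≠ 0 ∧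
      (∀ a, ∑ b, aeval J (A a b) * v b = ((∏ j, (c j : ℂ)) ^ G.totalDegree *
        MvPolynomial.aeval (Sum.elim w fun _ ↦ J) G) * v a) ∧
      (∀ a b, (A a b).natDegree ≤ G.totalDegree * (d + 1)) ∧
      (∀ a b, nr (A a b) ≤ nrm G *
        (M * (Bn * (1 + Bn) ^ M) * (1 + Bn) ^ r) ^ G.totalDegree) := by
  choose K hK1 hK2 hK3 using fun j => companion_pow hM J (w j) (R j) (c j) (hc j) (hrel j) d Bn hB
    (hd j) (hn j)
  refine ⟨B3_A c K G, fun a => ∏ j, ((c j : ℂ) * w j) ^ (a j : ℕ), ?_, ?_, ?_, ?_⟩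
  · intro h
    have h1 := congrFun h (fun _ => ⟨0, hM⟩)
    simp at h1
  · exact fun a => B3_eig J w c K hK1 G a
  · exact fun a b => B3_natDegree c K d hK2 G a b
  · exact fun a b => B3_norm hM c K Bn hB hcB hK3 G a b

end AO
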