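import Pool.Agent.H32.AO.Ob

/-!
# MP_ede373, orbits of algebraic points: the family of numbers

For `S : Orb m n 1` (one base point `y = S.y 0`) and parameters `s`: with `δ = dt_i(s)` (determinant),
`η = den_i(s)` (denominator), `φ = φ_i(s)` (the translate):
`RW = ((δ/η)^4 e4(φ) e4(y)^2 / Δ(y), (δ/η)^6 e6(φ) e6(y) / Δ(y), ((δ/η)^2 e2(φ) - δ e2(y) + 6 i δ C / (π η)) e4(y) e6(y) / Δ(y))`.
-/

set_option autoImplicit false

open UpperHalfPlane hiding I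
open Complex EisensteinSeries ModularForm MatrixGroups Manifold
open scoped Real Topology
open MvPolynomial Filter

namespace AO

open H32 H32.T3 H32.T4

/-- The three numbers attached to each translate. -/
noncomputable def RW {m n : ℕ} (S : Orb m n 1) (s : Fin m → ℂ) (p : Fin n × Fin 3) : ℂ :=
  (![(aeval s (S.dt p.1) / S.den p.1 s) ^ 4 * e4 (S.φ p.1 s) * e4 (S.y 0 : ℂ) ^ 2 /
        discriminant (S.y 0),
    (aeval s (S.dt p.1) / S.den p.1 s) ^ 6 * e6 (S.φ p.1 s) * e6 (S.y 0 : ℂ) /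
        discriminant (S.y 0),
    ((aeval s (S.dt p.1) / S.den p.1 s) ^ 2 * e2 (S.φ p.1 s) - aeval s (S.dt p.1) * e2 (S.y 0 : ℂ) +
        6 * Complex.I * aeval s (S.dt p.1) * aeval s (S.pC p.1) / (π * S.den p.1 s)) *
      (e4 (S.y 0 : ℂ) * e6 (S.y 0 : ℂ)) / discriminant (S.y 0)] : Fin 3 → ℂ) p.2

/-- The family with the parameters. -/
noncomputable def WF {m n : ℕ} (S : Orb m n 1) (s : Fin m → ℂ) : (Fin n × Fin 3) ⊕ Fin m → ℂ :=
  Sum.elim (RW S s) s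

/-- no `φ_i` is rationally equivalent to the base point -/
def NE0 {m n : ℕ} (S : Orb m n 1) : Prop :=
  ∀ i, ¬ ∃ a b c d : ℚ, 0 < a * d - b * c ∧
    S.φ i S.x = ((a : ℂ) * (S.y 0 : ℂ) + b) / ((c : ℂ) * (S.y 0 : ℂ) + d)

/-- the `φ_i` are pairwise inequivalent -/
def NE1 {m n : ℕ} (S : Orb m n 1) : Prop :=
  ∀ i j, i ≠ j → ¬ ∃ a b c d : ℚ, 0 < a * d - b * c ∧
    S.φ j S.x = ((a : ℂ) * S.φ i S.x + b) / ((c : ℂ) * S.φ i S.x + d)

lemma c_eq {m n : ℕ} (S : Orb m n 1) (i : Fin n) : S.c i = 0 := Subsingleton.elim _ _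

end AO
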