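import Pool.Agent.H32.AO.C0

/-!
# MP_ede373, orbits of algebraic points, row C1: the family at rational parameters

`C, ε` from `Orb.near`, `D ≥` all total degrees of `pA i, pB i, pC i, pD i`, `D ≥ 1` (sum of all of them plus `1`).
For `q ≥ 1` and `p` near: `Orb.entries` gives integers `a, b, c, d` equal to `q^D` times the values of `pA, pB, pC, pD`
at `p / q`, of absolute value `≤ C q^D`. `N = a d - b c` (as a natural number: positive because it is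
`q^(2D) dt(p/q)`), `N ≤ 2 C^2 q^(2D)`, `(N : ℂ) = q^(2D) dt`, `c y + d = q^D den`. `τ'` is the point `φ_i(p/q)` of the upper
half-plane (`im_mobC`, or `Orb.real_pos`), `(a y + b) / (c y + d) = φ_i(p/q)` (`mul_div_mul_left`).
`N / (c y + d) = q^D dt / den`. First two formulas: `e4 τ' = E₄ τ'` (`e4, ofComplex_apply`). Third:
`E2s τ = E2 τ - 3 / (π im τ)` and `im_key`:
`(N/(cy+d))^2 E2s τ' - N E2s y = (N/(cy+d))^2 E2 τ' - N E2 y + 6 I N c / (π (c y + d))` (see the proof of `orb_formula` in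
`Pool/Agent/H32/T5/Y1.lean`), and `N c / (c y + d) = q^(2D) dt C / den`.
-/

set_option autoImplicit false

open UpperHalfPlane hiding I
open Complex EisensteinSeries ModularForm MatrixGroups Manifold
open scoped Real Topology
open MvPolynomial Filter

namespace AO

open H32 H32.T3 H32.T4

private lemma C1_formulas {m n : ℕ} (S : Orb m n 1) (i : Fin n) (σ : Fin m → ℂ) {q D : ℕ}
    (hq : (q : ℂ) ≠ 0) {a b c d : ℤ} {N : ℕ} (hN : 0 < N) (hdet : (N : ℤ) = a * d - b * c)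
    (τ' : ℍ) (hτ : (τ' : ℂ) = S.φ i σ)
    (ha : (a : ℂ) = (q : ℂ) ^ D * aeval σ (S.pA i)) (hb : (b : ℂ) = (q : ℂ) ^ D * aeval σ (S.pB i))
    (hc : (c : ℂ) = (q : ℂ) ^ D * aeval σ (S.pC i))
    (hd : (d : ℂ) = (q : ℂ) ^ D * aeval σ (S.pD i)) :
    (τ' : ℂ) = (a * (S.y 0 : ℂ) + b) / (c * (S.y 0 : ℂ) + d) ∧
        RW S σ (i, 0) * (q : ℂ) ^ (4 * D) =
          ((N : ℂ) / (c * (S.y 0 : ℂ) + d)) ^ 4 * E₄ τ' * E₄ (S.y 0) ^ 2 /
            discriminant (S.y 0) ∧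
        RW S σ (i, 1) * (q : ℂ) ^ (6 * D) =
          ((N : ℂ) / (c * (S.y 0 : ℂ) + d)) ^ 6 * E₆ τ' * E₆ (S.y 0) / discriminant (S.y 0) ∧
        RW S σ (i, 2) * (q : ℂ) ^ (2 * D) =
          (((N : ℂ) / (c * (S.y 0 : ℂ) + d)) ^ 2 * E2s τ' - N * E2s (S.y 0)) *
            (E₄ (S.y 0) * E₆ (S.y 0)) / discriminant (S.y 0) := by
  have hQ : (q : ℂ) ^ D ≠ 0 := pow_ne_zero _ hq
  have hci : S.y (S.c i) = S.y 0 := by rw [c_eq]
  have h1 : (τ' : ℂ) = (a * (S.y 0 : ℂ) + b) / (c * (S.y 0 : ℂ) + d) := by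
    rw [hτ, ha, hb, hc, hd, Orb.φ, mob, hci, mul_assoc, mul_assoc, ← mul_add, ← mul_add,
      mul_div_mul_left _ _ hQ]
  obtain ⟨hcd, hkey⟩ := im_key hN hdet (S.y 0) τ' h1
  have hden : (c : ℂ) * (S.y 0 : ℂ) + d = (q : ℂ) ^ D * S.den i σ := by
    rw [hc, hd, Orb.den, hci]
    ring
  have hden0 : S.den i σ ≠ 0 := by
    intro h0
    rw [hden, h0, mul_zero] at hcd
    exact hcd rfl
  have hNc : (N : ℂ) = ((q : ℂ) ^ D) ^ 2 * aeval σ (S.dt i) := by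
    have h2 := congrArg (fun z : ℤ ↦ (z : ℂ)) hdet
    push_cast at h2
    rw [h2, ha, hb, hc, hd, Orb.dt, map_sub, map_mul, map_mul]
    ring
  have hfrac : (N : ℂ) / (c * (S.y 0 : ℂ) + d) =
      (q : ℂ) ^ D * (aeval σ (S.dt i) / S.den i σ) := by
    rw [hNc, hden]
    field_simp
  have g2 : e2 τ' = E2 τ' := by rw [e2, ofComplex_apply]
  have g4 : e4 τ' = E₄ τ' := by rw [e4, ofComplex_apply]
  have g6 : e6 τ' = E₆ τ' := by rw [e6, ofComplex_apply]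
  have k2 : e2 (S.y 0) = E2 (S.y 0) := by rw [e2, ofComplex_apply]
  have k4 : e4 (S.y 0) = E₄ (S.y 0) := by rw [e4, ofComplex_apply]
  have k6 : e6 (S.y 0) = E₆ (S.y 0) := by rw [e6, ofComplex_apply]
  refine ⟨h1, ?_, ?_, ?_⟩
  · have e : RW S σ (i, 0) = (aeval σ (S.dt i) / S.den i σ) ^ 4 * e4 (S.φ i σ) *
        e4 (S.y 0 : ℂ) ^ 2 / discriminant (S.y 0) := rfl
    rw [e, hfrac, ← hτ, g4, k4]
    ring
  · have e : RW S σ (i, 1) = (aeval σ (S.dt i) / S.den i σ) ^ 6 * e6 (S.φ i σ) *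
        e6 (S.y 0 : ℂ) / discriminant (S.y 0) := rfl
    rw [e, hfrac, ← hτ, g6, k6]
    ring
  · have e : RW S σ (i, 2) = ((aeval σ (S.dt i) / S.den i σ) ^ 2 * e2 (S.φ i σ) -
        aeval σ (S.dt i) * e2 (S.y 0 : ℂ) +
        6 * Complex.I * aeval σ (S.dt i) * aeval σ (S.pC i) / (π * S.den i σ)) *
      (e4 (S.y 0 : ℂ) * e6 (S.y 0 : ℂ)) / discriminant (S.y 0) := rfl
    have hpi : (π : ℂ) ≠ 0 := by exact_mod_cast Real.pi_ne_zero
    have e1 : (((N : ℂ) / (c * (S.y 0 : ℂ) + d)) ^ 2 * E2s τ' - N * E2s (S.y 0)) =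
        ((N : ℂ) / (c * (S.y 0 : ℂ) + d)) ^ 2 * E2 τ' - N * E2 (S.y 0) +
          6 * Complex.I * N * c / (π * (c * (S.y 0 : ℂ) + d)) := by
      rw [E2s, E2s]
      linear_combination -hkey
    have e2' : 6 * Complex.I * N * c / (π * (c * (S.y 0 : ℂ) + d)) =
        ((q : ℂ) ^ D) ^ 2 * (6 * Complex.I * aeval σ (S.dt i) * aeval σ (S.pC i) /
          (π * S.den i σ)) := by
      rw [hden, hNc, hc]
      field_simp
    rw [e1, e2', e, hfrac, ← hτ, g2, k2, k4, k6, hNc]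
    ring

theorem rw_int {m n : ℕ} (S : Orb m n 1) : ∃ (C D : ℕ) (ε : ℝ), 0 < ε ∧
    ∀ (q : ℕ) (p : Fin m → ℤ), 1 ≤ q → (∀ s, |S.t s - p s / q| < ε) →
      (∀ s, |(p s : ℝ)| ≤ C * q) ∧
      ∀ i, ∃ (a b c d : ℤ) (N : ℕ) (τ' : ℍ), 0 < N ∧ (N : ℤ) = a * d - b * c ∧
        (N : ℝ) ≤ C * (q : ℝ) ^ (2 * D) ∧
        (τ' : ℂ) = (a * (S.y 0 : ℂ) + b) / (c * (S.y 0 : ℂ) + d) ∧
        RW S (fun s ↦ (p s : ℂ) / q) (i, 0) * (q : ℂ) ^ (4 * D) =
          ((N : ℂ) / (c * (S.y 0 : ℂ) + d)) ^ 4 * E₄ τ' * E₄ (S.y 0) ^ 2 /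
            discriminant (S.y 0) ∧
        RW S (fun s ↦ (p s : ℂ) / q) (i, 1) * (q : ℂ) ^ (6 * D) =
          ((N : ℂ) / (c * (S.y 0 : ℂ) + d)) ^ 6 * E₆ τ' * E₆ (S.y 0) / discriminant (S.y 0) ∧
        RW S (fun s ↦ (p s : ℂ) / q) (i, 2) * (q : ℂ) ^ (2 * D) =
          (((N : ℂ) / (c * (S.y 0 : ℂ) + d)) ^ 2 * E2s τ' - N * E2s (S.y 0)) *
            (E₄ (S.y 0) * E₆ (S.y 0)) / discriminant (S.y 0) := by
  obtain ⟨C, ε, hC2, hε, hnear⟩ := S.near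
  set D : ℕ := ∑ i, ((S.pA i).totalDegree + (S.pB i).totalDegree + (S.pC i).totalDegree +
    (S.pD i).totalDegree) with hD
  have hDi : ∀ i, (S.pA i).totalDegree + (S.pB i).totalDegree + (S.pC i).totalDegree +
      (S.pD i).totalDegree ≤ D := fun i ↦
    Finset.single_le_sum (f := fun i ↦ (S.pA i).totalDegree + (S.pB i).totalDegree +
      (S.pC i).totalDegree + (S.pD i).totalDegree) (fun _ _ ↦ Nat.zero_le _) (Finset.mem_univ i)
  refine ⟨2 * C ^ 2, D, ε, hε, fun q p hq hp ↦ ?_⟩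
  have hC1 : (1 : ℝ) ≤ C := by
    have : (2 : ℝ) ≤ C := by exact_mod_cast hC2
    linarith
  have hq0 : (0 : ℝ) < q := by exact_mod_cast hq
  obtain ⟨hu, hi⟩ := hnear (fun s ↦ (p s : ℝ) / q) hp
  refine ⟨fun s ↦ ?_, fun i ↦ ?_⟩
  · have h1 := hu s
    rw [abs_div, abs_of_pos hq0, div_le_iff₀ hq0] at h1
    refine h1.trans (mul_le_mul_of_nonneg_right ?_ hq0.le)
    push_cast
    nlinarith
  · obtain ⟨h0, hA, hB, hCC, hDD⟩ := hi i
    have hdi := hDi i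
    obtain ⟨a, ha1, ha2, ha3⟩ := Orb.entries (D := D) hq p (S.pA i) (by omega) hA
    obtain ⟨b, hb1, hb2, hb3⟩ := Orb.entries (D := D) hq p (S.pB i) (by omega) hB
    obtain ⟨c, hc1, hc2, hc3⟩ := Orb.entries (D := D) hq p (S.pC i) (by omega) hCC
    obtain ⟨d, hd1, hd2, hd3⟩ := Orb.entries (D := D) hq p (S.pD i) (by omega) hDD
    have hpos : (0 : ℝ) < (a : ℝ) * d - b * c := by
      rw [Orb.dt, map_sub, map_mul, map_mul] at h0
      rw [ha2, hb2, hc2, hd2]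
      have h1 : (0 : ℝ) < ((q : ℝ) ^ D) ^ 2 := by positivity
      have h2 := mul_pos h1 h0
      refine lt_of_lt_of_eq h2 ?_
      ring
    have hposZ : 0 < a * d - b * c := by exact_mod_cast hpos
    obtain ⟨N, hN⟩ := Int.eq_ofNat_of_zero_le hposZ.le
    have hN0 : 0 < N := by
      rw [hN] at hposZ
      exact_mod_cast hposZ
    have hNdet : (N : ℤ) = a * d - b * c := hN.symm
    obtain ⟨-, him⟩ := S.real_pos h0
    have hσ : (fun s ↦ (((p s : ℝ) / q : ℝ) : ℂ)) = fun s ↦ (p s : ℂ) / q := by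
      funext s
      push_cast
      rfl
    rw [hσ] at him
    have hqc : (q : ℂ) ≠ 0 := by exact_mod_cast hq0.ne'
    have hF := C1_formulas S i (fun s ↦ (p s : ℂ) / q) hqc hN0 hNdet ⟨_, him⟩ rfl ha3 hb3 hc3 hd3
    refine ⟨a, b, c, d, N, ⟨_, him⟩, hN0, hNdet, ?_, hF⟩
    have h1 : ((N : ℤ) : ℝ) = a * d - b * c := by
      rw [hNdet]
      push_cast
      ring
    have h2 : ∀ x : ℤ, |x| ≤ ((C * q ^ D : ℕ) : ℤ) → |(x : ℝ)| ≤ C * (q : ℝ) ^ D := by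
      intro x hx
      exact_mod_cast hx
    have ha4 := h2 a ha1
    have hb4 := h2 b hb1
    have hc4 := h2 c hc1
    have hd4 := h2 d hd1
    have h3 : |(a : ℝ) * d| ≤ (C * (q : ℝ) ^ D) * (C * (q : ℝ) ^ D) := by
      rw [abs_mul]
      exact mul_le_mul ha4 hd4 (abs_nonneg _) (by positivity)
    have h4 : |(b : ℝ) * c| ≤ (C * (q : ℝ) ^ D) * (C * (q : ℝ) ^ D) := by
      rw [abs_mul]
      exact mul_le_mul hb4 hc4 (abs_nonneg _) (by positivity)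
    have h5 := (abs_le.1 h3).2
    have h6 := (abs_le.1 h4).1
    have h7 : ((2 * C ^ 2 : ℕ) : ℝ) * (q : ℝ) ^ (2 * D) =
        2 * ((C * (q : ℝ) ^ D) * (C * (q : ℝ) ^ D)) := by
      push_cast
      ring
    rw [h7]
    have h8 : (N : ℝ) = a * d - b * c := by exact_mod_cast h1
    rw [h8]
    linarith

end AO
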