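import Pool.Agent.H32.AO.C1
import Pool.Agent.H32.AO.A1
import Pool.Agent.H32.AO.A6

/-!
# MP_ede373, orbits of algebraic points, row C2: the family at rational parameters consists of roots

`rootRel_scale`: if `(SN N).card = M`, `r M = C M!`, `natDegree (r i) ≤ 2 M`, `nr (r i) ≤ exp (K N^26)`,
`∑_{i ≤ M} r_i(J) (w q^e)^i = 0` then with `r'_i = C (q^(e i)) r_i` for `i ≤ M` and `0` for `i > M` :
`∑ r'_i(J) w^i = 0`, `r'_M = C (q^(e M) M!)`, `natDegree ≤ 2 M`, `nr (r'_i) ≤ q^(e M) exp (K N^26)`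
(`CZ.nr (C a * f) ≤ |a| CZ.nr f`; `H32.T3.nr` and `CZ.nr` are equal by definition, `rfl` or `simp [nr, CZ.nr, Polynomial.sum]`).
`M ≥ 1` (the product over `SN N` below has a factor), `M ≤ N^2` (`card_SN_le`). So `RootRel X J w` for
`X ≥ 2 N^2 + e N^2 log q + K N^26`.

Theorem: `C, D, ε` from `rw_int`, `KK` from `rel_PQ`, `KT` from `rel_all`. For `(i, 0)`: `rat_eval` gives `s ∈ SN N` with
`xP N (toM s) y = (N/(cy+d))^4 E₄ τ' E₄ y^2`, so by `rel_PQ` (product with the zero factor `s`,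
`Finset.prod_eq_zero`, `discriminant ^ 1`) `w q^(4D)` is a root, `w = RW S (p/q) (i,0)`. In the same way `(i, 1)` with
`xQ` and `6 D`, `(i, 2)` with `xT` and `2 D` (`rel_all`). As `N ≤ C q^(2D)` and `log q ≤ q`, everything is at most
`q^A` for `q ≥ Q0` with `A = 52 D + 60`. `Sum.inr s`: `rootRel_rat` (`|p s| ≤ C q ≤ q^A ≤ exp (q^A)`).
-/

set_option autoImplicit false

open UpperHalfPlane hiding I
open Complex EisensteinSeries ModularForm MatrixGroups Manifold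
open scoped Real Topology
open MvPolynomial Filter

namespace AO

open H32 H32.T3 H32.T4

private theorem C2_scale {X Y : ℝ} {J w : ℂ} {M e q : ℕ} {f : ℤ} (hM : 0 < M) (hf : f ≠ 0) (hq : 1 ≤ q)
    (rr : ℕ → Polynomial ℤ) (h1 : rr M = Polynomial.C f) (h2 : ∀ i, (rr i).natDegree ≤ 2 * M)
    (h3 : ∀ i, H32.T3.nr (rr i) ≤ Real.exp Y)
    (h4 : ∑ i ∈ Finset.range (M + 1), Polynomial.aeval J (rr i) * (w * (q : ℂ) ^ e) ^ i = 0)
    (hX : 2 * (M : ℝ) + e * M * Real.log q + Y ≤ X) (hY : 0 ≤ Y) : RootRel X J w := by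
  have hq0 : (0 : ℝ) < q := by exact_mod_cast hq
  have hq1 : (1 : ℝ) ≤ q := by exact_mod_cast hq
  have hlog : 0 ≤ Real.log q := Real.log_nonneg hq1
  have hM0 : (0 : ℝ) ≤ M := Nat.cast_nonneg M
  have he0 : (0 : ℝ) ≤ e := Nat.cast_nonneg e
  have hp : 0 ≤ (e : ℝ) * M * Real.log q := by positivity
  refine ⟨M, fun i ↦ if i ≤ M then Polynomial.C ((q : ℤ) ^ (e * i)) * rr i else 0,
    (q : ℤ) ^ (e * M) * f, hM, by linarith, ?_, ?_, ?_, ?_, ?_⟩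
  · refine mul_ne_zero (pow_ne_zero _ ?_) hf
    have : q ≠ 0 := by omega
    exact_mod_cast this
  · simp only [le_refl, if_true]
    rw [h1, ← Polynomial.C_mul]
  · intro i
    simp only
    split_ifs with hi
    · have h5 : (Polynomial.C ((q : ℤ) ^ (e * i)) * rr i).natDegree ≤ 2 * M :=
        (Polynomial.natDegree_C_mul_le _ _).trans (h2 i)
      have h6 : ((Polynomial.C ((q : ℤ) ^ (e * i)) * rr i).natDegree : ℝ) ≤ 2 * M := by
        exact_mod_cast h5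
      linarith
    · rw [Polynomial.natDegree_zero, Nat.cast_zero]
      linarith
  · intro i
    change H32.T3.nr (if i ≤ M then Polynomial.C ((q : ℤ) ^ (e * i)) * rr i else 0) ≤ _
    split_ifs with hi
    · have h5 : H32.T3.nr (Polynomial.C ((q : ℤ) ^ (e * i)) * rr i) ≤
          |(((q : ℤ) ^ (e * i) : ℤ) : ℝ)| * H32.T3.nr (rr i) :=
        H32.T3.nr_monomial_mul 0 ((q : ℤ) ^ (e * i)) (rr i)
      refine h5.trans ?_
      push_cast
      rw [abs_of_nonneg (by positivity)]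
      have h6 : (q : ℝ) ^ (e * i) ≤ (q : ℝ) ^ (e * M) :=
        pow_le_pow_right₀ hq1 (Nat.mul_le_mul_left e hi)
      have h7 : (q : ℝ) ^ (e * M) = Real.exp (e * M * Real.log q) := by
        rw [← Real.rpow_natCast, Real.rpow_def_of_pos hq0]
        push_cast
        ring_nf
      calc (q : ℝ) ^ (e * i) * H32.T3.nr (rr i) ≤ (q : ℝ) ^ (e * M) * Real.exp Y :=
            mul_le_mul h6 (h3 i) (H32.T3.nr_nonneg _) (by positivity)
        _ = Real.exp (e * M * Real.log q + Y) := by rw [h7, ← Real.exp_add]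
        _ ≤ Real.exp X := Real.exp_le_exp.2 (by linarith)
    · rw [H32.T3.nr_zero]
      exact (Real.exp_pos _).le
  · rw [← h4]
    refine Finset.sum_congr rfl fun i hi ↦ ?_
    have hi' : i ≤ M := by
      have := Finset.mem_range.1 hi
      omega
    simp only [hi', if_true]
    rw [map_mul, Polynomial.aeval_C, mul_pow, ← pow_mul]
    simp only [algebraMap_int_eq, eq_intCast, Int.cast_pow, Int.cast_natCast]
    ring

private theorem C2_size {C D N M e q : ℕ} {K : ℝ} (hK : 0 ≤ K) (hq : 1 ≤ q)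
    (hN : (N : ℝ) ≤ C * (q : ℝ) ^ (2 * D)) (hM : M ≤ N ^ 2) (he : e ≤ 6 * D)
    (hQ : 2 * (C : ℝ) ^ 2 + 6 * D * (C : ℝ) ^ 2 + K * (C : ℝ) ^ 26 ≤ q) :
    2 * (M : ℝ) + e * M * Real.log q + K * (N : ℝ) ^ 26 ≤ (q : ℝ) ^ (52 * D + 60) := by
  have hq1 : (1 : ℝ) ≤ q := by exact_mod_cast hq
  have hq0 : (0 : ℝ) < q := by linarith
  have hlog0 : 0 ≤ Real.log q := Real.log_nonneg hq1
  have hlog : Real.log q ≤ q := (Real.log_le_sub_one_of_pos hq0).trans (by linarith)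
  have hN0 : (0 : ℝ) ≤ N := Nat.cast_nonneg N
  have hM1 : (M : ℝ) ≤ (N : ℝ) ^ 2 := by exact_mod_cast hM
  have hM2 : (M : ℝ) ≤ (C : ℝ) ^ 2 * (q : ℝ) ^ (52 * D) := by
    calc (M : ℝ) ≤ (N : ℝ) ^ 2 := hM1
      _ ≤ (C * (q : ℝ) ^ (2 * D)) ^ 2 := pow_le_pow_left₀ hN0 hN 2
      _ = (C : ℝ) ^ 2 * (q : ℝ) ^ (4 * D) := by rw [mul_pow, ← pow_mul]; ring_nf
      _ ≤ (C : ℝ) ^ 2 * (q : ℝ) ^ (52 * D) := by
        have : (q : ℝ) ^ (4 * D) ≤ (q : ℝ) ^ (52 * D) := pow_le_pow_right₀ hq1 (by omega)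
        gcongr
  have hN2 : (N : ℝ) ^ 26 ≤ (C : ℝ) ^ 26 * (q : ℝ) ^ (52 * D) := by
    calc (N : ℝ) ^ 26 ≤ (C * (q : ℝ) ^ (2 * D)) ^ 26 := pow_le_pow_left₀ hN0 hN 26
      _ = (C : ℝ) ^ 26 * (q : ℝ) ^ (52 * D) := by rw [mul_pow, ← pow_mul]; ring_nf
  have he' : (e : ℝ) ≤ 6 * D := by exact_mod_cast he
  have hM0 : (0 : ℝ) ≤ M := Nat.cast_nonneg M
  have hQ0 : (0 : ℝ) ≤ (q : ℝ) ^ (52 * D) := by positivity
  have t1 : 2 * (M : ℝ) ≤ 2 * (C : ℝ) ^ 2 * (q : ℝ) ^ (52 * D) * q := by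
    have h1 : 0 ≤ (C : ℝ) ^ 2 * (q : ℝ) ^ (52 * D) := by positivity
    nlinarith
  have t2 : (e : ℝ) * M * Real.log q ≤ 6 * D * (C : ℝ) ^ 2 * (q : ℝ) ^ (52 * D) * q := by
    calc (e : ℝ) * M * Real.log q ≤ (6 * D) * ((C : ℝ) ^ 2 * (q : ℝ) ^ (52 * D)) * q := by
          gcongr
      _ = _ := by ring
  have t3 : K * (N : ℝ) ^ 26 ≤ K * (C : ℝ) ^ 26 * (q : ℝ) ^ (52 * D) * q := by
    calc K * (N : ℝ) ^ 26 ≤ K * ((C : ℝ) ^ 26 * (q : ℝ) ^ (52 * D)) := by gcongr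
      _ ≤ K * ((C : ℝ) ^ 26 * (q : ℝ) ^ (52 * D)) * q := le_mul_of_one_le_right (by positivity) hq1
      _ = _ := by ring
  calc 2 * (M : ℝ) + e * M * Real.log q + K * (N : ℝ) ^ 26 ≤
        (2 * (C : ℝ) ^ 2 + 6 * D * (C : ℝ) ^ 2 + K * (C : ℝ) ^ 26) * ((q : ℝ) ^ (52 * D) * q) := by
        linarith
    _ ≤ q * ((q : ℝ) ^ (52 * D) * q) := by gcongr
    _ = (q : ℝ) ^ (52 * D + 2) := by ring
    _ ≤ (q : ℝ) ^ (52 * D + 60) := pow_le_pow_right₀ hq1 (by omega)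

theorem rootRel_WF {m n : ℕ} (S : Orb m n 1) : ∃ (A Q0 : ℕ) (ε : ℝ), 0 < ε ∧
    ∀ (q : ℕ) (p : Fin m → ℤ), Q0 ≤ q → (∀ s, |S.t s - p s / q| < ε) →
      ∀ j, RootRel ((q : ℝ) ^ A) (jf (S.y 0)) (WF S (fun s ↦ (p s : ℂ) / q) j) := by
  obtain ⟨C, D, ε, hε, hrw⟩ := rw_int S
  obtain ⟨KP, hKP, hP⟩ := H32.T3.rel_PQ
  obtain ⟨KT, hKT, hT⟩ := H32.T3.rel_all
  obtain ⟨Q1, hQ1⟩ := exists_nat_ge (2 * (C : ℝ) ^ 2 + 6 * D * (C : ℝ) ^ 2 +
    (KP + KT) * (C : ℝ) ^ 26)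
  refine ⟨52 * D + 60, Q1 + C + 1, ε, hε, fun q p hqQ hp j ↦ ?_⟩
  have hq : 1 ≤ q := by omega
  have hq1 : (1 : ℝ) ≤ q := by exact_mod_cast hq
  have hQ : 2 * (C : ℝ) ^ 2 + 6 * D * (C : ℝ) ^ 2 + (KP + KT) * (C : ℝ) ^ 26 ≤ q := by
    refine hQ1.trans ?_
    have : Q1 ≤ q := by omega
    exact_mod_cast this
  have hC26 : (0 : ℝ) ≤ (C : ℝ) ^ 26 := by positivity
  have hQP : 2 * (C : ℝ) ^ 2 + 6 * D * (C : ℝ) ^ 2 + KP * (C : ℝ) ^ 26 ≤ q := by nlinarith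
  have hQT : 2 * (C : ℝ) ^ 2 + 6 * D * (C : ℝ) ^ 2 + KT * (C : ℝ) ^ 26 ≤ q := by nlinarith
  obtain ⟨hpC, hi⟩ := hrw q p hq hp
  rcases j with ⟨i, k⟩ | s
  · obtain ⟨a, b, c, d, N, τ', hN, hdet, hNC, hτ, e0, e1, e2⟩ := hi i
    obtain ⟨s, hs, x0, x1, x2⟩ := rat_eval hN hdet (S.y 0) τ' hτ
    obtain ⟨rP, rQ, a1, a2, a3, a4, a5, a6, a7, a8⟩ := hP N hN
    obtain ⟨rD, rT, -, b2, -, b4, -, b6, -, b8⟩ := hT N hN
    have hM : 0 < (SN N).card := H32.T3.one_le_card_SN hN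
    have hM2 : (SN N).card ≤ N ^ 2 := H32.T3.card_SN_le hN
    have hf : (((SN N).card).factorial : ℤ) ≠ 0 := by
      exact_mod_cast (Nat.factorial_pos _).ne'
    fin_cases k
    · change RootRel _ _ (RW S (fun s ↦ (p s : ℂ) / q) (i, 0))
      have hz : ∑ i' ∈ Finset.range ((SN N).card + 1), Polynomial.aeval (jf (S.y 0)) (rP i') *
          (RW S (fun s ↦ (p s : ℂ) / q) (i, 0) * (q : ℂ) ^ (4 * D)) ^ i' = 0 := by
        rw [a7, Finset.prod_eq_zero hs, mul_zero]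
        rw [e0, x0, pow_one, sub_self]
      exact C2_scale hM hf hq rP a1 a3 a5 hz
        (C2_size (by linarith) hq hNC hM2 (by omega) hQP) (by positivity)
    · change RootRel _ _ (RW S (fun s ↦ (p s : ℂ) / q) (i, 1))
      have hz : ∑ i' ∈ Finset.range ((SN N).card + 1), Polynomial.aeval (jf (S.y 0)) (rQ i') *
          (RW S (fun s ↦ (p s : ℂ) / q) (i, 1) * (q : ℂ) ^ (6 * D)) ^ i' = 0 := by
        rw [a8, Finset.prod_eq_zero hs, mul_zero]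
        rw [e1, x1, pow_one, sub_self]
      exact C2_scale hM hf hq rQ a2 a4 a6 hz
        (C2_size (by linarith) hq hNC hM2 (by omega) hQP) (by positivity)
    · change RootRel _ _ (RW S (fun s ↦ (p s : ℂ) / q) (i, 2))
      have hz : ∑ i' ∈ Finset.range ((SN N).card + 1), Polynomial.aeval (jf (S.y 0)) (rT i') *
          (RW S (fun s ↦ (p s : ℂ) / q) (i, 2) * (q : ℂ) ^ (2 * D)) ^ i' = 0 := by
        rw [b8, Finset.prod_eq_zero hs, mul_zero]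
        rw [e2, x2, pow_one, sub_self]
      exact C2_scale hM hf hq rT b2 b4 b6 hz
        (C2_size (by linarith) hq hNC hM2 (by omega) hQT) (by positivity)
  · change RootRel _ _ ((p s : ℂ) / q)
    have hX1 : (1 : ℝ) ≤ (q : ℝ) ^ (52 * D + 60) := one_le_pow₀ hq1
    have hX2 : (q : ℝ) ^ 2 ≤ (q : ℝ) ^ (52 * D + 60) := pow_le_pow_right₀ hq1 (by omega)
    have hX3 : (q : ℝ) ^ (52 * D + 60) ≤ Real.exp ((q : ℝ) ^ (52 * D + 60)) := by
      have := Real.add_one_le_exp ((q : ℝ) ^ (52 * D + 60))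
      linarith
    have hCq : (C : ℝ) ≤ q := by
      have : C ≤ q := by omega
      exact_mod_cast this
    refine rootRel_rat _ (p s) q (by omega) hX1 ?_ ?_
    · nlinarith
    · have := hpC s
      nlinarith

end AO
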