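import Pool.Agent.H32.AO.C0

/-!
# MP_ede373, orbits of algebraic points, row C3: rank and differentiability

`rank_WF`: as the proof of `H32.T5.Orb.rank` (file `Pool/Agent/H32/T5/Y4.lean`), but simpler. `D = Algebra.adjoin ℂ (range VS)`,
`VS j = mkU (fun k ↦ WF S (r k) j)`. The elements `mkU (r k s)`, `mkU (aeval (r k) p)`, constants,
`dd = mkU (aeval (r k) (dt i))`, `dn = mkU (den i (r k))` are algebraic over `D`, `dd, dn ≠ 0` (limits `dt_x`, `den_x`). With
`g4 = mkU (e4 (φ_i (r k)))` etc.: `VS (i,0) * dn^4 * c_Δ = dd^4 * g4 * c_4`, where `c_Δ = algebraMap (discriminant y) ≠ 0`,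
`c_4 = algebraMap (e4 y)^2 ≠ 0`, so `g4 = VS (i,0) dn^4 c_Δ (dd^4 c_4)⁻¹` is algebraic; in the same way `g6` from `VS (i,1)`
(constant `e6 y`) and `g2` from `VS (i,2)`:
`VS (i,2) c_Δ = (dd^2 dn^(-2) g2 - dd c_(e2 y) + 6 I dd mkU(pC) / (π dn)) c_(e4 y e6 y)`. So `range et ⊆ closure (range VS)`,
`et` = the independent family of `hX` (size `3 n + m`), the rank of `VS` is `≥ 3 n + m = card`, and `indep_of_card`
(copied in `AO/Ob.lean`) gives the claim, exactly as in `Orb.rank` (end of that proof; there `M.exists_isBasis`,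
`extract_indep'`).

`diff_WF`: all ingredients are analytic at `S.x`: `an_aeval`, `Orb.an_den`, `Orb.den_x`, `e4 ∘ φ_i` etc. by
`AnalyticAt.fun_comp`, `Orb.an_φ`, `Orb.im_φ`, `H32.analytic_E4` (see `Orb.diff_V`, `Orb.an_comp` in
`Pool/Agent/H32/T5/Y6.lean`).
-/

set_option autoImplicit false
set_option linter.unusedSimpArgs false

open UpperHalfPlane hiding I
open Complex EisensteinSeries ModularForm MatrixGroups Manifold
open scoped Real Topology
open MvPolynomial Filter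

namespace AO

open H32 H32.T3 H32.T4

theorem rank_WF {m n : ℕ} (S : Orb m n 1) (h4 : E₄ (S.y 0) ≠ 0) (h6 : E₆ (S.y 0) ≠ 0)
    (r : ℕ → Fin m → ℂ) (hr : Tendsto r atTop (𝓝 S.x))
    (hX : AlgebraicIndependent ℂ (Sum.elim
      (fun p : Fin n × Fin 3 ↦ mkU (fun k ↦ ee (S.φ p.1 (r k)) p.2))
      (fun s : Fin m ↦ mkU (fun k ↦ r k s)))) :
    AlgebraicIndependent ℂ (fun j ↦ mkU (fun k ↦ WF S (r k) j)) := by
  classical
  set M := AlgebraicIndependent.matroid ℂ Ult with hM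
  set VS : (Fin n × Fin 3) ⊕ Fin m → Ult := fun j ↦ mkU (fun k ↦ WF S (r k) j) with hVS
  set D : Subalgebra ℂ Ult := Algebra.adjoin ℂ (Set.range VS) with hD
  have hgen : ∀ v ∈ Set.range VS, IsAlgebraic D v := by
    intro v hv
    exact isAlgebraic_algebraMap (⟨v, Algebra.subset_adjoin hv⟩ : D)
  have aR : ∀ r : ℂ, IsAlgebraic D (algebraMap ℂ Ult r) := fun r ↦ by
    rw [IsScalarTower.algebraMap_apply ℂ D Ult]
    exact isAlgebraic_algebraMap _
  have ar : ∀ s, IsAlgebraic D (mkU (fun k ↦ r k s)) := fun s ↦ hgen _ ⟨Sum.inr s, rfl⟩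
  have aP : ∀ p : MvPolynomial (Fin m) ℤ, IsAlgebraic D (mkU (fun k ↦ aeval (r k) p)) := by
    intro p
    induction p using MvPolynomial.induction_on with
    | C c =>
      have e : (fun k ↦ aeval (r k) (C c : MvPolynomial (Fin m) ℤ)) = fun _ : ℕ ↦ (c : ℂ) := by
        ext k
        simp
      rw [e]
      exact aR c
    | add p q hp hq =>
      have e : (fun k ↦ aeval (r k) (p + q)) = (fun k ↦ aeval (r k) p) + fun k ↦ aeval (r k) q := by
        ext k
        simp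
      rw [e, map_add]
      exact hp.add hq
    | mul_X p s hp =>
      have e : (fun k ↦ aeval (r k) (p * X s)) = (fun k ↦ aeval (r k) p) * fun k ↦ r k s := by
        ext k
        simp
      rw [e, map_mul]
      exact hp.mul (ar s)
  -- eventually nonzero quantities
  have hdenE : ∀ i, ∀ᶠ k in atTop, S.den i (r k) ≠ 0 := fun i ↦
    ((S.an_den i S.x).continuousAt.tendsto.comp hr).eventually_ne (S.den_x i)
  have hdtE : ∀ i, ∀ᶠ k in atTop, aeval (r k) (S.dt i) ≠ 0 := fun i ↦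
    ((an_aeval (S.dt i) S.x).continuousAt.tendsto.comp hr).eventually_ne (S.dt_x i)
  set g2 : Fin n → Ult := fun i ↦ mkU (fun k ↦ e2 (S.φ i (r k))) with hg2
  set g4 : Fin n → Ult := fun i ↦ mkU (fun k ↦ e4 (S.φ i (r k))) with hg4
  set g6 : Fin n → Ult := fun i ↦ mkU (fun k ↦ e6 (S.φ i (r k))) with hg6
  have y4 : e4 (S.y 0 : ℂ) ≠ 0 := by rw [e4, ofComplex_apply]; exact h4
  have y6 : e6 (S.y 0 : ℂ) ≠ 0 := by rw [e6, ofComplex_apply]; exact h6
  have yD : discriminant (S.y 0) ≠ 0 := discriminant_ne_zero _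
  have hpi : (π : ℂ) ≠ 0 := by exact_mod_cast Real.pi_ne_zero
  have key : ∀ i, IsAlgebraic D (g2 i) ∧ IsAlgebraic D (g4 i) ∧ IsAlgebraic D (g6 i) := by
    intro i
    set dn : Ult := mkU (fun k ↦ S.den i (r k)) with hdn
    set dd : Ult := mkU (fun k ↦ aeval (r k) (S.dt i)) with hdd
    have hdn0 : dn ≠ 0 := by
      intro h0
      obtain ⟨k, h1, h2⟩ := ((freq_of_mkU_zero h0).and_eventually (hdenE i)).exists
      exact h2 h1
    have hdd0 : dd ≠ 0 := by
      intro h0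
      obtain ⟨k, h1, h2⟩ := ((freq_of_mkU_zero h0).and_eventually (hdtE i)).exists
      exact h2 h1
    have adn : IsAlgebraic D dn := by
      have e : dn = mkU (fun k ↦ aeval (r k) (S.pC i)) * algebraMap ℂ Ult (S.y (S.c i) : ℂ) +
          mkU (fun k ↦ aeval (r k) (S.pD i)) := by
        rw [algebraMap_Ult, ← map_mul, ← map_add]
        rfl
      rw [e]
      exact ((aP _).mul (aR _)).add (aP _)
    have add' : IsAlgebraic D dd := aP _
    have a0 : IsAlgebraic D (VS (Sum.inl (i, 0))) := hgen _ ⟨_, rfl⟩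
    have a1 : IsAlgebraic D (VS (Sum.inl (i, 1))) := hgen _ ⟨_, rfl⟩
    have a2 : IsAlgebraic D (VS (Sum.inl (i, 2))) := hgen _ ⟨_, rfl⟩
    have c4 : algebraMap ℂ Ult (e4 (S.y 0 : ℂ) ^ 2) ≠ 0 := (map_ne_zero _).mpr (pow_ne_zero 2 y4)
    have c6 : algebraMap ℂ Ult (e6 (S.y 0 : ℂ)) ≠ 0 := (map_ne_zero _).mpr y6
    have c2 : algebraMap ℂ Ult (e4 (S.y 0 : ℂ) * e6 (S.y 0 : ℂ)) ≠ 0 :=
      (map_ne_zero _).mpr (mul_ne_zero y4 y6)
    -- relations
    have r0 : VS (Sum.inl (i, 0)) * dn ^ 4 * algebraMap ℂ Ult (discriminant (S.y 0)) =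
        dd ^ 4 * g4 i * algebraMap ℂ Ult (e4 (S.y 0 : ℂ) ^ 2) := by
      rw [algebraMap_Ult, algebraMap_Ult, hdn, hdd, hVS, hg4]
      simp only
      rw [← map_pow, ← map_pow, ← map_mul, ← map_mul, ← map_mul, ← map_mul, ← sub_eq_zero,
        ← map_sub]
      refine mkU_zero_of_ev ((hdenE i).mono fun k k2 ↦ ?_)
      simp only [Pi.sub_apply, Pi.mul_apply, Pi.pow_apply]
      change (aeval (r k) (S.dt i) / S.den i (r k)) ^ 4 * e4 (S.φ i (r k)) * e4 (S.y 0 : ℂ) ^ 2 /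
        discriminant (S.y 0) * _ * _ - _ = 0
      field_simp
      ring
    have r1 : VS (Sum.inl (i, 1)) * dn ^ 6 * algebraMap ℂ Ult (discriminant (S.y 0)) =
        dd ^ 6 * g6 i * algebraMap ℂ Ult (e6 (S.y 0 : ℂ)) := by
      rw [algebraMap_Ult, algebraMap_Ult, hdn, hdd, hVS, hg6]
      simp only
      rw [← map_pow, ← map_pow, ← map_mul, ← map_mul, ← map_mul, ← map_mul, ← sub_eq_zero,
        ← map_sub]
      refine mkU_zero_of_ev ((hdenE i).mono fun k k2 ↦ ?_)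
      simp only [Pi.sub_apply, Pi.mul_apply, Pi.pow_apply]
      change (aeval (r k) (S.dt i) / S.den i (r k)) ^ 6 * e6 (S.φ i (r k)) * e6 (S.y 0 : ℂ) /
        discriminant (S.y 0) * _ * _ - _ = 0
      field_simp
      ring
    have r2 : VS (Sum.inl (i, 2)) * algebraMap ℂ Ult (discriminant (S.y 0)) * dn ^ 2 =
        (dd ^ 2 * g2 i - dd * algebraMap ℂ Ult (e2 (S.y 0 : ℂ)) * dn ^ 2 +
          algebraMap ℂ Ult (6 * Complex.I / π) * dd * mkU (fun k ↦ aeval (r k) (S.pC i)) * dn) *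
          algebraMap ℂ Ult (e4 (S.y 0 : ℂ) * e6 (S.y 0 : ℂ)) := by
      rw [algebraMap_Ult, algebraMap_Ult, algebraMap_Ult, algebraMap_Ult, hdn, hdd, hVS, hg2]
      simp only
      rw [← map_pow, ← map_pow, ← map_mul, ← map_mul, ← map_mul, ← map_mul, ← map_mul, ← map_mul,
        ← map_mul, ← map_mul, ← map_sub, ← map_add, ← map_mul, ← sub_eq_zero, ← map_sub]
      refine mkU_zero_of_ev ((hdenE i).mono fun k k2 ↦ ?_)
      simp only [Pi.sub_apply, Pi.mul_apply, Pi.pow_apply, Pi.add_apply]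
      change ((aeval (r k) (S.dt i) / S.den i (r k)) ^ 2 * e2 (S.φ i (r k)) -
        aeval (r k) (S.dt i) * e2 (S.y 0 : ℂ) +
        6 * Complex.I * aeval (r k) (S.dt i) * aeval (r k) (S.pC i) / (π * S.den i (r k))) *
        (e4 (S.y 0 : ℂ) * e6 (S.y 0 : ℂ)) / discriminant (S.y 0) * _ * _ - _ = 0
      field_simp
      ring
    refine ⟨?_, ?_, ?_⟩
    · have e : g2 i = (VS (Sum.inl (i, 2)) * algebraMap ℂ Ult (discriminant (S.y 0)) * dn ^ 2 *
          (algebraMap ℂ Ult (e4 (S.y 0 : ℂ) * e6 (S.y 0 : ℂ)))⁻¹ +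
          (dd * algebraMap ℂ Ult (e2 (S.y 0 : ℂ)) * dn ^ 2 -
          algebraMap ℂ Ult (6 * Complex.I / π) * dd * mkU (fun k ↦ aeval (r k) (S.pC i)) * dn)) *
          (dd ^ 2)⁻¹ := by
        rw [eq_mul_inv_iff_mul_eq₀ (pow_ne_zero 2 hdd0), r2, mul_inv_cancel_right₀ c2]
        ring
      rw [e]
      exact ((((a2.mul (aR _)).mul (adn.pow 2)).mul (aR _).inv).add
        (((add'.mul (aR _)).mul (adn.pow 2)).sub
          ((((aR _).mul add').mul (aP _)).mul adn))).mul (add'.pow 2).inv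
    · have e : g4 i = VS (Sum.inl (i, 0)) * dn ^ 4 * algebraMap ℂ Ult (discriminant (S.y 0)) *
          (dd ^ 4 * algebraMap ℂ Ult (e4 (S.y 0 : ℂ) ^ 2))⁻¹ := by
        rw [eq_mul_inv_iff_mul_eq₀ (mul_ne_zero (pow_ne_zero 4 hdd0) c4), r0]
        ring
      rw [e]
      exact ((a0.mul (adn.pow 4)).mul (aR _)).mul ((add'.pow 4).mul (aR _)).inv
    · have e : g6 i = VS (Sum.inl (i, 1)) * dn ^ 6 * algebraMap ℂ Ult (discriminant (S.y 0)) *
          (dd ^ 6 * algebraMap ℂ Ult (e6 (S.y 0 : ℂ)))⁻¹ := by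
        rw [eq_mul_inv_iff_mul_eq₀ (mul_ne_zero (pow_ne_zero 6 hdd0) c6), r1]
        ring
      rw [e]
      exact ((a1.mul (adn.pow 6)).mul (aR _)).mul ((add'.pow 6).mul (aR _)).inv
  set et : (Fin n × Fin 3) ⊕ Fin m → Ult :=
    Sum.elim (fun p : Fin n × Fin 3 ↦ mkU (fun k ↦ ee (S.φ p.1 (r k)) p.2))
      (fun s : Fin m ↦ mkU (fun k ↦ r k s)) with het
  have hind : M.Indep (Set.range et) := by
    rw [hM, AlgebraicIndependent.matroid_indep_iff]
    exact hX.to_subtype_range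
  have hcardI : Fintype.card ((Fin n × Fin 3) ⊕ Fin m) = 3 * n + m := by
    rw [Fintype.card_sum, Fintype.card_prod, Fintype.card_fin, Fintype.card_fin, Fintype.card_fin,
      mul_comm n 3]
  have hcard : (Set.range et).encard = ((3 * n + m : ℕ) : ℕ∞) := by
    rw [← Set.image_univ, hX.injective.encard_image, Set.encard_univ, ENat.card_eq_coe_fintype_card,
      hcardI]
  have hsub : Set.range et ⊆ M.closure (Set.range VS) := by
    rw [hM, AlgebraicIndependent.matroid_closure_eq]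
    rintro _ ⟨u, rfl⟩
    change IsAlgebraic D (et u)
    rcases u with ⟨i, l⟩ | s
    · fin_cases l
      · exact (key i).1
      · exact (key i).2.1
      · exact (key i).2.2
    · exact ar s
  obtain ⟨B, hB'⟩ := M.exists_isBasis (Set.range VS) (by rw [hM]; exact Set.subset_univ _)
  have h1 : ((3 * n + m : ℕ) : ℕ∞) ≤ B.encard := by
    rw [hB'.encard_eq_eRk, ← M.eRk_closure_eq, ← hcard]
    exact hind.encard_le_eRk_of_subset hsub
  have hBi := hB'.indep
  rw [hM, AlgebraicIndependent.matroid_indep_iff] at hBi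
  obtain ⟨f, hf⟩ := extract_indep' VS (B := B) hBi hB'.subset h1
  exact indep_of_card VS hcardI hf

theorem diff_WF {m n : ℕ} (S : Orb m n 1) (j : (Fin n × Fin 3) ⊕ Fin m) :
    DifferentiableAt ℂ (fun s ↦ WF S s j) S.x := by
  have hP : ∀ p : MvPolynomial (Fin m) ℤ,
      AnalyticAt ℂ (fun s : Fin m → ℂ ↦ aeval s p) S.x := fun p ↦ an_aeval p S.x
  have hden : ∀ i, AnalyticAt ℂ (S.den i) S.x := fun i ↦ S.an_den i S.x
  rcases j with ⟨i, l⟩ | s
  · have d4 : AnalyticAt ℂ (fun s ↦ e4 (S.φ i s)) S.x :=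
      AnalyticAt.fun_comp (g := fun w ↦ e4 w) (f := S.φ i) (analytic_E4 _ (S.im_φ i)) (S.an_φ i)
    have d6 : AnalyticAt ℂ (fun s ↦ e6 (S.φ i s)) S.x :=
      AnalyticAt.fun_comp (g := fun w ↦ e6 w) (f := S.φ i) (analytic_E6 _ (S.im_φ i)) (S.an_φ i)
    have d2 : AnalyticAt ℂ (fun s ↦ e2 (S.φ i s)) S.x :=
      AnalyticAt.fun_comp (g := fun w ↦ e2 w) (f := S.φ i) (analytic_E2 _ (S.im_φ i)) (S.an_φ i)
    have hq : AnalyticAt ℂ (fun s : Fin m → ℂ ↦ aeval s (S.dt i) / S.den i s) S.x :=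
      AnalyticAt.fun_div (hP _) (hden i) (S.den_x i)
    have hpi : (π : ℂ) ≠ 0 := by exact_mod_cast Real.pi_ne_zero
    fin_cases l
    · have h1 : AnalyticAt ℂ (fun s ↦ (aeval s (S.dt i) / S.den i s) ^ 4 * e4 (S.φ i s) *
          e4 (S.y 0 : ℂ) ^ 2 / discriminant (S.y 0)) S.x :=
        ((((hq.fun_pow 4).fun_mul d4).fun_mul analyticAt_const).fun_div analyticAt_const
          (discriminant_ne_zero _))
      exact h1.differentiableAt
    · have h1 : AnalyticAt ℂ (fun s ↦ (aeval s (S.dt i) / S.den i s) ^ 6 * e6 (S.φ i s) *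
          e6 (S.y 0 : ℂ) / discriminant (S.y 0)) S.x :=
        ((((hq.fun_pow 6).fun_mul d6).fun_mul analyticAt_const).fun_div analyticAt_const
          (discriminant_ne_zero _))
      exact h1.differentiableAt
    · have h1 : AnalyticAt ℂ (fun s ↦ ((aeval s (S.dt i) / S.den i s) ^ 2 * e2 (S.φ i s) -
          aeval s (S.dt i) * e2 (S.y 0 : ℂ) +
          6 * Complex.I * aeval s (S.dt i) * aeval s (S.pC i) / (π * S.den i s)) *
          (e4 (S.y 0 : ℂ) * e6 (S.y 0 : ℂ)) / discriminant (S.y 0)) S.x :=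
        ((((((hq.fun_pow 2).fun_mul d2).fun_sub ((hP _).fun_mul analyticAt_const)).fun_add
          (AnalyticAt.fun_div ((analyticAt_const.fun_mul (hP _)).fun_mul (hP _))
            (analyticAt_const.fun_mul (hden i)) (mul_ne_zero hpi (S.den_x i)))).fun_mul
          analyticAt_const).fun_div analyticAt_const (discriminant_ne_zero _))
      exact h1.differentiableAt
  · exact differentiableAt_pi.mp differentiableAt_id s

end AO
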