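import Pool.Agent.H32.AO.C2

/-!
# MP_ede373, orbits of algebraic points, row C4: the sequences of approximations

As the proof of `H32.T5.Orb.appr` (file `Pool/Agent/H32/T5/Y5.lean`, end), with `q` instead of `H`. `A, Q0, ε` from
`rootRel_WF`. Given `κ`: `σ` from `hS (κ + 1)`; for `k : ℕ` take `q k ≥ Q0 + k + 2 + ⌈|log ε|⌉₊ + 1` and `p k` from `hσ`
(`K = Q0 + k + 2 + ⌈|log ε|⌉₊ + 1`); `r k s = p k s / q k`. `|t s - p/q| < exp (-q^(κ+1)) < ε` since
`q^(κ+1) ≥ q > |log ε|`. `‖r k - x‖ ≤ exp (-q^(κ+1)) ≤ exp (-q^κ)`. Limit: as there. Independence: `ult_ind` with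
`S.nonvan_φ` (here `S.c i = 0`: `c_eq`; `NE0`, `NE1` are the hypotheses of `nonvan_φ` after rewriting `S.c i = 0`).
-/

set_option autoImplicit false

open UpperHalfPlane hiding I
open Complex EisensteinSeries ModularForm MatrixGroups Manifold
open scoped Real Topology
open MvPolynomial Filter

namespace AO

open H32 H32.T3 H32.T4

theorem appr_WF {m n : ℕ} (S : Orb m n 1) (hS : SHier S.t) (hne : NE0 S) (hrel : NE1 S) :
    ∃ A : ℕ, ∀ κ : ℕ, ∃ (q : ℕ → ℕ) (r : ℕ → Fin m → ℂ), (∀ k, k + 2 ≤ q k) ∧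
      (∀ k j, RootRel ((q k : ℝ) ^ A) (jf (S.y 0)) (WF S (r k) j)) ∧
      (∀ k, ‖r k - S.x‖ ≤ Real.exp (-(q k : ℝ) ^ κ)) ∧ Tendsto r atTop (𝓝 S.x) ∧
      AlgebraicIndependent ℂ (Sum.elim
        (fun p : Fin n × Fin 3 ↦ mkU (fun k ↦ ee (S.φ p.1 (r k)) p.2))
        (fun s : Fin m ↦ mkU (fun k ↦ r k s))) := by
  obtain ⟨A, Q0, ε, hε, hA⟩ := rootRel_WF S
  refine ⟨A, fun κ ↦ ?_⟩
  obtain ⟨σ, hσ⟩ := hS (κ + 1)
  obtain ⟨B, hB⟩ : ∃ B : ℕ, |Real.log ε| < B := exists_nat_gt _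
  choose q hq p hp1 hp2 using fun k : ℕ ↦ hσ (Q0 + k + 2 + B)
  set r : ℕ → Fin m → ℂ := fun k s ↦ (p k s : ℂ) / q k with hr
  have hrn : ∀ k s, ‖r k s - S.x s‖ = |S.t s - p k s / q k| := fun k s ↦ by
    have e : r k s - S.x s = (((p k s : ℝ) / q k - S.t s : ℝ) : ℂ) := by
      rw [hr, Orb.x]
      push_cast
      rfl
    rw [e, Complex.norm_real, Real.norm_eq_abs, abs_sub_comm]
  have hHk : ∀ k, k + 2 ≤ q k := fun k ↦ le_trans (by omega) (hq k)
  have hH1 : ∀ k, (1 : ℝ) ≤ q k := fun k ↦ by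
    have := hHk k
    exact_mod_cast (by omega : 1 ≤ q k)
  have hle1 : ∀ k s, |S.t s - p k s / q k| ≤ 1 := fun k s ↦ by
    refine ((hp1 k s).2.le).trans (Real.exp_le_one_iff.mpr ?_)
    have : (0 : ℝ) ≤ (q k : ℝ) ^ (κ + 1) := by positivity
    linarith
  have hlt : ∀ k s, |S.t s - p k s / q k| < ε := fun k s ↦ by
    refine (hp1 k s).2.trans ?_
    rw [← Real.lt_log_iff_exp_lt hε]
    have h1 : (q k : ℝ) ≤ (q k : ℝ) ^ (κ + 1) := le_self_pow₀ (hH1 k) (by omega)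
    have h2 : (B : ℝ) ≤ q k := by
      have := hq k
      exact_mod_cast (by omega : B ≤ q k)
    have h3 := neg_abs_le (Real.log ε)
    linarith
  have hbd : ∀ k, ‖r k - S.x‖ ≤ Real.exp (-(q k : ℝ) ^ (κ + 1)) := fun k ↦ by
    rw [pi_norm_le_iff_of_nonneg (Real.exp_pos _).le]
    intro s
    have h1 := hrn k s
    rw [Pi.sub_apply, h1]
    exact (hp1 k s).2.le
  have htend : Tendsto r atTop (𝓝 S.x) := by
    rw [tendsto_iff_norm_sub_tendsto_zero]
    have h1 : Tendsto (fun n : ℕ ↦ Real.exp (-(n : ℝ))) atTop (𝓝 0) :=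
      Real.tendsto_exp_neg_atTop_nhds_zero.comp tendsto_natCast_atTop_atTop
    refine squeeze_zero (fun _ ↦ norm_nonneg _) (fun k ↦ ?_) h1
    refine (hbd k).trans (Real.exp_le_exp.mpr (neg_le_neg ?_))
    have h2 : (k : ℝ) ≤ q k := by
      have := hHk k
      exact_mod_cast (by omega : k ≤ q k)
    exact h2.trans (le_self_pow₀ (hH1 k) (by omega))
  refine ⟨q, r, hHk, fun k j ↦ ?_, fun k ↦ (hbd k).trans (Real.exp_le_exp.mpr (neg_le_neg ?_)),
    htend, ?_⟩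
  · exact hA (q k) (p k) (le_trans (by omega) (hq k)) (hlt k) j
  · exact pow_le_pow_right₀ (hH1 k) (by omega)
  · have hne' : ∀ i, ¬ ∃ a b c d : ℚ, 0 < a * d - b * c ∧
        S.φ i S.x = ((a : ℂ) * (S.y (S.c i) : ℂ) + b) / ((c : ℂ) * (S.y (S.c i) : ℂ) + d) := by
      intro i
      rw [c_eq S i]
      exact hne i
    exact ult_ind S.x S.φ S.an_φ S.im_φ (S.nonvan_φ hne' hrel) r htend σ
      (Eventually.of_forall fun k s ↦ by
        rw [hrn]
        exact (hp1 k s).1) (fun C ↦ by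
        filter_upwards [eventually_ge_atTop C] with k hk a b hab
        rw [hrn, hrn]
        refine (hp2 k a b hab).le.trans ?_
        exact pow_le_pow_of_le_one (abs_nonneg _) (hle1 k _) (by omega))

end AO
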