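import Pool.Agent.H32.AO.B4
import Pool.Agent.H32.AO.C3
import Pool.Agent.H32.AO.C4

/-!
# MP_ede373, orbits of algebraic points, row C5: independence of the family and `j(y)`

`near_WF`: `K` with `‖WF S s j - WF S x j‖ ≤ K ‖s - x‖` for `s` near `x` (`diff_WF`, `DifferentiableAt.isBigO_sub`, all
`j`).

`transc_of_meas`: if `f(J) = 0`, `f ≠ 0`, then with `Λ ≥ Λ0, natDegree f, log (nr f)` we get `exp (..) ≤ 0`.

`indep1`: it suffices over `ℤ` (`AlgebraicIndependent.extendScalars ℚ`, as in `H32.T5.main_Y`, with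
`IsLocalization.isAlgebraic ℚ (nonZeroDivisors ℤ)`). Let `G` be an integer polynomial in the variables
`((Fin n × Fin 3) ⊕ Fin m) ⊕ Unit` with `G(WF x, J) = 0`, `J = jf (S.y 0)`. `N = 3 n + m`, `e : Fin N ≃ (Fin n × Fin 3) ⊕ Fin m`
(`Fintype.equivFinOfCardEq` or `(Fintype.equivFin _).symm`), `G1 = rename (Sum.map e.symm id) G`; `NL J hJ G1` gives `A1, X0`.
`A` from `appr_WF`, `κ = A A1 + 1`; sequences `q, r`. With `X = (q k)^A` (natural number; if `A = 0` replace `A` by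
`A + 1`, `RootRel.mono`): `RootRel X J (WF (r k) j)`, so `v_k = G(WF (r k), J)` is `0` or `‖v_k‖ ≥ exp (-(q k)^(A A1))`. But
`s ↦ G(WF s, J)` is differentiable at `x` (induction on `G`, `diff_WF`) with value `0` at `x`, so
`‖v_k‖ ≤ K ‖r k - x‖ ≤ K exp (-(q k)^κ)`, which is smaller for large `k`. So `v_k = 0` eventually.
`H = aeval (Sum.elim (fun j ↦ X j) (fun _ ↦ C J)) G ∈ MvPolynomial (..) ℂ`: `aeval (WF (r k)) H = v_k`, so
`aeval (fun j ↦ mkU ..) H = 0` (`aeval_mkU'`, `mkU_zero_of_ev`) and `H = 0` by `rank_WF`. As `J` is transcendental over `ℤ`,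
`G = 0`: the family `(X j, C J)` is algebraically independent over `ℤ` (for instance: `MvPolynomial.sumAlgEquiv` /
`MvPolynomial.sumToIter`: `H = MvPolynomial.map (aeval (fun _ ↦ J)) (sumToIter G)`, `MvPolynomial.map_injective`, and
`aeval (fun _ : Unit ↦ J)` is injective on `MvPolynomial Unit ℤ`, `algebraicIndependent_unique_type_iff`).
-/

set_option autoImplicit false
set_option linter.unusedSimpArgs false

open UpperHalfPlane hiding I
open Complex EisensteinSeries ModularForm MatrixGroups Manifold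
open scoped Real Topology
open MvPolynomial Filter

namespace AO

open H32 H32.T3 H32.T4

private theorem C5_diff {ι : Type} {m : ℕ} {x : Fin m → ℂ} {V : (Fin m → ℂ) → ι → ℂ}
    (h : ∀ i, DifferentiableAt ℂ (fun s ↦ V s i) x) (G : MvPolynomial ι ℤ) :
    DifferentiableAt ℂ (fun s ↦ aeval (V s) G) x := by
  induction G using MvPolynomial.induction_on with
  | C c =>
    simp only [MvPolynomial.aeval_C]
    exact differentiableAt_const _
  | add p q hp hq =>
    simp only [map_add]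
    exact hp.add hq
  | mul_X p i hp =>
    simp only [map_mul, MvPolynomial.aeval_X]
    exact hp.mul (h i)

private theorem C5_near {m : ℕ} {x : Fin m → ℂ} {f : (Fin m → ℂ) → ℂ}
    (h : DifferentiableAt ℂ f x) : ∃ K : ℝ, 0 < K ∧ ∀ᶠ s in 𝓝 x, ‖f s - f x‖ ≤ K * ‖s - x‖ := by
  obtain ⟨K, hK0, hK⟩ := h.isBigO_sub.exists_pos
  rw [Asymptotics.IsBigOWith] at hK
  exact ⟨K, hK0, hK⟩

theorem near_WF {m n : ℕ} (S : Orb m n 1) : ∃ K : ℝ, 0 < K ∧ ∀ᶠ s in 𝓝 S.x, ∀ j,
    ‖WF S s j - WF S S.x j‖ ≤ K * ‖s - S.x‖ := by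
  choose c hc0 hc using fun j => C5_near (diff_WF S j)
  refine ⟨∑ j, c j + 1, ?_, ?_⟩
  · have : 0 ≤ ∑ j, c j := Finset.sum_nonneg fun j _ => (hc0 j).le
    linarith
  · filter_upwards [eventually_all.2 hc] with s hs j
    refine (hs j).trans ?_
    refine mul_le_mul_of_nonneg_right ?_ (norm_nonneg _)
    have := Finset.single_le_sum (f := c) (fun i _ => (hc0 i).le) (Finset.mem_univ j)
    linarith

theorem transc_of_meas {J : ℂ} (h : Meas J) : Transcendental ℤ J := by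
  rintro ⟨f, hf0, hf⟩
  obtain ⟨κ, Λ0, hm⟩ := h
  have h1 := hm f (Λ0 + f.natDegree + ⌈CZ.nr f⌉₊) hf0 (by omega) (by omega) (by
    have h2 : CZ.nr f ≤ ((Λ0 + f.natDegree + ⌈CZ.nr f⌉₊ : ℕ) : ℝ) := by
      refine (Nat.le_ceil _).trans ?_
      exact_mod_cast (by omega : ⌈CZ.nr f⌉₊ ≤ Λ0 + f.natDegree + ⌈CZ.nr f⌉₊)
    have h3 := Real.add_one_le_exp ((Λ0 + f.natDegree + ⌈CZ.nr f⌉₊ : ℕ) : ℝ)
    refine le_trans ?_ (h2.trans ((by linarith :
      ((Λ0 + f.natDegree + ⌈CZ.nr f⌉₊ : ℕ) : ℝ) ≤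
        Real.exp ((Λ0 + f.natDegree + ⌈CZ.nr f⌉₊ : ℕ) : ℝ))))
    exact le_of_eq rfl)
  rw [hf, norm_zero] at h1
  have := Real.exp_pos (-((Λ0 + f.natDegree + ⌈CZ.nr f⌉₊ : ℕ) : ℝ) ^ κ)
  linarith

/-- Polynomials in independent variables and a transcendental constant. -/
private theorem C5_key {σ : Type} {J : ℂ} (hJ : Transcendental ℤ J)
    (G : MvPolynomial (σ ⊕ Unit) ℤ)
    (h : aeval (Sum.elim (fun j : σ ↦ (X j : MvPolynomial σ ℂ)) (fun _ : Unit ↦ C J)) G = 0) :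
    G = 0 := by
  set φ : MvPolynomial Unit ℤ →+* ℂ :=
    ((aeval (fun _ : Unit ↦ J) : MvPolynomial Unit ℤ →ₐ[ℤ] ℂ) : MvPolynomial Unit ℤ →+* ℂ) with hφ
  have hinj : Function.Injective φ := by
    have h1 : AlgebraicIndependent ℤ (fun _ : Unit ↦ J) := by
      rw [algebraicIndependent_unique_type_iff]
      exact hJ
    exact h1
  have key : ((aeval (Sum.elim (fun j : σ ↦ (X j : MvPolynomial σ ℂ)) (fun _ : Unit ↦ C J)) :
      MvPolynomial (σ ⊕ Unit) ℤ →ₐ[ℤ] MvPolynomial σ ℂ) : MvPolynomial (σ ⊕ Unit) ℤ →+*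
        MvPolynomial σ ℂ) =
      (MvPolynomial.map φ).comp ((sumAlgEquiv ℤ σ Unit : MvPolynomial (σ ⊕ Unit) ℤ →ₐ[ℤ]
        MvPolynomial σ (MvPolynomial Unit ℤ)) : MvPolynomial (σ ⊕ Unit) ℤ →+*
        MvPolynomial σ (MvPolynomial Unit ℤ)) := by
    apply MvPolynomial.ringHom_ext'
    · exact RingHom.ext_int _ _
    · rintro (j | u)
      · show aeval _ (X (Sum.inl j)) = MvPolynomial.map φ (sumAlgEquiv ℤ σ Unit (X (Sum.inl j)))
        rw [aeval_X, Sum.elim_inl, sumAlgEquiv_X_inl, MvPolynomial.map_X]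
      · show aeval _ (X (Sum.inr u)) = MvPolynomial.map φ (sumAlgEquiv ℤ σ Unit (X (Sum.inr u)))
        rw [aeval_X, Sum.elim_inr, sumAlgEquiv_X_inr, MvPolynomial.map_C]
        congr 1
        show J = aeval (fun _ : Unit ↦ J) (X u)
        rw [aeval_X]
  have h2 : MvPolynomial.map φ (sumAlgEquiv ℤ σ Unit G) = 0 := by
    have h3 := congrArg (fun f => f G) key
    change aeval (Sum.elim (fun j : σ ↦ (X j : MvPolynomial σ ℂ)) (fun _ : Unit ↦ C J)) G =
      MvPolynomial.map φ (sumAlgEquiv ℤ σ Unit G) at h3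
    rw [← h3, h]
  have h4 : sumAlgEquiv ℤ σ Unit G = 0 := MvPolynomial.map_injective φ hinj (by rw [h2, map_zero])
  exact (sumAlgEquiv ℤ σ Unit).injective (by rw [h4, map_zero])

theorem indep1 {m n : ℕ} (S : Orb m n 1) (h4 : E₄ (S.y 0) ≠ 0) (h6 : E₆ (S.y 0) ≠ 0)
    (hM : Meas (jf (S.y 0))) (hS : SHier S.t) (hne : NE0 S) (hrel : NE1 S) :
    AlgebraicIndependent ℚ (Sum.elim (WF S S.x) (fun _ : Unit ↦ jf (S.y 0))) := by
  classical
  have hJt : Transcendental ℤ (jf (S.y 0)) := transc_of_meas hM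
  set J := jf (S.y 0) with hJdef
  have : Algebra.IsAlgebraic ℤ ℚ := IsLocalization.isAlgebraic ℚ (nonZeroDivisors ℤ)
  suffices hZ : AlgebraicIndependent ℤ (Sum.elim (WF S S.x) (fun _ : Unit ↦ J)) from
    hZ.extendScalars ℚ
  rw [algebraicIndependent_iff]
  intro G hG
  -- the function
  set F : (Fin m → ℂ) → ℂ := fun s ↦ aeval (Sum.elim (WF S s) (fun _ : Unit ↦ J)) G with hF
  have hFd : DifferentiableAt ℂ F S.x := by
    refine C5_diff (V := fun s ↦ Sum.elim (WF S s) (fun _ : Unit ↦ J)) ?_ G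
    rintro (j | u)
    · exact diff_WF S j
    · exact differentiableAt_const _
  have hFx : F S.x = 0 := hG
  obtain ⟨K, hK0, hK⟩ := C5_near hFd
  rw [hFx] at hK
  simp only [sub_zero] at hK
  -- the renamed polynomial
  obtain ⟨N, e⟩ : ∃ N : ℕ, Nonempty (((Fin n × Fin 3) ⊕ Fin m) ≃ Fin N) :=
    ⟨_, ⟨Fintype.equivFin _⟩⟩
  obtain ⟨e⟩ := e
  obtain ⟨A1, X0, hNL⟩ := NL J hM (rename (Sum.map e id) G)
  have hren : ∀ s, aeval (Sum.elim (fun a ↦ WF S s (e.symm a)) (fun _ : Unit ↦ J))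
      (rename (Sum.map e id) G) = F s := by
    intro s
    rw [aeval_rename]
    show aeval _ G = aeval _ G
    congr 2
    funext a
    rcases a with a | u
    · show WF S s (e.symm (e a)) = WF S s a
      rw [Equiv.symm_apply_apply]
    · rfl
  obtain ⟨A, hA⟩ := appr_WF S hS hne hrel
  obtain ⟨q, r, hq, hR, hb, hr, hX⟩ := hA ((A + 1) * A1 + 1)
  have hrank := rank_WF S h4 h6 r hr hX
  -- vanishing
  have hlarge : ∀ᶠ k : ℕ in atTop, (1 : ℝ) + K + 1 ≤ (k : ℝ) :=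
    tendsto_natCast_atTop_atTop.eventually_ge_atTop _
  have hv : ∀ᶠ k in atTop, F (r k) = 0 := by
    filter_upwards [hr.eventually hK, hlarge, eventually_ge_atTop X0] with k h1 h2 h3
    by_contra hne0
    have hqk : k + 2 ≤ q k := hq k
    have hq1 : 1 ≤ q k := by omega
    have hXk : X0 ≤ 1 * q k ^ (A + 1) := by
      have h5 : q k ≤ q k ^ (A + 1) := Nat.le_self_pow (by omega) _
      omega
    have hRR : ∀ a : Fin N, RootRel ((1 * q k ^ (A + 1) : ℕ) : ℝ) J (WF S (r k) (e.symm a)) := by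
      intro a
      refine (hR k (e.symm a)).mono ?_
      push_cast
      rw [one_mul]
      exact pow_le_pow_right₀ (by exact_mod_cast hq1) (by omega)
    rcases hNL (1 * q k ^ (A + 1)) (fun a ↦ WF S (r k) (e.symm a)) hXk hRR with h5 | h5
    · rw [hren] at h5
      exact hne0 h5
    · rw [hren] at h5
      have h6' : ‖F (r k)‖ ≤ K * Real.exp (-(q k : ℝ) ^ ((A + 1) * A1 + 1)) :=
        h1.trans (mul_le_mul_of_nonneg_left (hb k) hK0.le)
      have h7 := exp_cmp (L := K) hK0.le (C := 1) (E := A + 1) (κ := A1) (q := q k) le_rfl (by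
        rw [Nat.cast_one, one_pow]
        refine h2.trans ?_
        exact_mod_cast (by omega : k ≤ q k))
      linarith
  -- the polynomial over ℂ
  refine C5_key hJt G ?_
  set H : MvPolynomial ((Fin n × Fin 3) ⊕ Fin m) ℂ :=
    aeval (Sum.elim (fun j : (Fin n × Fin 3) ⊕ Fin m ↦
      (X j : MvPolynomial ((Fin n × Fin 3) ⊕ Fin m) ℂ)) (fun _ : Unit ↦ C J)) G with hH
  have hHev : ∀ s, aeval (WF S s) H = F s := by
    intro s
    have h1 := MvPolynomial.comp_aeval_apply (R := ℤ) (Sum.elim (fun j : (Fin n × Fin 3) ⊕ Fin m ↦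
      (X j : MvPolynomial ((Fin n × Fin 3) ⊕ Fin m) ℂ)) (fun _ : Unit ↦ C J))
      (((aeval (WF S s) : MvPolynomial ((Fin n × Fin 3) ⊕ Fin m) ℂ →ₐ[ℂ] ℂ) :
        MvPolynomial ((Fin n × Fin 3) ⊕ Fin m) ℂ →+* ℂ).toIntAlgHom) G
    refine Eq.trans h1 ?_
    show aeval _ G = aeval _ G
    congr 2
    funext a
    rcases a with a | u
    · show aeval (WF S s) (X a) = WF S s a
      rw [aeval_X]
    · show aeval (WF S s) (C J) = J
      rw [aeval_C]
      rfl
  refine (algebraicIndependent_iff.mp hrank) H ?_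
  rw [aeval_mkU']
  refine mkU_zero_of_ev ?_
  filter_upwards [hv] with k hk
  rw [← hk]
  exact hHev (r k)

end AO
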