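import Pool.Agent.H32.AO.A8
import Pool.Agent.H32.AO.A10
import Pool.Agent.H32.AO.C5

/-!
# MP_ede373, orbits of algebraic points, row C6: one more independent number

`not_all_alg`: suppose all `P i` are algebraic over `ℚ(WF x, J)`, `J = jf (S.y 0)`. `J` is transcendental over `ℚ`
(`transc_of_meas`, fraction field), so `ScAppr ![J] κ0` (`line_sc`, `κ0 < 2`). `N = 3 n + m`,
`e : Fin N ≃ (Fin n × Fin 3) ⊕ Fin m`, `winf = fun l ↦ WF S S.x (e l)`. Apply `chain` with `k0 = 1`, `P0 = ![J]`, `j0 = 0`,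
`A` from `appr_WF`: given `κ, Q`, take the sequences for `κ + 1` and `k` large: `‖WF (r k) j - WF x j‖ ≤ K exp (-(q k)^(κ+1))
≤ exp (-(q k)^κ)` (`near_WF` along `r → x`; `log K ≤ (q k)^κ ((q k) - 1)` for large `k`, `q k ≥ k + 2`). The range of
`Fin.append ![J] winf` is the range of `Sum.elim (WF x) (fun _ ↦ J)`.

`indep2`: let `θ1, θ2` be two numbers such that all `P i` are algebraic over `ℚ(J', θ1, θ2)` with `J' = J` here. If both
`θ1, θ2` were algebraic over `L = ℚ(WF x, J)`, then so were all `P i` (`IntermediateField.adjoin ℚ {J, θ1, θ2}` is contained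
in the algebraic closure of `L` in `ℂ`; `algebraicClosure`, `IsAlgebraic.trans` / `isAlgebraic_of_mem..`), a
contradiction with `not_all_alg`. So one of them, `θ`, is transcendental over `L`, equivalently over
`Algebra.adjoin ℚ (range F)`, `F` the independent family of `indep1`, and `AlgebraicIndependent.sumElim_iff` /
`AlgebraicIndependent.option_iff` (see the end of `H32.T5.Orb.V_indep` in `Pool/Agent/H32/T5/Y6.lean`:
`AlgebraicIndependent.sumElim_iff`, `algebraicIndependent_unique_type_iff`) gives the claim.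
-/

set_option autoImplicit false
set_option linter.unusedSimpArgs false

open UpperHalfPlane hiding I
open Complex EisensteinSeries ModularForm MatrixGroups Manifold
open scoped Real Topology
open MvPolynomial Filter

namespace AO

open H32 H32.T3 H32.T4 CZ

private theorem C6_num (K : ℝ) (κ q : ℕ) (hq : 1 ≤ q) (hK : K ≤ q) (x : ℝ)
    (hK0 : 0 < K) (hx : x ≤ Real.exp (-(q : ℝ) ^ (κ + 1))) :
    K * x ≤ Real.exp (-(q : ℝ) ^ κ) := by
  have hq1 : (1 : ℝ) ≤ q := by exact_mod_cast hq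
  have h1 : (q : ℝ) ≤ Real.exp ((q : ℝ) - 1) := by
    have := Real.add_one_le_exp ((q : ℝ) - 1)
    linarith
  have h2 : K * x ≤ Real.exp ((q : ℝ) - 1) * Real.exp (-(q : ℝ) ^ (κ + 1)) := by
    refine (mul_le_mul_of_nonneg_left hx hK0.le).trans ?_
    exact mul_le_mul_of_nonneg_right (hK.trans h1) (Real.exp_pos _).le
  refine h2.trans ?_
  rw [← Real.exp_add]
  apply Real.exp_le_exp.2
  have h3 : (1 : ℝ) ≤ (q : ℝ) ^ κ := one_le_pow₀ hq1
  have h4 : (1 : ℝ) * ((q : ℝ) - 1) ≤ (q : ℝ) ^ κ * ((q : ℝ) - 1) :=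
    mul_le_mul_of_nonneg_right h3 (by linarith)
  have h5 : (q : ℝ) ^ (κ + 1) = (q : ℝ) ^ κ * q := pow_succ _ _
  rw [h5]
  linarith

private theorem C6_range {ι : Type} {N : ℕ} (e : Fin N ≃ ι) (f : ι → ℂ) (J : ℂ) :
    Set.range (Fin.append ![J] (fun l ↦ f (e l)) : Fin (1 + N) → ℂ) =
      Set.range (Sum.elim f (fun _ : Unit ↦ J)) := by
  ext z
  constructor
  · rintro ⟨i, rfl⟩
    induction i using Fin.addCases with
    | left a =>
      rw [Fin.append_left]
      refine ⟨Sum.inr (), ?_⟩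
      have : a = 0 := Subsingleton.elim _ _
      rw [this]
      rfl
    | right b =>
      rw [Fin.append_right]
      exact ⟨Sum.inl (e b), rfl⟩
  · rintro ⟨i, rfl⟩
    rcases i with i | i
    · refine ⟨Fin.natAdd 1 (e.symm i), ?_⟩
      rw [Fin.append_right]
      simp
    · refine ⟨Fin.castAdd N 0, ?_⟩
      rw [Fin.append_left]
      rfl

private theorem C6_up {S T : Set ℂ} (x : ℂ)
    (hT : ∀ θ ∈ T, IsAlgebraic (IntermediateField.adjoin ℚ S) θ)
    (hx : IsAlgebraic (IntermediateField.adjoin ℚ T) x) :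
    IsAlgebraic (IntermediateField.adjoin ℚ S) x := by
  set L := IntermediateField.adjoin ℚ S with hL
  have hle : IntermediateField.adjoin ℚ T ≤ (algebraicClosure L ℂ).restrictScalars ℚ := by
    rw [IntermediateField.adjoin_le_iff]
    intro θ hθ
    exact mem_algebraicClosure_iff.2 (hT θ hθ)
  have h1 : IsAlgebraic (algebraicClosure L ℂ) x := by
    have h2 := hx.ringHom_of_comp_eq
      (S := algebraicClosure L ℂ) (B := ℂ)
      ((IntermediateField.inclusion hle : _ →+* ((algebraicClosure L ℂ).restrictScalars ℚ)) :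
        IntermediateField.adjoin ℚ T →+* algebraicClosure L ℂ) (RingHom.id ℂ)
      (RingHom.injective _) (by ext z; rfl)
    exact h2
  exact h1.restrictScalars L

open scoped IntermediateField.algebraAdjoinAdjoin in
private theorem C6_frac {S : Set ℂ} {x : ℂ} (hx : IsAlgebraic (Algebra.adjoin ℚ S) x) :
    IsAlgebraic (IntermediateField.adjoin ℚ S) x :=
  (IsFractionRing.isAlgebraic_iff (Algebra.adjoin ℚ S) (IntermediateField.adjoin ℚ S) ℂ).1 hx

theorem not_all_alg {m n : ℕ} (S : Orb m n 1) (hM : Meas (jf (S.y 0))) (hS : SHier S.t)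
    (hne : NE0 S) (hrel : NE1 S) {k : ℕ} (P : Fin k → ℂ) (κ0 : ℝ) (h1 : 1 ≤ κ0) (h2 : κ0 < 2)
    (hP : ¬ Appr P κ0) :
    ¬ ∀ i, IsAlgebraic (IntermediateField.adjoin ℚ
      (Set.range (Sum.elim (WF S S.x) (fun _ : Unit ↦ jf (S.y 0))))) (P i) := by
  intro halg
  have hJ : Transcendental ℚ (jf (S.y 0)) := fun h ↦
    transc_of_meas hM ((IsFractionRing.isAlgebraic_iff ℤ ℚ ℂ).2 h)
  have h0 : ScAppr ![jf (S.y 0)] κ0 := line_sc _ hJ κ0 h2
  obtain ⟨A, hA⟩ := appr_WF S hS hne hrel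
  obtain ⟨K, hK0, hK⟩ := near_WF S
  refine chain P ![jf (S.y 0)] 0
    (fun l ↦ WF S S.x ((Fintype.equivFin ((Fin n × Fin 3) ⊕ Fin m)).symm l)) κ0 h1 h2.le A hP h0
    ?_ ?_
  · intro κ Q
    obtain ⟨q, r, hq, hroot, hr, hlim, -⟩ := hA (κ + 1)
    obtain ⟨k, hk1, hk2⟩ :=
      ((hlim.eventually hK).and (eventually_ge_atTop (Q + ⌈K⌉₊))).exists
    have hqk := hq k
    refine ⟨q k, fun l ↦ WF S (r k) ((Fintype.equivFin ((Fin n × Fin 3) ⊕ Fin m)).symm l),
      by omega, fun l ↦ hroot k _, fun l ↦ ?_⟩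
    refine (hk1 _).trans ?_
    refine C6_num K κ (q k) (by omega) ?_ _ hK0 (hr k)
    exact (Nat.le_ceil K).trans (by exact_mod_cast (by omega : ⌈K⌉₊ ≤ q k))
  · intro i
    rw [C6_range]
    exact halg i

theorem indep2 {m n : ℕ} (S : Orb m n 1) (h4 : E₄ (S.y 0) ≠ 0) (h6 : E₆ (S.y 0) ≠ 0)
    (hM : Meas (jf (S.y 0))) (hS : SHier S.t) (hne : NE0 S) (hrel : NE1 S) {k : ℕ}
    (P : Fin k → ℂ) (κ0 : ℝ) (h1 : 1 ≤ κ0) (h2 : κ0 < 2) (hP : ¬ Appr P κ0) (θ1 θ2 : ℂ)
    (halg : ∀ i, IsAlgebraic (IntermediateField.adjoin ℚ ({jf (S.y 0), θ1, θ2} : Set ℂ)) (P i)) :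
    ∃ θ : ℂ, (θ = θ1 ∨ θ = θ2) ∧ AlgebraicIndependent ℚ
      (Sum.elim (fun _ : Unit ↦ θ) (Sum.elim (WF S S.x) (fun _ : Unit ↦ jf (S.y 0)))) := by
  have hF := indep1 S h4 h6 hM hS hne hrel
  have hnot := not_all_alg S hM hS hne hrel P κ0 h1 h2 hP
  by_contra hcon
  push Not at hcon
  have key : ∀ θ : ℂ, (θ = θ1 ∨ θ = θ2) → IsAlgebraic (IntermediateField.adjoin ℚ
      (Set.range (Sum.elim (WF S S.x) (fun _ : Unit ↦ jf (S.y 0))))) θ := by
    intro θ hθ
    by_contra ht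
    refine hcon θ hθ ?_
    rw [AlgebraicIndependent.sumElim_iff]
    refine ⟨hF, ?_⟩
    rw [algebraicIndependent_unique_type_iff]
    exact fun h ↦ ht (C6_frac h)
  refine hnot fun i ↦ C6_up (P i) ?_ (halg i)
  intro θ hθ
  rcases hθ with h | h | h
  · rw [h]
    have hmem : jf (S.y 0) ∈ IntermediateField.adjoin ℚ
        (Set.range (Sum.elim (WF S S.x) (fun _ : Unit ↦ jf (S.y 0)))) :=
      IntermediateField.subset_adjoin _ _ ⟨Sum.inr (), rfl⟩
    exact isAlgebraic_algebraMap (⟨_, hmem⟩ : IntermediateField.adjoin ℚ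
      (Set.range (Sum.elim (WF S S.x) (fun _ : Unit ↦ jf (S.y 0)))))
  · exact key θ (Or.inl h)
  · exact key θ (Or.inr h)

end AO
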