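import Pool.Agent.H32.CZ.Ch
import Pool.Agent.H32.AZ.L

/-!
# MP_ede373, orbits of algebraic points: definitions

* `ApprC`: as `CZ.ApprAt`, with an upper bound `L0` for the closeness at each embedding.
* `Rel X L0 P y`: a relation of size `X` for `y` over the tuple `P`, valid up to `exp (-L0)`.
* `RootRel X J w`: `w` is a root of a polynomial over `ℤ[J]` of size `X` with constant leading
  coefficient.
* `Meas J`: a transcendence measure of `J`.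
* `ScAppr P κ`: `P` has approximations of exponent `κ` at every scale.
-/

set_option autoImplicit false

namespace AO

open CZ
open H32.T3 (nrm)

/-- Approximations with capped closeness. -/
def ApprC {k : ℕ} (P : Fin k → ℂ) (t V L0 : ℝ) : Prop :=
  ∃ (E : Type) (_ : Field E) (_ : NumberField E) (x : Fin k → E)
    (S : Finset (E →+* ℂ)) (d : (E →+* ℂ) → ℝ),
    (Module.finrank ℚ E : ℝ) ≤ t ∧ (∀ i, hE (x i) ≤ t) ∧
    (∀ φ ∈ S, 0 ≤ d φ ∧ d φ ≤ L0 ∧ ∀ i, ‖φ (x i) - P i‖ ≤ Real.exp (-d φ)) ∧ V ≤ ∑ φ ∈ S, d φ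

/-- A relation of size `X` for `y` over `P`. -/
def Rel {k : ℕ} (X L0 : ℝ) (P : Fin k → ℂ) (y : ℂ) : Prop :=
  ∃ (n : ℕ) (G : ℕ → MvPolynomial (Fin k) ℤ), 0 < n ∧ (n : ℝ) ≤ X ∧
    (∀ j ≤ n, ((G j).totalDegree : ℝ) ≤ X) ∧ (∀ j ≤ n, nrm (G j) ≤ Real.exp X) ∧
    Real.exp (-X) ≤ ‖MvPolynomial.aeval P (G n)‖ ∧
    ‖∑ j ∈ Finset.range (n + 1), MvPolynomial.aeval P (G j) * y ^ j‖ ≤ Real.exp (-L0)

/-- Roots of polynomials over `ℤ[J]` with constant leading coefficient. -/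
def RootRel (X : ℝ) (J w : ℂ) : Prop :=
  ∃ (M : ℕ) (r : ℕ → Polynomial ℤ) (c : ℤ), 0 < M ∧ (M : ℝ) ≤ X ∧ c ≠ 0 ∧
    r M = Polynomial.C c ∧ (∀ i, ((r i).natDegree : ℝ) ≤ X) ∧ (∀ i, nr (r i) ≤ Real.exp X) ∧
    ∑ i ∈ Finset.range (M + 1), Polynomial.aeval J (r i) * w ^ i = 0

/-- A transcendence measure. -/
def Meas (J : ℂ) : Prop :=
  ∃ κ Λ0 : ℕ, ∀ (f : Polynomial ℤ) (Λ : ℕ), f ≠ 0 → Λ0 ≤ Λ → f.natDegree ≤ Λ →
    nr f ≤ Real.exp Λ → Real.exp (-(Λ : ℝ) ^ κ) ≤ ‖Polynomial.aeval J f‖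

/-- Approximations at every scale. -/
def ScAppr {k : ℕ} (P : Fin k → ℂ) (κ : ℝ) : Prop :=
  ∀ c : ℕ, ∃ B N0 : ℕ, ∀ N : ℕ, N0 ≤ N → ∃ t V : ℝ, 1 ≤ t ∧ t ≤ (N : ℝ) ^ B ∧
    ((N : ℝ) ^ c * t) ^ κ * (N : ℝ) ^ c ≤ V ∧ ApprAt P t V

end AO
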