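import Mathlib

/-!
# MP_ede373, orbits of algebraic points: explicit reals (light copy of a part of `Pool/Agent/H32/Hier.lean`)
-/

set_option autoImplicit false

open Complex
open scoped Real Topology

namespace AO.Ex

/-- A tower function. -/
def TT : ℕ → ℕ
  | 0 => 1
  | j + 1 => 2 ^ ((j + 1) * (TT j + 1))

lemma TT_zero : TT 0 = 1 := rfl

lemma TT_succ (j : ℕ) : TT (j + 1) = 2 ^ ((j + 1) * (TT j + 1)) := rfl

attribute [irreducible] TT

lemma TT_lt (j : ℕ) : TT j < TT (j + 1) := by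
  have h1 : (j + 1) * (TT j + 1) < 2 ^ ((j + 1) * (TT j + 1)) := Nat.lt_two_pow_self
  have h2 : TT j + 1 ≤ (j + 1) * (TT j + 1) := Nat.le_mul_of_pos_left _ (Nat.succ_pos j)
  rw [TT_succ]
  omega

lemma TT_mono : StrictMono TT := strictMono_nat_of_lt_succ TT_lt

lemma le_TT (j : ℕ) : j ≤ TT j := TT_mono.le_apply

/-- The parameters of the example. -/
noncomputable def tex (m : ℕ) (s : Fin m) : ℝ := ∑' k : ℕ, (1 / 2 : ℝ) ^ TT (m * k + s)

lemma summable_tex {m : ℕ} (hm : 0 < m) (s : ℕ) :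
    Summable fun k : ℕ ↦ (1 / 2 : ℝ) ^ TT (m * k + s) := by
  refine Summable.of_nonneg_of_le (fun _ ↦ by positivity) (fun k ↦ ?_)
    (summable_geometric_of_lt_one (r := (1 / 2 : ℝ)) (by norm_num) (by norm_num))
  refine pow_le_pow_of_le_one (by norm_num) (by norm_num) ?_
  have h1 := le_TT (m * k + s)
  have h2 : k ≤ m * k := Nat.le_mul_of_pos_left _ hm
  omega

lemma tex_error {m : ℕ} (hm : 0 < m) (s k : ℕ) :
    (1 / 2 : ℝ) ^ TT (m * (k + 1) + s) ≤ ∑' l : ℕ, (1 / 2 : ℝ) ^ TT (m * l + s) -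
      ∑ l ∈ Finset.range (k + 1), (1 / 2 : ℝ) ^ TT (m * l + s) ∧
    ∑' l : ℕ, (1 / 2 : ℝ) ^ TT (m * l + s) -
      ∑ l ∈ Finset.range (k + 1), (1 / 2 : ℝ) ^ TT (m * l + s) ≤
      2 * (1 / 2 : ℝ) ^ TT (m * (k + 1) + s) := by
  have hsum := summable_tex hm s
  have h1 := hsum.sum_add_tsum_nat_add (k + 1)
  have hsum' : Summable fun l : ℕ ↦ (1 / 2 : ℝ) ^ TT (m * (l + (k + 1)) + s) :=
    (summable_nat_add_iff (f := fun l : ℕ ↦ (1 / 2 : ℝ) ^ TT (m * l + s)) (k + 1)).mpr hsum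
  have e : ∑' l : ℕ, (1 / 2 : ℝ) ^ TT (m * l + s) -
      ∑ l ∈ Finset.range (k + 1), (1 / 2 : ℝ) ^ TT (m * l + s) =
      ∑' l : ℕ, (1 / 2 : ℝ) ^ TT (m * (l + (k + 1)) + s) := by
    rw [← h1]; ring
  rw [e]
  constructor
  · have h2 := hsum'.le_tsum 0 (fun _ _ ↦ by positivity)
    simpa using h2
  · have hgeo : HasSum (fun l : ℕ ↦ (1 / 2 : ℝ) ^ TT (m * (k + 1) + s) * (1 / 2 : ℝ) ^ l)
        ((1 / 2 : ℝ) ^ TT (m * (k + 1) + s) * 2) := hasSum_geometric_two.mul_left _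
    have h4 : ∀ l : ℕ, TT (m * (k + 1) + s) + l ≤ TT (m * (l + (k + 1)) + s) := by
      intro l
      induction l with
      | zero => simp
      | succ l ih =>
        have h5 : m * (l + (k + 1)) + s < m * (l + 1 + (k + 1)) + s := by nlinarith
        have h6 := TT_mono h5
        omega
    have h5 : ∀ l : ℕ, (1 / 2 : ℝ) ^ TT (m * (l + (k + 1)) + s) ≤
        (1 / 2 : ℝ) ^ TT (m * (k + 1) + s) * (1 / 2 : ℝ) ^ l := by
      intro l
      rw [← pow_add]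
      exact pow_le_pow_of_le_one (by norm_num) (by norm_num) (h4 l)
    have h3 := hasSum_le h5 hsum'.hasSum hgeo
    linarith

lemma exp_bound {X : ℕ} (hX : 1 ≤ X) : 2 * (1 / 2 : ℝ) ^ (4 * X) < Real.exp (-(X : ℝ)) := by
  have h1 : (1 / 4 : ℝ) ≤ Real.exp (-1) := by
    rw [Real.exp_neg]
    have h2 := Real.exp_one_lt_d9
    have h3 : Real.exp 1 ≤ 4 := by linarith
    rw [one_div]
    exact inv_anti₀ (Real.exp_pos 1) h3
  have h2 : Real.exp (-(X : ℝ)) = Real.exp (-1) ^ X := by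
    rw [← Real.exp_nat_mul]
    congr 1
    ring
  have h3 : (1 / 2 : ℝ) ^ (4 * X) = (1 / 4 : ℝ) ^ X * (1 / 4 : ℝ) ^ X := by
    rw [← mul_pow, pow_mul]
    norm_num
  have h4 : (1 / 4 : ℝ) ^ X ≤ 1 / 4 := by
    calc (1 / 4 : ℝ) ^ X ≤ (1 / 4 : ℝ) ^ 1 :=
          pow_le_pow_of_le_one (by norm_num) (by norm_num) hX
      _ = 1 / 4 := pow_one _
  have h5 : (0 : ℝ) < (1 / 4 : ℝ) ^ X := by positivity
  have h6 : (1 / 4 : ℝ) ^ X ≤ Real.exp (-1) ^ X := by gcongr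
  rw [h2, h3]
  nlinarith

theorem tex_hier {m : ℕ} (hm : 0 < m) (κ : ℝ) (K : ℕ) : ∃ q : ℕ, K ≤ q ∧ ∃ p : Fin m → ℤ,
    (∀ s, 0 < |tex m s - p s / q| ∧ |tex m s - p s / q| < Real.exp (-(q : ℝ) ^ κ)) ∧
    ∀ r s, r < s → |tex m s - p s / q| < |tex m r - p r / q| ^ K := by
  obtain ⟨κn, hκn⟩ := exists_nat_ge κ
  set k : ℕ := K + κn + 2 with hk
  obtain ⟨J, hJ⟩ : ∃ J, J + 1 = m * (k + 1) :=
    ⟨m * (k + 1) - 1, Nat.succ_pred_eq_of_pos (Nat.mul_pos hm (Nat.succ_pos k))⟩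
  have hJk : k + 1 ≤ J + 1 := by rw [hJ]; exact Nat.le_mul_of_pos_left _ hm
  set q : ℕ := 2 ^ TT J with hq
  have hqR : (q : ℝ) = 2 ^ TT J := by rw [hq]; push_cast; rfl
  have hTJ := le_TT J
  have hqK : K ≤ q := by
    have h1 : TT J < q := Nat.lt_two_pow_self
    omega
  set p : Fin m → ℤ := fun s ↦ ((∑ l ∈ Finset.range (k + 1), 2 ^ (TT J - TT (m * l + s)) : ℕ) : ℤ)
    with hp
  have hle : ∀ (s : Fin m), ∀ l ∈ Finset.range (k + 1), TT (m * l + s) ≤ TT J := by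
    intro s l hl
    rw [Finset.mem_range] at hl
    apply TT_mono.monotone
    have h1 : m * l + s < m * (l + 1) := by
      have := s.2
      rw [mul_add, mul_one]
      omega
    have h2 : m * (l + 1) ≤ m * (k + 1) := Nat.mul_le_mul_left m (by omega)
    omega
  have hpq : ∀ s : Fin m, (p s : ℝ) / q =
      ∑ l ∈ Finset.range (k + 1), (1 / 2 : ℝ) ^ TT (m * l + s) := by
    intro s
    rw [hp, hqR, div_eq_iff (by positivity), Finset.sum_mul]
    push_cast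
    refine Finset.sum_congr rfl fun l hl ↦ ?_
    have h1 := hle s l hl
    have h2 : (2 : ℝ) ^ TT J = 2 ^ (TT J - TT (m * l + s)) * 2 ^ TT (m * l + s) := by
      rw [← pow_add, Nat.sub_add_cancel h1]
    rw [h2, one_div, inv_pow]
    field_simp
  have herr : ∀ s : Fin m, (1 / 2 : ℝ) ^ TT (m * (k + 1) + s) ≤ tex m s - p s / q ∧
      tex m s - p s / q ≤ 2 * (1 / 2 : ℝ) ^ TT (m * (k + 1) + s) := by
    intro s
    rw [hpq]
    exact tex_error hm s k
  have hpos : ∀ s : Fin m, 0 < tex m s - p s / q := fun s ↦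
    lt_of_lt_of_le (by positivity) (herr s).1
  have habs : ∀ s : Fin m, |tex m s - p s / q| = tex m s - p s / q := fun s ↦
    abs_of_pos (hpos s)
  refine ⟨q, hqK, p, fun s ↦ ⟨by rw [habs]; exact hpos s, ?_⟩, fun r s hrs ↦ ?_⟩
  · rw [habs]
    refine lt_of_le_of_lt (herr s).2 ?_
    set X : ℕ := 2 ^ (κn * TT J) with hX
    have hX1 : 1 ≤ X := Nat.one_le_two_pow
    have hTX : 4 * X ≤ TT (m * (k + 1) + s) := by
      have h1 : TT (J + 1) ≤ TT (m * (k + 1) + s) := TT_mono.monotone (by omega)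
      refine le_trans ?_ h1
      rw [TT_succ, hX]
      have h2 : κn * TT J + 2 ≤ (J + 1) * (TT J + 1) := by
        have h3 : κn + 2 ≤ J + 1 := by omega
        calc κn * TT J + 2 ≤ (κn + 2) * (TT J + 1) := by nlinarith [Nat.zero_le (TT J), Nat.zero_le κn]
          _ ≤ _ := Nat.mul_le_mul_right _ h3
      calc 4 * 2 ^ (κn * TT J) = 2 ^ (κn * TT J + 2) := by rw [pow_add]; ring
        _ ≤ _ := Nat.pow_le_pow_right (by norm_num) h2
    have h3 : 2 * (1 / 2 : ℝ) ^ TT (m * (k + 1) + s) ≤ 2 * (1 / 2 : ℝ) ^ (4 * X) := by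
      have : (1 / 2 : ℝ) ^ TT (m * (k + 1) + s) ≤ (1 / 2 : ℝ) ^ (4 * X) :=
        pow_le_pow_of_le_one (by norm_num) (by norm_num) hTX
      linarith
    refine lt_of_le_of_lt h3 (lt_of_lt_of_le (exp_bound hX1) ?_)
    apply Real.exp_le_exp.mpr
    have hq1 : (1 : ℝ) ≤ q := by
      rw [hqR]; exact one_le_pow₀ (by norm_num)
    have h4 : (q : ℝ) ^ κ ≤ (X : ℝ) := by
      calc (q : ℝ) ^ κ ≤ (q : ℝ) ^ (κn : ℝ) := Real.rpow_le_rpow_of_exponent_le hq1 hκn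
        _ = (X : ℝ) := by
          rw [Real.rpow_natCast, hqR, hX, ← pow_mul, mul_comm]
          push_cast
          rfl
    linarith
  · rw [habs, habs]
    set a : ℕ := m * (k + 1) + r with ha
    have hab : a + 1 ≤ m * (k + 1) + s := by
      have : (r : ℕ) < s := hrs
      omega
    have hTab : K * TT a + 2 ≤ TT (m * (k + 1) + s) := by
      refine le_trans ?_ (TT_mono.monotone hab)
      rw [TT_succ]
      have h1 : (a + 1) * (TT a + 1) < 2 ^ ((a + 1) * (TT a + 1)) := Nat.lt_two_pow_self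
      have h2 : K + 1 ≤ a + 1 := by omega
      have h3 : (K + 1) * (TT a + 1) ≤ (a + 1) * (TT a + 1) := Nat.mul_le_mul_right _ h2
      nlinarith [Nat.zero_le (TT a), Nat.zero_le K]
    have h4 : (1 / 2 : ℝ) ^ TT (m * (k + 1) + s) ≤ (1 / 2 : ℝ) ^ (K * TT a + 2) :=
      pow_le_pow_of_le_one (by norm_num) (by norm_num) hTab
    have h5 : (1 / 2 : ℝ) ^ (K * TT a + 2) = (1 / 2 : ℝ) ^ (K * TT a) * (1 / 4) := by
      rw [pow_add]; norm_num
    have h6 : (1 / 2 : ℝ) ^ (K * TT a) ≤ (tex m r - p r / q) ^ K := by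
      rw [mul_comm, pow_mul]
      exact pow_le_pow_left₀ (by positivity) (herr r).1 K
    have h7 : (0 : ℝ) < (1 / 2 : ℝ) ^ (K * TT a) := by positivity
    have h8 := (herr s).2
    linarith

end AO.Ex
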