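import Pool.Agent.H32.AO.D0
import Pool.Agent.H60.AZ.Main

/-!
# MP_ede373, orbits of algebraic points, row F4: no approximations of exponent `κ0 < 2`
-/

set_option autoImplicit false

namespace AO

open MvPolynomial CZ AZ
open H32.T3 (nrm)

/-- The criterion in the form: no approximations. -/
theorem not_appr2 {m : ℕ} (P : Fin m → ℂ) (ea eg eb p q : ℕ) (hea : 0 < ea) (hqp : q < p)
    (hp : p < 2 * q) (hge : eg ≤ eb) (hex : (eb - eg + ea + 1) * p < eb * (p - q))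
    (hyp : ∃ M0 : ℕ, ∀ M : ℕ, M0 ≤ M → ∃ (Λ : Type) (_ : Fintype Λ) (R : Type)
      (W : R → Λ → MvPolynomial (Fin m) ℤ),
      0 < Fintype.card Λ ∧ Real.log (Fintype.card Λ) ≤ M ∧
      (∀ s l, ((W s l).totalDegree : ℝ) ≤ (M : ℝ) ^ ea ∧
        nrm (W s l) ≤ Real.exp ((M : ℝ) ^ ea)) ∧
      (∀ c : Λ → ℂ, (∀ l, ‖c l‖ ≤ 1) → (∃ l, ‖c l‖ = 1) →
        ∃ s, Real.exp (-(M : ℝ) ^ eb) ≤ ‖∑ l, c l * aeval P (W s l)‖) ∧
      (∃ V : Submodule ℂ (Λ → ℂ), Fintype.card Λ ≤ 2 * Module.finrank ℂ V ∧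
        ∀ c ∈ V, (∀ l, ‖c l‖ ≤ 1) → ∀ s,
          ‖∑ l, c l * aeval P (W s l)‖ ≤ Real.exp (-(M : ℝ) ^ eg))) :
    ¬ Appr P ((p : ℝ) / q) := by
  intro hA
  have hq0 : (0 : ℝ) < q := by
    have : 0 < q := by omega
    exact_mod_cast this
  have hab : ea < eb := by
    by_contra hle
    have h1 : eb ≤ ea := not_lt.1 hle
    have h2 : eb * (p - q) ≤ (eb - eg + ea + 1) * p :=
      Nat.mul_le_mul (by omega) (Nat.sub_le _ _)
    omega
  obtain ⟨M0, hM0⟩ := hyp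
  obtain ⟨M1, hM1⟩ := core_ineq P ea eg eb hea hab
  refine cf_gen P eb eg (ea + 1) (eb - eg) (eb - eg + (ea + 1))
    (eb * (p - q) - (eb - eg + (ea + 1)) * p) (p - q) q p ((p : ℝ) / q) (by omega) rfl
    (by omega) (div_mul_cancel₀ _ hq0.ne') ?_ ?_ (by omega) (by omega) (max M0 M1) ?_ hA
  · have : (eb - eg + (ea + 1)) * p < eb * (p - q) := hex
    omega
  · have : (eb - eg + (ea + 1)) * p < eb * (p - q) := hex
    omega
  · intro M hM E iF iN x S d t hf hx hd hex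
    obtain ⟨Λ, iΛ, R, W, hc0, hcM, hW, hlow, hup⟩ := hM0 M (le_trans (le_max_left _ _) hM)
    exact hM1 M (le_trans (le_max_right _ _) hM) Λ iΛ R W hc0 hcM hW hlow hup E iF iN x S d t hf hx hd
      hex

/-- An algebraic point which is not a CM point: numbers without approximations of exponent `κ0 < 2`. -/
theorem exists_not_appr (E4 E6 Jf : ℂ → ℂ)
    (h4 : ∀ τ : ℂ, E4 τ = 1 + 240 * ∑' m : ℕ, ((ArithmeticFunction.sigma 3 (m + 1) : ℕ) : ℂ) *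
          Complex.exp (2 * (Real.pi : ℂ) * Complex.I * ((m : ℂ) + 1) * τ))
    (h6 : ∀ τ : ℂ, E6 τ = 1 - 504 * ∑' m : ℕ, ((ArithmeticFunction.sigma 5 (m + 1) : ℕ) : ℂ) *
          Complex.exp (2 * (Real.pi : ℂ) * Complex.I * ((m : ℂ) + 1) * τ))
    (hJ : ∀ τ : ℂ, Jf τ = 1728 * E4 τ ^ 3 / (E4 τ ^ 3 - E6 τ ^ 2))
    (z : ℂ) (hz : 0 < z.im) (halg : IsAlgebraic ℚ z)
    (hcm : ¬ ∃ a b c : ℤ, (a ≠ 0 ∨ b ≠ 0 ∨ c ≠ 0) ∧ (a : ℂ) * z ^ 2 + b * z + c = 0) :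
    ∃ (m : ℕ) (P : Fin m → ℂ) (κ0 : ℝ), 1 ≤ κ0 ∧ κ0 < 2 ∧ ¬ Appr P κ0 ∧
      ∀ i, IsAlgebraic (IntermediateField.adjoin ℚ
        ({Jf z, deriv Jf z, deriv (deriv Jf) z} : Set ℂ)) (P i) := by
  obtain ⟨S, ι, _, _, _, _, K, rfl⟩ := exists_KD hz halg.isIntegral (degree_ge halg.isIntegral hcm)
  obtain ⟨c0, m, P, lam, C, hc0, hlam, hC, hP, hW⟩ := arith K hcm E4 E6 Jf h4 h6 hJ
  have hk : 1 ≤ Fintype.card S - 1 := by have := K.hS; omega
  have hge : eg (Fintype.card S - 1) ≤ eb (Fintype.card S - 1) := by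
    unfold eg eb; omega
  have h := not_appr2 P (ea (Fintype.card S - 1)) (eg (Fintype.card S - 1))
    (eb (Fintype.card S - 1)) (2 * (Fintype.card S - 1) + 5) (Fintype.card S - 1 + 3)
    (by unfold ea; omega) (by omega) (by omega) hge (param _) (crit_hyp2 K P hc0 hlam hC hW)
  have hq : (0 : ℝ) < ((Fintype.card S - 1 + 3 : ℕ) : ℝ) := by positivity
  refine ⟨m, P, _, ?_, ?_, h, hP⟩
  · rw [le_div_iff₀ hq, one_mul]
    exact_mod_cast (by omega : Fintype.card S - 1 + 3 ≤ 2 * (Fintype.card S - 1) + 5)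
  · rw [div_lt_iff₀ hq]
    exact_mod_cast (by omega : 2 * (Fintype.card S - 1) + 5 < 2 * (Fintype.card S - 1 + 3))

end AO
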