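import Pool.Agent.H32.AO.F6
import Pool.Agent.H32.AO.F4
import Pool.Agent.H32.MJ.J14

/-!
# MP_ede373, orbits of algebraic points: the main theorem
-/

set_option autoImplicit false

open UpperHalfPlane hiding I
open Complex EisensteinSeries ModularForm MatrixGroups Manifold
open scoped Real Topology

namespace AO

open H32 H32.T3 CZ

theorem hG {E4 E6 J : ℂ → ℂ}
    (h4 : ∀ τ : ℂ, E4 τ = 1 + 240 * ∑' m : ℕ, ((ArithmeticFunction.sigma 3 (m + 1) : ℕ) : ℂ) *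
      Complex.exp (2 * (Real.pi : ℂ) * Complex.I * ((m : ℂ) + 1) * τ))
    (h6 : ∀ τ : ℂ, E6 τ = 1 - 504 * ∑' m : ℕ, ((ArithmeticFunction.sigma 5 (m + 1) : ℕ) : ℂ) *
      Complex.exp (2 * (Real.pi : ℂ) * Complex.I * ((m : ℂ) + 1) * τ))
    (hJ : ∀ τ : ℂ, J τ = 1728 * E4 τ ^ 3 / (E4 τ ^ 3 - E6 τ ^ 2)) (τ : ℍ)
    (halg : IsAlgebraic ℚ (τ : ℂ)) (hcm : NCM (τ : ℂ)) :
    Meas (jf τ) ∧ E₄ τ ≠ 0 ∧ E₆ τ ≠ 0 ∧ NAp J τ := by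
  obtain ⟨n4, n6⟩ := AZ.E_ne (τ : ℂ) hcm τ rfl
  exact ⟨MJ.meas_jf τ halg hcm, n4, n6,
    exists_not_appr E4 E6 J h4 h6 hJ (τ : ℂ) τ.im_pos halg hcm⟩

end AO
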